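import Mathlib

/-!
# Hilbert-Schmidt bounds on finite orthonormal families, and decompositions
`bounded + Hilbert-Schmidt` of `B` obtained from those of `B B*`.
-/

set_option autoImplicit false

open scoped InnerProductSpace
open Module

namespace Pool.Agent.L5helper79.Ons

variable {H K G : Type*} [NormedAddCommGroup H] [InnerProductSpace ℂ H] [CompleteSpace H]
  [NormedAddCommGroup K] [InnerProductSpace ℂ K] [CompleteSpace K]
  [NormedAddCommGroup G] [InnerProductSpace ℂ G] [CompleteSpace G]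

/-- the square of the Hilbert-Schmidt norm is at most `c` -/
def HSb (T : H →L[ℂ] K) (c : ℝ) : Prop :=
  ∀ (n : ℕ) (e : Fin n → H), Orthonormal ℂ e → ∑ i, ‖T (e i)‖ ^ 2 ≤ c

omit [CompleteSpace H] [CompleteSpace K] in
lemma HSb.nonneg {T : H →L[ℂ] K} {c : ℝ} (h : HSb T c) : 0 ≤ c := by
  have := h 0 Fin.elim0 ⟨fun i => Fin.elim0 i, fun i => Fin.elim0 i⟩
  simpa using this

omit [CompleteSpace H] [CompleteSpace K] in
lemma HSb.mono {T : H →L[ℂ] K} {c c' : ℝ} (h : HSb T c) (hc : c ≤ c') : HSb T c' :=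
  fun n e he => (h n e he).trans hc

omit [CompleteSpace H] [CompleteSpace K] [CompleteSpace G] in
lemma HSb.comp_left {T : H →L[ℂ] K} {c : ℝ} (h : HSb T c) (R : K →L[ℂ] G) {M : ℝ} (_hM : 0 ≤ M)
    (hR : ‖R‖ ≤ M) : HSb (R ∘L T) (M ^ 2 * c) := by
  intro n e he
  have h1 : ∀ i, ‖(R ∘L T) (e i)‖ ^ 2 ≤ M ^ 2 * ‖T (e i)‖ ^ 2 := by
    intro i
    rw [← mul_pow]
    apply pow_le_pow_left₀ (norm_nonneg _)
    exact (R.le_opNorm _).trans (mul_le_mul_of_nonneg_right hR (norm_nonneg _))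
  calc ∑ i, ‖(R ∘L T) (e i)‖ ^ 2 ≤ ∑ i, M ^ 2 * ‖T (e i)‖ ^ 2 := Finset.sum_le_sum (fun i _ => h1 i)
    _ = M ^ 2 * ∑ i, ‖T (e i)‖ ^ 2 := by rw [Finset.mul_sum]
    _ ≤ M ^ 2 * c := mul_le_mul_of_nonneg_left (h n e he) (by positivity)

omit [CompleteSpace H] in
lemma nsq_sum {ι : Type*} (s : Finset ι) (v : ι → H)
    (ho : ∀ i ∈ s, ∀ j ∈ s, i ≠ j → ⟪v i, v j⟫_ℂ = 0) :
    ‖∑ i ∈ s, v i‖ ^ 2 = ∑ i ∈ s, ‖v i‖ ^ 2 := by
  classical
  induction s using Finset.induction_on with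
  | empty => simp
  | insert i s hi ih =>
    rw [Finset.sum_insert hi, Finset.sum_insert hi, norm_add_sq (𝕜 := ℂ), inner_sum,
      ih (fun j hj k hk => ho j (Finset.mem_insert_of_mem hj) k (Finset.mem_insert_of_mem hk)),
      Finset.sum_eq_zero]
    · simp
    · intro j hj
      exact ho i (Finset.mem_insert_self _ _) j (Finset.mem_insert_of_mem hj)
        (fun h => hi (h ▸ hj))

omit [CompleteSpace H] in
/-- an orthonormal basis of a finite-dimensional subspace as an orthonormal family of the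
ambient space -/
lemma exists_onb (W : Submodule ℂ H) [FiniteDimensional ℂ W] :
    ∃ (w : Fin (finrank ℂ W) → H), Orthonormal ℂ w ∧ (∀ i, w i ∈ W) ∧
      ∀ x ∈ W, x = ∑ i, ⟪w i, x⟫_ℂ • w i := by
  let b := stdOrthonormalBasis ℂ W
  refine ⟨fun i => (b i : H), ?_, fun i => (b i).2, ?_⟩
  · have := b.orthonormal
    exact this.comp_linearIsometry W.subtypeₗᵢ
  · intro x hx
    have h1 := b.sum_repr' ⟨x, hx⟩
    have h2 := congrArg (fun z : W => (z : H)) h1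
    simp only [Submodule.coe_sum, Submodule.coe_smul] at h2
    exact h2.symm

omit [CompleteSpace H] in
/-- Parseval's identity on a finite-dimensional subspace -/
lemma norm_sq_eq_sum {W : Submodule ℂ H} {n : ℕ} {w : Fin n → H} (hw : Orthonormal ℂ w)
    (hsp : ∀ x ∈ W, x = ∑ i, ⟪w i, x⟫_ℂ • w i) {x : H} (hx : x ∈ W) :
    ‖x‖ ^ 2 = ∑ i, ‖⟪w i, x⟫_ℂ‖ ^ 2 := by
  conv_lhs => rw [hsp x hx]
  rw [nsq_sum]
  · apply Finset.sum_congr rfl
    intro i _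
    rw [norm_smul, hw.1 i, mul_one]
  · intro i _ j _ hij
    rw [inner_smul_left, inner_smul_right, hw.2 hij, mul_zero, mul_zero]

omit [CompleteSpace H] in
/-- Bessel's inequality, finite version, in the form used below -/
lemma bessel {n : ℕ} {e : Fin n → H} (he : Orthonormal ℂ e) (x : H) :
    ∑ i, ‖⟪x, e i⟫_ℂ‖ ^ 2 ≤ ‖x‖ ^ 2 := by
  have := he.sum_inner_products_le x (s := Finset.univ)
  calc ∑ i, ‖⟪x, e i⟫_ℂ‖ ^ 2 = ∑ i, ‖⟪e i, x⟫_ℂ‖ ^ 2 := by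
        apply Finset.sum_congr rfl
        intro i _
        rw [norm_inner_symm]
    _ ≤ ‖x‖ ^ 2 := this

lemma HSb.adjoint {T : H →L[ℂ] K} {c : ℝ} (h : HSb T c) : HSb (T.adjoint) c := by
  intro n e he
  -- the span of the images
  let W : Submodule ℂ H := Submodule.span ℂ (Set.range fun i => T.adjoint (e i))
  have : FiniteDimensional ℂ W := FiniteDimensional.span_of_finite ℂ (Set.finite_range _)
  obtain ⟨w, hw, hwm, hsp⟩ := exists_onb W
  have h1 : ∀ i, ‖T.adjoint (e i)‖ ^ 2 = ∑ j, ‖⟪T (w j), e i⟫_ℂ‖ ^ 2 := by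
    intro i
    rw [norm_sq_eq_sum hw hsp (Submodule.subset_span ⟨i, rfl⟩)]
    apply Finset.sum_congr rfl
    intro j _
    rw [ContinuousLinearMap.adjoint_inner_right]
  simp_rw [h1]
  rw [Finset.sum_comm]
  calc ∑ j, ∑ i, ‖⟪T (w j), e i⟫_ℂ‖ ^ 2 ≤ ∑ j, ‖T (w j)‖ ^ 2 :=
        Finset.sum_le_sum (fun j _ => bessel he _)
    _ ≤ c := h _ w hw

lemma HSb.comp_right {T : H →L[ℂ] K} {c : ℝ} (h : HSb T c) (R : G →L[ℂ] H) {M : ℝ} (hM : 0 ≤ M)
    (hR : ‖R‖ ≤ M) : HSb (T ∘L R) (M ^ 2 * c) := by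
  have h1 := (h.adjoint.comp_left R.adjoint hM (by
    rw [ContinuousLinearMap.adjoint.norm_map]; exact hR)).adjoint
  rw [ContinuousLinearMap.adjoint_comp, ContinuousLinearMap.adjoint_adjoint,
    ContinuousLinearMap.adjoint_adjoint] at h1
  exact h1

omit [CompleteSpace H] [CompleteSpace K] in
lemma HSb.zero : HSb (0 : H →L[ℂ] K) 0 := by
  intro n e _
  simp

omit [CompleteSpace H] [CompleteSpace K] in
lemma HSb.add {T T' : H →L[ℂ] K} {a b : ℝ} (ha : 0 ≤ a) (hb : 0 ≤ b) (h : HSb T (a ^ 2))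
    (h' : HSb T' (b ^ 2)) : HSb (T + T') ((a + b) ^ 2) := by
  intro n e he
  have h1 := h n e he
  have h2 := h' n e he
  have h3 : ∑ i, ‖T (e i)‖ * ‖T' (e i)‖ ≤ a * b := by
    have h4 := Finset.sum_mul_sq_le_sq_mul_sq Finset.univ (fun i => ‖T (e i)‖) (fun i => ‖T' (e i)‖)
    apply le_of_sq_le_sq _ (mul_nonneg ha hb)
    calc (∑ i, ‖T (e i)‖ * ‖T' (e i)‖) ^ 2 ≤ (∑ i, ‖T (e i)‖ ^ 2) * ∑ i, ‖T' (e i)‖ ^ 2 := h4
      _ ≤ a ^ 2 * b ^ 2 := by
        apply mul_le_mul h1 h2 (Finset.sum_nonneg (fun i _ => by positivity)) (by positivity)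
      _ = (a * b) ^ 2 := by ring
  calc ∑ i, ‖(T + T') (e i)‖ ^ 2 ≤ ∑ i, (‖T (e i)‖ ^ 2 + 2 * (‖T (e i)‖ * ‖T' (e i)‖) +
        ‖T' (e i)‖ ^ 2) := by
        apply Finset.sum_le_sum
        intro i _
        have h5 : ‖(T + T') (e i)‖ ≤ ‖T (e i)‖ + ‖T' (e i)‖ := norm_add_le _ _
        calc ‖(T + T') (e i)‖ ^ 2 ≤ (‖T (e i)‖ + ‖T' (e i)‖) ^ 2 :=
              pow_le_pow_left₀ (norm_nonneg _) h5 2
          _ = _ := by ring
    _ = ∑ i, ‖T (e i)‖ ^ 2 + 2 * ∑ i, ‖T (e i)‖ * ‖T' (e i)‖ + ∑ i, ‖T' (e i)‖ ^ 2 := by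
        rw [Finset.sum_add_distrib, Finset.sum_add_distrib, Finset.mul_sum]
    _ ≤ a ^ 2 + 2 * (a * b) + b ^ 2 := by linarith
    _ = (a + b) ^ 2 := by ring

omit [CompleteSpace H] [CompleteSpace K] in
lemma HSb.sum {ι : Type*} (s : Finset ι) (T : ι → (H →L[ℂ] K)) (a : ι → ℝ) (ha : ∀ i ∈ s, 0 ≤ a i)
    (h : ∀ i ∈ s, HSb (T i) (a i ^ 2)) : HSb (∑ i ∈ s, T i) ((∑ i ∈ s, a i) ^ 2) := by
  classical
  induction s using Finset.induction_on with
  | empty => simpa using HSb.zero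
  | insert i s hi ih =>
    rw [Finset.sum_insert hi, Finset.sum_insert hi]
    apply HSb.add (ha i (Finset.mem_insert_self _ _))
      (Finset.sum_nonneg (fun j hj => ha j (Finset.mem_insert_of_mem hj)))
      (h i (Finset.mem_insert_self _ _))
    exact ih (fun j hj => ha j (Finset.mem_insert_of_mem hj))
      (fun j hj => h j (Finset.mem_insert_of_mem hj))

/-- orthogonal ranges: the squares of the Hilbert-Schmidt norms add up -/
lemma HSb.orth_sum {ι : Type*} (s : Finset ι) (T : ι → (H →L[ℂ] K)) (c : ι → ℝ)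
    (h : ∀ i ∈ s, HSb (T i) (c i))
    (ho : ∀ i ∈ s, ∀ j ∈ s, i ≠ j → ∀ x y, ⟪T i x, T j y⟫_ℂ = 0) :
    HSb (∑ i ∈ s, T i) (∑ i ∈ s, c i) := by
  intro n e he
  have h1 : ∀ k, ‖(∑ i ∈ s, T i) (e k)‖ ^ 2 = ∑ i ∈ s, ‖T i (e k)‖ ^ 2 := by
    intro k
    rw [_root_.sum_apply]
    exact nsq_sum s _ (fun i hi j hj hij => ho i hi j hj hij _ _)
  simp_rw [h1]
  rw [Finset.sum_comm]
  exact Finset.sum_le_sum (fun i hi => h i hi n e he)

/-- norm of an orthogonal sum -/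
lemma norm_orth_sum_le {ι : Type*} (s : Finset ι) (T : ι → (H →L[ℂ] K)) (P : ι → (H →L[ℂ] H))
    {M : ℝ} (hM : 0 ≤ M) (h : ∀ i ∈ s, ‖T i‖ ≤ M) (hP : ∀ i ∈ s, T i = T i ∘L P i)
    (hPs : ∀ x, ∑ i ∈ s, ‖P i x‖ ^ 2 ≤ ‖x‖ ^ 2)
    (ho : ∀ i ∈ s, ∀ j ∈ s, i ≠ j → ∀ x y, ⟪T i x, T j y⟫_ℂ = 0) :
    ‖∑ i ∈ s, T i‖ ≤ M := by
  apply ContinuousLinearMap.opNorm_le_bound _ hM
  intro x
  have h1 : ‖(∑ i ∈ s, T i) x‖ ^ 2 = ∑ i ∈ s, ‖T i x‖ ^ 2 := by
    rw [_root_.sum_apply]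
    exact nsq_sum s _ (fun i hi j hj hij => ho i hi j hj hij _ _)
  apply le_of_sq_le_sq _ (by positivity)
  rw [h1, mul_pow]
  calc ∑ i ∈ s, ‖T i x‖ ^ 2 ≤ ∑ i ∈ s, M ^ 2 * ‖P i x‖ ^ 2 := by
        apply Finset.sum_le_sum
        intro i hi
        rw [← mul_pow]
        apply pow_le_pow_left₀ (norm_nonneg _)
        conv_lhs => rw [hP i hi]
        exact ((T i).le_opNorm _).trans (mul_le_mul_of_nonneg_right (h i hi) (norm_nonneg _))
    _ = M ^ 2 * ∑ i ∈ s, ‖P i x‖ ^ 2 := by rw [Finset.mul_sum]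
    _ ≤ M ^ 2 * ‖x‖ ^ 2 := mul_le_mul_of_nonneg_left (hPs x) (by positivity)

/-- greedy choice of the exceptional subspace -/
lemma greedy {Y : H →L[ℂ] K} {c δ : ℝ} (h : HSb Y c) (hδ : 0 < δ) :
    ∃ (r : ℕ) (w : Fin r → H), Orthonormal ℂ w ∧ r * δ ^ 2 ≤ c ∧
      ∀ g : H, (∀ i, ⟪w i, g⟫_ℂ = 0) → ‖Y g‖ ≤ δ * ‖g‖ := by
  classical
  let P : ℕ → Prop := fun n => ∃ w : Fin n → H, Orthonormal ℂ w ∧ ∀ i, δ < ‖Y (w i)‖
  have hP0 : P 0 := ⟨Fin.elim0, ⟨fun i => Fin.elim0 i, fun i => Fin.elim0 i⟩, fun i => Fin.elim0 i⟩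
  have hbd : ∀ n, P n → n * δ ^ 2 ≤ c := by
    rintro n ⟨w, hw, hlt⟩
    refine le_trans ?_ (h n w hw)
    calc (n : ℝ) * δ ^ 2 = ∑ _i : Fin n, δ ^ 2 := by simp
      _ ≤ ∑ i, ‖Y (w i)‖ ^ 2 :=
        Finset.sum_le_sum (fun i _ => pow_le_pow_left₀ hδ.le (hlt i).le 2)
  obtain ⟨B, hB⟩ := exists_nat_gt (c / δ ^ 2)
  have hbd2 : ∀ n, P n → n ≤ B := by
    intro n hn
    have h1 := hbd n hn
    have h2 : (n : ℝ) ≤ c / δ ^ 2 := by rw [le_div_iff₀ (by positivity)]; exact h1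
    exact_mod_cast (h2.trans hB.le)
  obtain ⟨r, hr⟩ : ∃ r, r = Nat.findGreatest P B := ⟨_, rfl⟩
  have hPr0 : P r := by
    rw [hr]; exact Nat.findGreatest_spec (P := P) (Nat.zero_le B) hP0
  obtain ⟨w, hw, hlt⟩ := hPr0
  refine ⟨r, w, hw, hbd r ⟨w, hw, hlt⟩, ?_⟩
  intro g hg
  by_contra hcon
  push Not at hcon
  have hg0 : g ≠ 0 := by
    rintro rfl
    simp at hcon
  have hgn : 0 < ‖g‖ := norm_pos_iff.2 hg0
  have hPr : P (r + 1) := by
    refine ⟨Fin.snoc w (((‖g‖⁻¹ : ℝ) : ℂ) • g), ?_, ?_⟩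
    · rw [orthonormal_iff_ite]
      have hw' := orthonormal_iff_ite.1 hw
      intro i j
      refine Fin.lastCases ?_ (fun i => ?_) i <;> refine Fin.lastCases ?_ (fun j => ?_) j
      · simp only [Fin.snoc_last, if_true]
        rw [inner_smul_left, inner_smul_right, inner_self_eq_norm_sq_to_K]
        simp only [Complex.conj_ofReal, Complex.coe_algebraMap]
        have : (‖g‖ : ℂ) ≠ 0 := by exact_mod_cast hgn.ne'
        push_cast
        field_simp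
      · simp only [Fin.snoc_last, Fin.snoc_castSucc]
        rw [inner_smul_left, ← inner_conj_symm, hg j]
        simp [(Fin.castSucc_lt_last j).ne']
      · simp only [Fin.snoc_last, Fin.snoc_castSucc]
        rw [inner_smul_right, hg i]
        simp [(Fin.castSucc_lt_last i).ne]
      · simp only [Fin.snoc_castSucc]
        rw [hw' i j]
        simp [Fin.ext_iff]
    · intro i
      refine Fin.lastCases ?_ (fun i => ?_) i
      · simp only [Fin.snoc_last]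
        rw [map_smul, norm_smul, Complex.norm_real, Real.norm_eq_abs, abs_of_pos (inv_pos.2 hgn)]
        rw [lt_inv_mul_iff₀ hgn]
        linarith
      · simp only [Fin.snoc_castSucc]
        exact hlt i
  have h3 : r + 1 ≤ Nat.findGreatest P B := Nat.le_findGreatest (hbd2 _ hPr) hPr
  omega

end Pool.Agent.L5helper79.Ons
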