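import Mathlib

/-!
# Averaging over time grids
-/

set_option autoImplicit false

open scoped ENNReal
open MeasureTheory

namespace Pool.Agent.L5helper79.Ons

lemma shift_int (G : ℝ → ℝ≥0∞) (c η : ℝ) :
    ∫⁻ t in Set.Ico c (c + η), G t = ∫⁻ s in Set.Ico (0 : ℝ) η, G (c + s) := by
  rw [← lintegral_indicator measurableSet_Ico, ← lintegral_indicator measurableSet_Ico,
    ← lintegral_add_left_eq_self _ c]
  apply lintegral_congr
  intro s
  by_cases h : s ∈ Set.Ico (0 : ℝ) η
  · rw [Set.indicator_of_mem h, Set.indicator_of_mem]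
    rw [Set.mem_Ico] at h ⊢
    constructor <;> linarith [h.1, h.2]
  · rw [Set.indicator_of_notMem h, Set.indicator_of_notMem]
    rw [Set.mem_Ico] at h ⊢
    intro h2
    apply h
    constructor <;> linarith [h2.1, h2.2]

lemma split_int (G : ℝ → ℝ≥0∞) (c : ℝ) {η : ℝ} (hη : 0 < η) (n : ℕ) :
    ∫⁻ t in Set.Ico c (c + n * η), G t =
      ∑ i ∈ Finset.range n, ∫⁻ t in Set.Ico (c + i * η) (c + i * η + η), G t := by
  induction n with
  | zero => simp
  | succ n ih =>
    rw [Finset.sum_range_succ, ← ih, ← lintegral_union measurableSet_Ico]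
    · congr 2
      rw [Set.Ico_union_Ico_eq_Ico]
      · push_cast; ring_nf
      · have : 0 ≤ (n : ℝ) * η := by positivity
        linarith
      · linarith
    · rw [Set.disjoint_left]
      intro t h1 h2
      rw [Set.mem_Ico] at h1 h2
      linarith [h1.2, h2.1]

theorem avg (G : ℝ → ℝ≥0∞) (hG : Measurable G) {a b : ℝ≥0∞} (hb : b ≠ ∞)
    (h : ∀ η : ℝ, 0 < η → ∀ θ : ℝ, ∀ M : ℕ,
      ∑ i : Fin M, ENNReal.ofReal η * G (θ + ((i : ℕ) : ℝ) * η) ≤ a + b * ENNReal.ofReal η) :
    ∫⁻ t, G t ≤ a := by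
  -- step 1
  have h1 : ∀ T : ℝ, 0 < T → ∀ M : ℕ, 0 < M →
      ∫⁻ t in Set.Ico (-T) T, G t ≤ a + b * ENNReal.ofReal (2 * T / M) := by
    intro T hT M hM
    have hM' : (0:ℝ) < M := by exact_mod_cast hM
    set η : ℝ := 2 * T / M with hη
    have hηpos : 0 < η := by positivity
    have h2 : Set.Ico (-T) T = Set.Ico (-T) (-T + M * η) := by
      congr 1
      rw [hη]; field_simp; ring
    rw [h2, split_int G _ hηpos]
    have h3 : ∀ i ∈ Finset.range M, ∫⁻ t in Set.Ico (-T + i * η) (-T + i * η + η), G t =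
        ∫⁻ s in Set.Ico (0 : ℝ) η, G (-T + s + i * η) := by
      intro i _
      rw [shift_int G]
      apply lintegral_congr
      intro s
      congr 1
      ring
    rw [Finset.sum_congr rfl h3, ← lintegral_finsetSum]
    swap
    · intro i _
      exact hG.comp (by fun_prop)
    have hη0 : ENNReal.ofReal η ≠ 0 := by
      rw [ne_eq, ENNReal.ofReal_eq_zero, not_le]; exact hηpos
    have h4 : ∀ s, ∑ i ∈ Finset.range M, G (-T + s + i * η) ≤
        (a + b * ENNReal.ofReal η) / ENNReal.ofReal η := by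
      intro s
      rw [ENNReal.le_div_iff_mul_le (Or.inl hη0) (Or.inl ENNReal.ofReal_ne_top), mul_comm,
        Finset.mul_sum]
      have h5 := h η hηpos (-T + s) M
      rw [Fin.sum_univ_eq_sum_range (fun i => ENNReal.ofReal η * G (-T + s + (i : ℝ) * η))] at h5
      exact h5
    calc ∫⁻ s in Set.Ico (0 : ℝ) η, ∑ i ∈ Finset.range M, G (-T + s + i * η)
        ≤ ∫⁻ s in Set.Ico (0 : ℝ) η, (a + b * ENNReal.ofReal η) / ENNReal.ofReal η :=
          lintegral_mono h4
      _ = (a + b * ENNReal.ofReal η) / ENNReal.ofReal η * ENNReal.ofReal η := by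
          rw [setLIntegral_const, Real.volume_Ico, sub_zero]
      _ = a + b * ENNReal.ofReal η := ENNReal.div_mul_cancel hη0 ENNReal.ofReal_ne_top
  -- step 2
  have h2 : ∀ T : ℝ, 0 < T → ∫⁻ t in Set.Ico (-T) T, G t ≤ a := by
    intro T hT
    have hlim : Filter.Tendsto (fun M : ℕ => a + b * ENNReal.ofReal (2 * T / (M + 1 : ℕ)))
        Filter.atTop (nhds (a + b * ENNReal.ofReal 0)) := by
      apply Filter.Tendsto.const_add
      apply ENNReal.Tendsto.const_mul _ (Or.inr hb)
      apply ENNReal.tendsto_ofReal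
      have := (tendsto_const_div_atTop_nhds_zero_nat (2 * T)).comp (Filter.tendsto_add_atTop_nat 1)
      exact this
    rw [ENNReal.ofReal_zero, mul_zero, add_zero] at hlim
    exact ge_of_tendsto' hlim (fun M => h1 T hT (M + 1) (Nat.succ_pos M))
  -- step 3
  have h3 : (⋃ n : ℕ, Set.Ico (-((n : ℝ) + 1)) ((n : ℝ) + 1)) = Set.univ := by
    rw [Set.eq_univ_iff_forall]
    intro t
    rw [Set.mem_iUnion]
    obtain ⟨n, hn⟩ := exists_nat_gt |t|
    refine ⟨n, ?_⟩
    rw [Set.mem_Ico]
    have h4 := abs_lt.1 hn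
    constructor <;> linarith [h4.1, h4.2]
  rw [← setLIntegral_univ, ← h3, setLIntegral_iUnion_of_directed]
  · apply iSup_le
    intro n
    exact h2 _ (by positivity)
  · apply Monotone.directed_le
    intro n m hnm
    have : (n : ℝ) ≤ m := by exact_mod_cast hnm
    apply Set.Ico_subset_Ico <;> linarith

end Pool.Agent.L5helper79.Ons
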