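import Pool.Agent.L5helper79.Ons.A

/-!
# From `B B* = X + Y` (bounded + Hilbert-Schmidt) to bounds for `B`
-/

set_option autoImplicit false
set_option linter.unusedSectionVars false

open scoped InnerProductSpace
open Module

namespace Pool.Agent.L5helper79.Ons

variable {H K G : Type*} [NormedAddCommGroup H] [InnerProductSpace ℂ H] [CompleteSpace H]
  [NormedAddCommGroup K] [InnerProductSpace ℂ K] [CompleteSpace K]
  [NormedAddCommGroup G] [InnerProductSpace ℂ G] [CompleteSpace G]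

lemma adj_norm_sq (B : H →L[ℂ] K) (w : K) :
    ‖B.adjoint w‖ ^ 2 = (⟪w, (B ∘L B.adjoint) w⟫_ℂ).re := by
  rw [ContinuousLinearMap.comp_apply, ← ContinuousLinearMap.adjoint_inner_left,
    norm_sq_eq_re_inner (𝕜 := ℂ)]
  rfl

lemma adj_norm_sq_le {B : H →L[ℂ] K} {X Y : K →L[ℂ] K} (hB : B ∘L B.adjoint = X + Y) {l : ℝ}
    (hX : ‖X‖ ≤ l) (w : K) : ‖B.adjoint w‖ ^ 2 ≤ l * ‖w‖ ^ 2 + ‖w‖ * ‖Y w‖ := by
  rw [adj_norm_sq, hB]
  have h1 : (X + Y) w = X w + Y w := rfl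
  rw [h1, inner_add_right, Complex.add_re]
  have h2 : (⟪w, X w⟫_ℂ).re ≤ l * ‖w‖ ^ 2 := by
    calc (⟪w, X w⟫_ℂ).re ≤ ‖⟪w, X w⟫_ℂ‖ := Complex.re_le_norm _
      _ ≤ ‖w‖ * ‖X w‖ := norm_inner_le_norm _ _
      _ ≤ ‖w‖ * (l * ‖w‖) := by
        apply mul_le_mul_of_nonneg_left _ (norm_nonneg _)
        exact (X.le_opNorm w).trans (mul_le_mul_of_nonneg_right hX (norm_nonneg _))
      _ = l * ‖w‖ ^ 2 := by ring
  have h3 : (⟪w, Y w⟫_ℂ).re ≤ ‖w‖ * ‖Y w‖ :=
    (Complex.re_le_norm _).trans (norm_inner_le_norm _ _)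
  linarith

/-- sum over an orthonormal family of the target -/
lemma sum_adj_le {B : H →L[ℂ] K} {X Y : K →L[ℂ] K} (hB : B ∘L B.adjoint = X + Y) {l κ : ℝ}
    (hκ : 0 ≤ κ) (hX : ‖X‖ ≤ l) (hY : HSb Y (κ ^ 2)) {r : ℕ} {w : Fin r → K}
    (hw : Orthonormal ℂ w) : ∑ i, ‖B.adjoint (w i)‖ ^ 2 ≤ r * l + Real.sqrt r * κ := by
  have h1 : ∀ i, ‖B.adjoint (w i)‖ ^ 2 ≤ l + ‖Y (w i)‖ := by
    intro i
    have := adj_norm_sq_le hB hX (w i)
    rw [hw.1 i] at this
    linarith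
  have h2 : ∑ i, ‖Y (w i)‖ ≤ Real.sqrt r * κ := by
    apply le_of_sq_le_sq _ (by positivity)
    rw [mul_pow, Real.sq_sqrt (Nat.cast_nonneg r)]
    have h3 := Finset.sum_mul_sq_le_sq_mul_sq Finset.univ (fun _ : Fin r => (1 : ℝ))
      (fun i => ‖Y (w i)‖)
    simp only [one_mul, one_pow, Finset.sum_const, Finset.card_univ, Fintype.card_fin,
      nsmul_eq_mul, mul_one] at h3
    exact h3.trans (mul_le_mul_of_nonneg_left (hY r w hw) (Nat.cast_nonneg r))
  calc ∑ i, ‖B.adjoint (w i)‖ ^ 2 ≤ ∑ i, (l + ‖Y (w i)‖) := Finset.sum_le_sum (fun i _ => h1 i)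
    _ = r * l + ∑ i, ‖Y (w i)‖ := by simp [Finset.sum_add_distrib]
    _ ≤ _ := by linarith

/-- sum over a Bessel family of the source, bounded by the sum over an orthonormal basis of the
span of the images -/
theorem trace_le {B : H →L[ℂ] K} {X Y : K →L[ℂ] K} (hB : B ∘L B.adjoint = X + Y) {l κ : ℝ}
    (hl : 0 ≤ l) (hκ : 0 ≤ κ) (hX : ‖X‖ ≤ l) (hY : HSb Y (κ ^ 2)) {N : ℕ} {e : Fin N → H}
    (he : Orthonormal ℂ e) : ∑ j, ‖B (e j)‖ ^ 2 ≤ N * l + Real.sqrt N * κ := by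
  let W : Submodule ℂ K := Submodule.span ℂ (Set.range fun j => B (e j))
  have : FiniteDimensional ℂ W := FiniteDimensional.span_of_finite ℂ (Set.finite_range _)
  obtain ⟨w, hw, hwm, hsp⟩ := exists_onb W
  have hr : finrank ℂ W ≤ N := by
    have := finrank_range_le_card (R := ℂ) (fun j => B (e j))
    simpa [Set.finrank] using this
  have h1 : ∀ j, ‖B (e j)‖ ^ 2 = ∑ i, ‖⟪B.adjoint (w i), e j⟫_ℂ‖ ^ 2 := by
    intro j
    rw [norm_sq_eq_sum hw hsp (Submodule.subset_span ⟨j, rfl⟩)]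
    apply Finset.sum_congr rfl
    intro i _
    rw [ContinuousLinearMap.adjoint_inner_left]
  simp_rw [h1]
  rw [Finset.sum_comm]
  calc ∑ i, ∑ j, ‖⟪B.adjoint (w i), e j⟫_ℂ‖ ^ 2 ≤ ∑ i, ‖B.adjoint (w i)‖ ^ 2 :=
        Finset.sum_le_sum (fun i _ => bessel he _)
    _ ≤ (finrank ℂ W : ℝ) * l + Real.sqrt (finrank ℂ W : ℝ) * κ := sum_adj_le hB hκ hX hY hw
    _ ≤ N * l + Real.sqrt N * κ := by
      have h2 : ((finrank ℂ W : ℕ) : ℝ) ≤ N := by exact_mod_cast hr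
      gcongr

/-- decomposition of `B` into a bounded part and a Hilbert-Schmidt part -/
theorem decomp {B : H →L[ℂ] K} {X Y : K →L[ℂ] K} (hB : B ∘L B.adjoint = X + Y) {l c : ℝ}
    (hl : 0 < l) (hX : ‖X‖ ≤ l / 2) (hY : HSb Y c) :
    ∃ B1 B2 : H →L[ℂ] K, B = B1 + B2 ∧ ‖B1‖ ≤ Real.sqrt l ∧ HSb B2 (4 * c / l) := by
  obtain ⟨r, w, hw, hr, hout⟩ := greedy hY (half_pos hl)
  have hc : 0 ≤ c := hY.nonneg
  -- the projection on the span of `w`
  let P : K →L[ℂ] K := ∑ i, (innerSL ℂ (w i)).smulRight (w i)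
  have hPx : ∀ x, P x = ∑ i, ⟪w i, x⟫_ℂ • w i := by
    intro x
    simp [P, _root_.sum_apply]
  have hw' := orthonormal_iff_ite.1 hw
  have hPw : ∀ x i, ⟪w i, P x⟫_ℂ = ⟪w i, x⟫_ℂ := by
    intro x i
    rw [hPx, inner_sum, Finset.sum_eq_single_of_mem i (Finset.mem_univ _)]
    · rw [inner_smul_right, hw' i i, if_pos rfl, mul_one]
    · intro j _ hji
      rw [inner_smul_right, hw' i j, if_neg (fun h => hji h.symm), mul_zero]
  have hPn : ∀ x, ‖P x‖ ^ 2 = ∑ i, ‖⟪w i, x⟫_ℂ‖ ^ 2 := by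
    intro x
    rw [hPx, nsq_sum]
    · apply Finset.sum_congr rfl
      intro i _
      rw [norm_smul, hw.1 i, mul_one]
    · intro i _ j _ hij
      rw [inner_smul_left, inner_smul_right, hw.2 hij, mul_zero, mul_zero]
  have hPsym : ∀ x y, ⟪P x, y⟫_ℂ = ⟪x, P y⟫_ℂ := by
    intro x y
    rw [hPx, hPx, sum_inner, inner_sum]
    apply Finset.sum_congr rfl
    intro i _
    rw [inner_smul_left, inner_smul_right, inner_conj_symm]
    ring
  have horth : ∀ x i, ⟪w i, x - P x⟫_ℂ = 0 := by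
    intro x i
    rw [inner_sub_right, hPw, sub_self]
  have hsum : ∑ i, ‖B.adjoint (w i)‖ ^ 2 ≤ 4 * c / l := by
    have h1 := sum_adj_le hB (Real.sqrt_nonneg c) hX (by rw [Real.sq_sqrt hc]; exact hY) hw
    refine h1.trans ?_
    have h2 : (r : ℝ) ≤ 4 * c / l ^ 2 := by
      rw [le_div_iff₀ (by positivity)]
      nlinarith
    have h3 : (r : ℝ) * (l / 2) ≤ 2 * c / l := by
      calc (r : ℝ) * (l / 2) ≤ 4 * c / l ^ 2 * (l / 2) := by gcongr
        _ = 2 * c / l := by field_simp; ring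
    have h4 : Real.sqrt r * Real.sqrt c ≤ 2 * c / l := by
      rw [← Real.sqrt_mul (Nat.cast_nonneg r)]
      apply Real.sqrt_le_iff.2
      refine ⟨by positivity, ?_⟩
      calc (r : ℝ) * c ≤ 4 * c / l ^ 2 * c := by gcongr
        _ = (2 * c / l) ^ 2 := by field_simp; ring
    calc (r : ℝ) * (l / 2) + Real.sqrt r * Real.sqrt c ≤ 2 * c / l + 2 * c / l := by linarith
      _ = 4 * c / l := by ring
  refine ⟨B - P ∘L B, P ∘L B, by simp, ?_, ?_⟩
  · -- the adjoint of the first part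
    rw [← ContinuousLinearMap.adjoint.norm_map (B - P ∘L B)]
    apply ContinuousLinearMap.opNorm_le_bound _ (Real.sqrt_nonneg _)
    intro x
    have hadj : (B - P ∘L B).adjoint x = B.adjoint (x - P x) := by
      apply ext_inner_right ℂ
      intro y
      rw [ContinuousLinearMap.adjoint_inner_left, ContinuousLinearMap.adjoint_inner_left]
      simp only [_root_.sub_apply, ContinuousLinearMap.comp_apply]
      rw [inner_sub_right, inner_sub_left, hPsym]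
    have hxP : ‖x - P x‖ ≤ ‖x‖ := by
      have h1 : ⟪x - P x, P x⟫_ℂ = 0 := by
        have h0 : ∀ i, ⟪x - P x, w i⟫_ℂ = 0 := by
          intro i
          rw [← inner_conj_symm, horth]
          simp
        conv_lhs => rw [hPx x]
        rw [← hPx x]
        have h5 : ⟪x - P x, ∑ i, ⟪w i, x⟫_ℂ • w i⟫_ℂ = 0 := by
          rw [inner_sum]
          apply Finset.sum_eq_zero
          intro i _
          rw [inner_smul_right, h0, mul_zero]
        rwa [← hPx x] at h5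
      have h2 : ‖x‖ ^ 2 = ‖x - P x‖ ^ 2 + ‖P x‖ ^ 2 := by
        have h3 := norm_add_sq (𝕜 := ℂ) (x - P x) (P x)
        rw [h1] at h3
        simpa using h3
      apply le_of_sq_le_sq _ (norm_nonneg _)
      nlinarith [sq_nonneg ‖P x‖]
    rw [hadj]
    apply le_of_sq_le_sq _ (by positivity)
    rw [mul_pow, Real.sq_sqrt hl.le]
    have h1 := adj_norm_sq_le hB hX (x - P x)
    have h2 := hout (x - P x) (horth x)
    have h3 : ‖x - P x‖ * ‖Y (x - P x)‖ ≤ ‖x - P x‖ * (l / 2 * ‖x - P x‖) :=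
      mul_le_mul_of_nonneg_left h2 (norm_nonneg _)
    have h4 : ‖x - P x‖ ^ 2 ≤ ‖x‖ ^ 2 := pow_le_pow_left₀ (norm_nonneg _) hxP 2
    nlinarith
  · intro n e he
    refine le_trans ?_ hsum
    have h1 : ∀ j, ‖(P ∘L B) (e j)‖ ^ 2 = ∑ i, ‖⟪B.adjoint (w i), e j⟫_ℂ‖ ^ 2 := by
      intro j
      rw [ContinuousLinearMap.comp_apply, hPn]
      apply Finset.sum_congr rfl
      intro i _
      rw [ContinuousLinearMap.adjoint_inner_left]
    simp_rw [h1]
    rw [Finset.sum_comm]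
    exact Finset.sum_le_sum (fun i _ => bessel he _)

end Pool.Agent.L5helper79.Ons
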