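import Pool.Agent.L5helper79.Ons.B

/-!
# Block operators on finite direct sums
-/

set_option autoImplicit false
set_option linter.unusedSectionVars false

open scoped InnerProductSpace
open Module

namespace Pool.Agent.L5helper79.Ons

variable {ι : Type*} [Fintype ι] [DecidableEq ι]
variable {H K G : Type*} [NormedAddCommGroup H] [InnerProductSpace ℂ H] [CompleteSpace H]
  [NormedAddCommGroup K] [InnerProductSpace ℂ K] [CompleteSpace K]
  [NormedAddCommGroup G] [InnerProductSpace ℂ G] [CompleteSpace G]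

/-- the finite direct sum -/
abbrev DS (ι : Type*) (H : Type*) : Type _ := PiLp 2 (fun _ : ι => H)

/-- column operator -/
noncomputable def col (b : ι → (G →L[ℂ] H)) : G →L[ℂ] DS ι H :=
  ((PiLp.continuousLinearEquiv 2 ℂ (fun _ : ι => H)).symm : (ι → H) →L[ℂ] DS ι H) ∘L
    ContinuousLinearMap.pi b

@[simp] lemma col_apply (b : ι → (G →L[ℂ] H)) (g : G) (i : ι) : (col b g) i = b i g := by
  simp [col]

lemma nsq_DS (g : DS ι H) : ‖g‖ ^ 2 = ∑ i, ‖g i‖ ^ 2 := PiLp.norm_sq_eq_of_L2 _ g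

lemma inner_DS (g h : DS ι H) : ⟪g, h⟫_ℂ = ∑ i, ⟪g i, h i⟫_ℂ := PiLp.inner_apply g h

lemma col_adjoint (b : ι → (G →L[ℂ] H)) (g : DS ι H) :
    (col b).adjoint g = ∑ i, (b i).adjoint (g i) := by
  apply ext_inner_right ℂ
  intro y
  rw [ContinuousLinearMap.adjoint_inner_left, inner_DS, sum_inner]
  apply Finset.sum_congr rfl
  intro i _
  rw [col_apply, ContinuousLinearMap.adjoint_inner_left]

/-- matrix operator -/
noncomputable def Mop (T : ι → ι → (H →L[ℂ] H)) : DS ι H →L[ℂ] DS ι H :=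
  col (fun i => (col (fun j => (T i j).adjoint)).adjoint)

lemma Mop_apply (T : ι → ι → (H →L[ℂ] H)) (g : DS ι H) (i : ι) :
    (Mop T g) i = ∑ j, T i j (g j) := by
  unfold Mop
  rw [col_apply, col_adjoint]
  simp

lemma Mop_add (T T' : ι → ι → (H →L[ℂ] H)) :
    Mop (fun i j => T i j + T' i j) = Mop T + Mop T' := by
  ext g i
  simp only [Mop_apply, _root_.add_apply, PiLp.add_apply, Finset.sum_add_distrib]

lemma Mop_sum {α : Type*} (s : Finset α) (T : α → ι → ι → (H →L[ℂ] H)) :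
    Mop (fun i j => ∑ a ∈ s, T a i j) = ∑ a ∈ s, Mop (T a) := by
  classical
  ext g i
  induction s using Finset.induction_on with
  | empty => simp [Mop_apply]
  | insert a s ha ih =>
    rw [Finset.sum_insert ha]
    simp only [_root_.add_apply, PiLp.add_apply]
    rw [← ih]
    simp only [Mop_apply, ← Finset.sum_add_distrib]
    apply Finset.sum_congr rfl
    intro j _
    rw [Finset.sum_insert ha]
    rfl

lemma Mop_adjoint (T : ι → ι → (H →L[ℂ] H)) :
    (Mop T).adjoint = Mop (fun i j => (T j i).adjoint) := by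
  refine ContinuousLinearMap.ext (fun g => ?_)
  apply ext_inner_right ℂ
  intro h
  rw [ContinuousLinearMap.adjoint_inner_left, inner_DS, inner_DS]
  simp only [Mop_apply, sum_inner, inner_sum]
  rw [Finset.sum_comm]
  apply Finset.sum_congr rfl
  intro i _
  apply Finset.sum_congr rfl
  intro j _
  rw [ContinuousLinearMap.adjoint_inner_left]

lemma col_comp_adjoint (b b' : ι → (G →L[ℂ] H)) :
    col b ∘L (col b').adjoint = Mop (fun i j => b i ∘L (b' j).adjoint) := by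
  ext g i
  rw [ContinuousLinearMap.comp_apply, col_apply, col_adjoint, Mop_apply, map_sum]
  rfl

/-- Schur test -/
lemma Mop_schur (T : ι → ι → (H →L[ℂ] H)) {a : ℝ} (ha : 0 ≤ a)
    (h1 : ∀ i, ∑ j, ‖T i j‖ ≤ a) (h2 : ∀ j, ∑ i, ‖T i j‖ ≤ a) : ‖Mop T‖ ≤ a := by
  apply ContinuousLinearMap.opNorm_le_bound _ ha
  intro g
  apply le_of_sq_le_sq _ (by positivity)
  rw [nsq_DS, mul_pow, nsq_DS]
  have h3 : ∀ i, ‖(Mop T g) i‖ ^ 2 ≤ a * ∑ j, ‖T i j‖ * ‖g j‖ ^ 2 := by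
    intro i
    rw [Mop_apply]
    have h4 : ‖∑ j, T i j (g j)‖ ≤ ∑ j, Real.sqrt ‖T i j‖ * (Real.sqrt ‖T i j‖ * ‖g j‖) := by
      refine (norm_sum_le _ _).trans (Finset.sum_le_sum (fun j _ => ?_))
      rw [← mul_assoc, Real.mul_self_sqrt (norm_nonneg _)]
      exact (T i j).le_opNorm _
    have h5 := Finset.sum_mul_sq_le_sq_mul_sq Finset.univ (fun j => Real.sqrt ‖T i j‖)
      (fun j => Real.sqrt ‖T i j‖ * ‖g j‖)
    calc ‖∑ j, T i j (g j)‖ ^ 2
        ≤ (∑ j, Real.sqrt ‖T i j‖ * (Real.sqrt ‖T i j‖ * ‖g j‖)) ^ 2 :=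
          pow_le_pow_left₀ (norm_nonneg _) h4 2
      _ ≤ (∑ j, Real.sqrt ‖T i j‖ ^ 2) * ∑ j, (Real.sqrt ‖T i j‖ * ‖g j‖) ^ 2 := h5
      _ = (∑ j, ‖T i j‖) * ∑ j, ‖T i j‖ * ‖g j‖ ^ 2 := by
        congr 1
        · apply Finset.sum_congr rfl
          intro j _
          rw [Real.sq_sqrt (norm_nonneg _)]
        · apply Finset.sum_congr rfl
          intro j _
          rw [mul_pow, Real.sq_sqrt (norm_nonneg _)]
      _ ≤ a * ∑ j, ‖T i j‖ * ‖g j‖ ^ 2 := by
        apply mul_le_mul_of_nonneg_right (h1 i)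
        exact Finset.sum_nonneg (fun j _ => by positivity)
  calc ∑ i, ‖(Mop T g) i‖ ^ 2 ≤ ∑ i, a * ∑ j, ‖T i j‖ * ‖g j‖ ^ 2 :=
        Finset.sum_le_sum (fun i _ => h3 i)
    _ = a * ∑ j, (∑ i, ‖T i j‖) * ‖g j‖ ^ 2 := by
        rw [← Finset.mul_sum, Finset.sum_comm]
        congr 1
        apply Finset.sum_congr rfl
        intro j _
        rw [Finset.sum_mul]
    _ ≤ a * ∑ j, a * ‖g j‖ ^ 2 := by
        apply mul_le_mul_of_nonneg_left _ ha
        exact Finset.sum_le_sum (fun j _ => mul_le_mul_of_nonneg_right (h2 j) (by positivity))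
    _ = a ^ 2 * ∑ i, ‖g i‖ ^ 2 := by rw [← Finset.mul_sum]; ring

lemma HSb.col {b : ι → (G →L[ℂ] H)} {c : ι → ℝ} (h : ∀ i, HSb (b i) (c i)) :
    HSb (col b) (∑ i, c i) := by
  intro n e he
  calc ∑ k, ‖(Ons.col b) (e k)‖ ^ 2 = ∑ k, ∑ i, ‖b i (e k)‖ ^ 2 := by
        apply Finset.sum_congr rfl
        intro k _
        rw [nsq_DS]
        simp only [col_apply]
    _ = ∑ i, ∑ k, ‖b i (e k)‖ ^ 2 := Finset.sum_comm
    _ ≤ ∑ i, c i := Finset.sum_le_sum (fun i _ => h i n e he)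

lemma HSb.mop {T : ι → ι → (H →L[ℂ] H)} {c : ι → ι → ℝ} (h : ∀ i j, HSb (T i j) (c i j)) :
    HSb (Mop T) (∑ i, ∑ j, c i j) := by
  unfold Mop
  apply HSb.col
  intro i
  apply HSb.adjoint
  apply HSb.col
  intro j
  exact (h i j).adjoint

/-- restriction of a column to a set of indices -/
def rst (X : Finset ι) (b : ι → (G →L[ℂ] H)) (i : ι) : G →L[ℂ] H := if i ∈ X then b i else 0

/-- coordinate projection -/
noncomputable def PX (H : Type*) [NormedAddCommGroup H] [InnerProductSpace ℂ H] [CompleteSpace H]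
    (X : Finset ι) : DS ι H →L[ℂ] DS ι H :=
  Mop (fun i j => if i = j ∧ i ∈ X then ContinuousLinearMap.id ℂ H else 0)

lemma PX_apply (X : Finset ι) (g : DS ι H) (i : ι) : (PX H X g) i = if i ∈ X then g i else 0 := by
  unfold PX
  rw [Mop_apply]
  by_cases h : i ∈ X
  · rw [if_pos h, Finset.sum_eq_single_of_mem i (Finset.mem_univ _)]
    · simp [h]
    · intro j _ hji
      rw [if_neg (fun hh => hji hh.1.symm)]
      rfl
  · rw [if_neg h, Finset.sum_eq_zero]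
    intro j _
    rw [if_neg (fun hh => h hh.2)]
    rfl

lemma PX_nsq (X : Finset ι) (g : DS ι H) : ‖PX H X g‖ ^ 2 = ∑ i ∈ X, ‖g i‖ ^ 2 := by
  rw [nsq_DS]
  simp only [PX_apply]
  rw [← Finset.sum_filter_add_sum_filter_not Finset.univ (fun i => i ∈ X)]
  have h1 : ∑ i ∈ Finset.univ.filter (fun i => ¬ i ∈ X), ‖if i ∈ X then g i else 0‖ ^ 2 = 0 := by
    apply Finset.sum_eq_zero
    intro i hi
    rw [if_neg (Finset.mem_filter.1 hi).2]
    simp
  rw [h1, add_zero]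
  have h2 : Finset.univ.filter (fun i => i ∈ X) = X := by ext; simp
  rw [h2]
  apply Finset.sum_congr rfl
  intro i hi
  rw [if_pos hi]

lemma PX_norm (X : Finset ι) : ‖PX H X‖ ≤ 1 := by
  apply ContinuousLinearMap.opNorm_le_bound _ zero_le_one
  intro g
  rw [one_mul]
  apply le_of_sq_le_sq _ (norm_nonneg _)
  rw [PX_nsq, nsq_DS]
  exact Finset.sum_le_sum_of_subset_of_nonneg (Finset.subset_univ _) (fun _ _ _ => by positivity)

lemma PX_col (X : Finset ι) (b : ι → (G →L[ℂ] H)) : PX H X ∘L col (rst X b) = col (rst X b) := by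
  ext g i
  rw [ContinuousLinearMap.comp_apply, PX_apply, col_apply]
  unfold rst
  by_cases h : i ∈ X
  · simp [h]
  · simp [h]

lemma col_adj_PX (X : Finset ι) (b : ι → (G →L[ℂ] H)) :
    (col (rst X b)).adjoint = (col (rst X b)).adjoint ∘L PX H X := by
  ext g
  rw [ContinuousLinearMap.comp_apply, col_adjoint, col_adjoint]
  apply Finset.sum_congr rfl
  intro i _
  rw [PX_apply]
  unfold rst
  by_cases h : i ∈ X
  · simp [h]
  · simp [h]

lemma PX_orth {X X' : Finset ι} (h : Disjoint X X') (g g' : DS ι H) :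
    ⟪PX H X g, PX H X' g'⟫_ℂ = 0 := by
  rw [inner_DS]
  apply Finset.sum_eq_zero
  intro i _
  rw [PX_apply, PX_apply]
  by_cases h1 : i ∈ X
  · have h2 : i ∉ X' := Finset.disjoint_left.1 h h1
    simp [h2]
  · simp [h1]

/-- norm of a column -/
lemma col_norm_le (b : ι → (G →L[ℂ] H)) {m : ℝ} (hm : ∑ i, ‖b i‖ ^ 2 ≤ m) :
    ‖col b‖ ≤ Real.sqrt m := by
  apply ContinuousLinearMap.opNorm_le_bound _ (Real.sqrt_nonneg _)
  intro g
  apply le_of_sq_le_sq _ (by positivity)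
  have hm0 : 0 ≤ m := (Finset.sum_nonneg (fun i _ => by positivity)).trans hm
  rw [nsq_DS, mul_pow, Real.sq_sqrt hm0]
  calc ∑ i, ‖(col b g) i‖ ^ 2 ≤ ∑ i, ‖b i‖ ^ 2 * ‖g‖ ^ 2 := by
        apply Finset.sum_le_sum
        intro i _
        rw [col_apply, ← mul_pow]
        exact pow_le_pow_left₀ (norm_nonneg _) ((b i).le_opNorm _) 2
    _ = (∑ i, ‖b i‖ ^ 2) * ‖g‖ ^ 2 := by rw [Finset.sum_mul]
    _ ≤ m * ‖g‖ ^ 2 := mul_le_mul_of_nonneg_right hm (by positivity)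

/-- **direct sums** of blocks `B_X B_Y*` -/
theorem direct_sum {α : Type*} (s : Finset α) (b : ι → (G →L[ℂ] H)) (X Y : α → Finset ι)
    (hX : ∀ a ∈ s, ∀ a' ∈ s, a ≠ a' → Disjoint (X a) (X a'))
    (hY : ∀ a ∈ s, ∀ a' ∈ s, a ≠ a' → Disjoint (Y a) (Y a'))
    {μ m : ℝ} (hμ : 0 < μ) (hm : 0 ≤ m) (c : α → ℝ)
    (hdec : ∀ a ∈ s, ∃ X0 Y0 : DS ι H →L[ℂ] DS ι H,
      col (rst (X a) b) ∘L (col (rst (X a) b)).adjoint = X0 + Y0 ∧ ‖X0‖ ≤ μ / 2 ∧ HSb Y0 (c a))
    (hlen : ∀ a ∈ s, ‖col (rst (Y a) b)‖ ≤ Real.sqrt m) :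
    ∃ T1 T2 : DS ι H →L[ℂ] DS ι H,
      ∑ a ∈ s, col (rst (X a) b) ∘L (col (rst (Y a) b)).adjoint = T1 + T2 ∧
      ‖T1‖ ≤ Real.sqrt (μ * m) ∧ HSb T2 (m * (4 / μ) * ∑ a ∈ s, c a) := by
  have h1 : ∀ a ∈ s, ∃ B1 B2 : G →L[ℂ] DS ι H, col (rst (X a) b) = B1 + B2 ∧
      ‖B1‖ ≤ Real.sqrt μ ∧ HSb B2 (4 * c a / μ) := by
    intro a ha
    obtain ⟨X0, Y0, e, h2, h3⟩ := hdec a ha
    exact decomp e hμ h2 h3
  choose! B1 B2 hB using h1
  refine ⟨∑ a ∈ s, (PX H (X a) ∘L B1 a) ∘L (col (rst (Y a) b)).adjoint,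
    ∑ a ∈ s, (PX H (X a) ∘L B2 a) ∘L (col (rst (Y a) b)).adjoint, ?_, ?_, ?_⟩
  · rw [← Finset.sum_add_distrib]
    apply Finset.sum_congr rfl
    intro a ha
    rw [← ContinuousLinearMap.add_comp, ← ContinuousLinearMap.comp_add, ← (hB a ha).1, PX_col]
  · apply norm_orth_sum_le s _ (fun a => PX H (Y a)) (Real.sqrt_nonneg _)
    · intro a ha
      rw [Real.sqrt_mul hμ.le]
      have k1 : ‖(col (rst (Y a) b)).adjoint‖ ≤ Real.sqrt m := by
        rw [ContinuousLinearMap.adjoint.norm_map]; exact hlen a ha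
      have k2 : ‖PX H (X a) ∘L B1 a‖ ≤ Real.sqrt μ := by
        refine (ContinuousLinearMap.opNorm_comp_le _ _).trans ?_
        calc ‖PX H (X a)‖ * ‖B1 a‖ ≤ 1 * Real.sqrt μ :=
              mul_le_mul (PX_norm _) (hB a ha).2.1 (ContinuousLinearMap.opNorm_nonneg _) zero_le_one
          _ = Real.sqrt μ := one_mul _
      exact (ContinuousLinearMap.opNorm_comp_le _ _).trans
        (mul_le_mul k2 k1 (ContinuousLinearMap.opNorm_nonneg _) (Real.sqrt_nonneg _))
    · intro a ha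
      conv_lhs => rw [col_adj_PX]
      rfl
    · intro x
      simp only [PX_nsq]
      rw [nsq_DS, ← Finset.sum_biUnion]
      · exact Finset.sum_le_sum_of_subset_of_nonneg (Finset.subset_univ _)
          (fun _ _ _ => by positivity)
      · intro a ha a' ha' hne
        exact hY a ha a' ha' hne
    · intro a ha a' ha' hne x y
      exact PX_orth (hX a ha a' ha' hne) _ _
  · have h2 : m * (4 / μ) * ∑ a ∈ s, c a = ∑ a ∈ s, Real.sqrt m ^ 2 * (1 ^ 2 * (4 * c a / μ)) := by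
      rw [Real.sq_sqrt hm, Finset.mul_sum]
      apply Finset.sum_congr rfl
      intro a _
      ring
    rw [h2]
    apply HSb.orth_sum
    · intro a ha
      apply HSb.comp_right _ _ (Real.sqrt_nonneg _)
      · rw [ContinuousLinearMap.adjoint.norm_map]; exact hlen a ha
      · exact (hB a ha).2.2.comp_left _ zero_le_one (PX_norm _)
    · intro a ha a' ha' hne x y
      exact PX_orth (hX a ha a' ha' hne) _ _

end Pool.Agent.L5helper79.Ons
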