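import Pool.Agent.L5helper79.Ons.GridB

/-!
# Continuity in time of the truncated functional
-/

set_option autoImplicit false
set_option linter.unusedSectionVars false

open scoped InnerProductSpace ENNReal
open MeasureTheory

namespace Pool.Agent.L5helper79.Ons

lemma psi_real {x y R r : ℝ} (hx : 0 ≤ x) (hy : 0 ≤ y) (hR : 0 < R) (hr : 0 < r) :
    (x + y) * (min (x + y) R) ^ r ≤ x * (min x R) ^ r + (r + 2) * R ^ r * y := by
  have hm : (min (x + y) R) ^ r ≤ R ^ r :=
    Real.rpow_le_rpow (le_min (by positivity) hR.le) (min_le_right _ _) hr.le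
  have hRr : 0 < R ^ r := Real.rpow_pos_of_pos hR r
  rcases le_or_gt R x with h | h
  · rw [min_eq_right h, min_eq_right (by linarith)]
    nlinarith [mul_nonneg hy hRr.le, mul_nonneg (mul_nonneg hr.le hy) hRr.le]
  · rw [min_eq_left h.le]
    set m := min (x + y) R with hmdef
    rcases eq_or_lt_of_le hx with hx0 | hx0
    · rw [← hx0] at hmdef ⊢
      rw [zero_add, zero_mul, zero_add]
      have : y * m ^ r ≤ y * R ^ r := mul_le_mul_of_nonneg_left hm hy
      nlinarith [mul_nonneg hy hRr.le, mul_nonneg (mul_nonneg hr.le hy) hRr.le]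
    · have hxm : x ≤ m := le_min (by linarith) h.le
      have hmpos : 0 < m := hx0.trans_le hxm
      have hmx : m - x ≤ y := by
        have : m ≤ x + y := min_le_left _ _
        linarith
      -- Bernoulli
      have hB := one_add_mul_self_le_rpow_one_add (s := x / m - 1) (p := r + 1) (by
        have : 0 ≤ x / m := by positivity
        linarith) (by linarith)
      have h1 : m ^ (r + 1) * (1 + (r + 1) * (x / m - 1)) ≤ x ^ (r + 1) := by
        have h2 := mul_le_mul_of_nonneg_left hB (Real.rpow_nonneg hmpos.le (r + 1))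
        have h3 : m ^ (r + 1) * (1 + (x / m - 1)) ^ (r + 1) = x ^ (r + 1) := by
          rw [add_sub_cancel, Real.div_rpow hx hmpos.le]
          have : m ^ (r + 1) ≠ 0 := (Real.rpow_pos_of_pos hmpos _).ne'
          field_simp
        rwa [h3] at h2
      rw [Real.rpow_add_one hmpos.ne', Real.rpow_add_one hx0.ne'] at h1
      have h4 : m ^ r * m * (1 + (r + 1) * (x / m - 1)) =
          m ^ r * m - (r + 1) * m ^ r * (m - x) := by
        field_simp
        ring
      rw [h4] at h1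
      have hmr : 0 < m ^ r := Real.rpow_pos_of_pos hmpos r
      have h5 : (r + 1) * m ^ r * (m - x) ≤ (r + 1) * R ^ r * y := by
        apply mul_le_mul _ hmx (by linarith) (by positivity)
        exact mul_le_mul_of_nonneg_left hm (by positivity)
      have h6 : x * m ^ r ≤ m ^ r * m := by nlinarith
      have h7 : y * m ^ r ≤ y * R ^ r := mul_le_mul_of_nonneg_left hm hy
      nlinarith

lemma psi_add (a δ : ℝ≥0∞) {R r : ℝ} (hR : 0 < R) (hr : 0 < r) :
    (a + δ) * (min (a + δ) (ENNReal.ofReal R)) ^ r ≤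
      a * (min a (ENNReal.ofReal R)) ^ r + ENNReal.ofReal ((r + 2) * R ^ r) * δ := by
  have hRr : 0 < R ^ r := Real.rpow_pos_of_pos hR r
  by_cases ha : a = ∞
  · rw [ha, top_add]
    exact le_add_right le_rfl
  by_cases hδ : δ = ∞
  · rw [hδ, ENNReal.mul_top]
    · rw [add_top]
      simp
    · rw [ne_eq, ENNReal.ofReal_eq_zero, not_le]
      positivity
  obtain ⟨x, hx, rfl⟩ : ∃ x : ℝ, 0 ≤ x ∧ a = ENNReal.ofReal x :=
    ⟨a.toReal, ENNReal.toReal_nonneg, (ENNReal.ofReal_toReal ha).symm⟩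
  obtain ⟨y, hy, rfl⟩ : ∃ y : ℝ, 0 ≤ y ∧ δ = ENNReal.ofReal y :=
    ⟨δ.toReal, ENNReal.toReal_nonneg, (ENNReal.ofReal_toReal hδ).symm⟩
  rw [← ENNReal.ofReal_add hx hy, ← ENNReal.ofReal_min, ← ENNReal.ofReal_min,
    ENNReal.ofReal_rpow_of_nonneg (le_min (by positivity) hR.le) hr.le,
    ENNReal.ofReal_rpow_of_nonneg (le_min hx hR.le) hr.le,
    ← ENNReal.ofReal_mul (by positivity), ← ENNReal.ofReal_mul hx,
    ← ENNReal.ofReal_mul (by positivity), ← ENNReal.ofReal_add _ (by positivity)]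
  · apply ENNReal.ofReal_le_ofReal
    exact psi_real hx hy hR hr
  · have : 0 ≤ min x R := le_min hx hR.le
    positivity

variable {X : Type*} [MeasurableSpace X] {μ : Measure X}

lemma cs (u v : Lp ℂ 2 μ) : ∫⁻ x, ‖u x‖ₑ * ‖v x‖ₑ ∂μ ≤ ‖u‖ₑ * ‖v‖ₑ := by
  have h := ENNReal.lintegral_mul_le_Lp_mul_Lq μ Real.HolderConjugate.two_two
    (f := fun x => ‖u x‖ₑ) (g := fun x => ‖v x‖ₑ)
    (Lp.stronglyMeasurable u).measurable.enorm.aemeasurable
    (Lp.stronglyMeasurable v).measurable.enorm.aemeasurable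
  refine h.trans (le_of_eq ?_)
  rw [Lp.enorm_def, Lp.enorm_def, eLpNorm_eq_lintegral_rpow_enorm_toReal (by norm_num)
    (by norm_num), eLpNorm_eq_lintegral_rpow_enorm_toReal (by norm_num) (by norm_num)]
  norm_num

lemma sq_le_add (a b c : ℝ≥0∞) (h : a ≤ c + b) : a ^ 2 ≤ b ^ 2 + c * (a + b) := by
  calc a ^ 2 = a * a := sq a
    _ ≤ a * (c + b) := by gcongr
    _ = c * a + b * a := by ring
    _ ≤ c * a + b * (c + b) := by gcongr
    _ = b ^ 2 + c * (a + b) := by ring

/-- the modulus of continuity -/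
noncomputable def dlt {ι : Type*} (s : Finset ι) (h h' : ι → Lp ℂ 2 μ) : ℝ≥0∞ :=
  ∑ j ∈ s, ‖h j - h' j‖ₑ * (‖h j‖ₑ + ‖h' j‖ₑ)

lemma gR_le_add {d : ℕ} (hd : 2 ≤ d) {R : ℝ} (hR : 0 < R) {ι : Type*} (s : Finset ι)
    (h h' : ι → Lp ℂ 2 μ) :
    gR μ d R (dens s h) ≤ gR μ d R (dens s h') +
      ENNReal.ofReal ((2 / ((d : ℝ) - 1) + 2) * R ^ (2 / ((d : ℝ) - 1))) * dlt s h h' := by
  have hd' : (1 : ℝ) < d := by exact_mod_cast (by omega : 1 < d)
  set r : ℝ := 2 / ((d : ℝ) - 1) with hr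
  have hr0 : 0 < r := by
    apply div_pos (by norm_num)
    linarith
  let δ : X → ℝ≥0∞ := fun x => ∑ j ∈ s, ‖(h j - h' j : Lp ℂ 2 μ) x‖ₑ * (‖h j x‖ₑ + ‖h' j x‖ₑ)
  have hmm : ∀ u : Lp ℂ 2 μ, Measurable (fun x => ‖u x‖ₑ) := fun u =>
    (Lp.stronglyMeasurable u).measurable.enorm
  have hδm : Measurable δ := by
    apply Finset.measurable_fun_sum
    intro j _
    exact (hmm _).mul ((hmm _).add (hmm _))
  have hδint : ∫⁻ x, δ x ∂μ ≤ dlt s h h' := by
    simp only [δ, dlt]
    rw [lintegral_finsetSum]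
    · apply Finset.sum_le_sum
      intro j _
      simp only [mul_add]
      have hma : Measurable (fun x => ‖(h j - h' j : Lp ℂ 2 μ) x‖ₑ * ‖h j x‖ₑ) :=
        (hmm _).mul (hmm _)
      rw [lintegral_add_left hma]
      exact add_le_add (cs _ _) (cs _ _)
    · intro j _
      exact (hmm _).mul ((hmm _).add (hmm _))
  have hpt : ∀ᵐ x ∂μ, dens s h x ≤ dens s h' x + δ x := by
    have h1 : ∀ᵐ x ∂μ, ∀ j ∈ s, (h j - h' j : Lp ℂ 2 μ) x = h j x - h' j x := by
      rw [Finset.eventually_all]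
      intro j _
      filter_upwards [Lp.coeFn_sub (h j) (h' j)] with x hx
      rw [hx, Pi.sub_apply]
    filter_upwards [h1] with x hx
    simp only [dens, δ]
    rw [← Finset.sum_add_distrib]
    apply Finset.sum_le_sum
    intro j hj
    rw [hx j hj]
    apply sq_le_add
    calc ‖h j x‖ₑ = ‖(h j x - h' j x) + h' j x‖ₑ := by rw [sub_add_cancel]
      _ ≤ _ := enorm_add_le _ _
  have hK : ENNReal.ofReal ((r + 2) * R ^ r) ≠ ∞ := ENNReal.ofReal_ne_top
  calc gR μ d R (dens s h)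
      ≤ ∫⁻ x, (dens s h' x * (min (dens s h' x) (ENNReal.ofReal R)) ^ r +
        ENNReal.ofReal ((r + 2) * R ^ r) * δ x) ∂μ := by
        apply lintegral_mono_ae
        filter_upwards [hpt] with x hx
        refine le_trans ?_ (psi_add (dens s h' x) (δ x) hR hr0)
        gcongr
    _ = gR μ d R (dens s h') + ENNReal.ofReal ((r + 2) * R ^ r) * ∫⁻ x, δ x ∂μ := by
        rw [lintegral_add_right _ (hδm.const_mul _), lintegral_const_mul _ hδm]
        rfl
    _ ≤ _ := by gcongr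

variable {U : ℝ → (Lp ℂ 2 μ →L[ℂ] Lp ℂ 2 μ)} {d : ℕ}

lemma gR_cont (D : Disp μ U d) (hd : 2 ≤ d) {R : ℝ} (hR : 0 < R) {ι : Type*} (s : Finset ι)
    (f : ι → Lp ℂ 2 μ) : Continuous (fun t => gR μ d R (dens s (fun j => U t (f j)))) := by
  rw [continuous_iff_continuousAt]
  intro t0
  set K := ENNReal.ofReal ((2 / ((d : ℝ) - 1) + 2) * R ^ (2 / ((d : ℝ) - 1))) with hK
  have hKtop : K ≠ ∞ := ENNReal.ofReal_ne_top
  have hlim : ∀ (F : ℝ → ℝ≥0∞), (F = fun t => dlt s (fun j => U t (f j)) (fun j => U t0 (f j))) →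
      Filter.Tendsto F (nhds t0) (nhds 0) := by
    intro F hF
    rw [hF]
    unfold dlt
    have h0 : (0 : ℝ≥0∞) = ∑ j ∈ s, ‖U t0 (f j) - U t0 (f j)‖ₑ *
        (‖U t0 (f j)‖ₑ + ‖U t0 (f j)‖ₑ) := by simp
    rw [h0]
    apply tendsto_finsetSum
    intro j _
    have hc := D.hc (f j)
    have h1 : Filter.Tendsto (fun t => ‖U t (f j) - U t0 (f j)‖ₑ) (nhds t0)
        (nhds ‖U t0 (f j) - U t0 (f j)‖ₑ) :=
      ((hc.sub continuous_const).enorm).tendsto t0
    have h2 : Filter.Tendsto (fun t => ‖U t (f j)‖ₑ + ‖U t0 (f j)‖ₑ) (nhds t0)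
        (nhds (‖U t0 (f j)‖ₑ + ‖U t0 (f j)‖ₑ)) :=
      ((hc.enorm).tendsto t0).add tendsto_const_nhds
    apply ENNReal.Tendsto.mul h1 _ h2 _
    · right
      simp
    · right
      simp
  have hl := hlim _ rfl
  have hKl : Filter.Tendsto (fun t => K * dlt s (fun j => U t (f j)) (fun j => U t0 (f j)))
      (nhds t0) (nhds 0) := by
    have := ENNReal.Tendsto.const_mul hl (Or.inr hKtop)
    rwa [mul_zero] at this
  have hup : Filter.Tendsto (fun t => gR μ d R (dens s (fun j => U t0 (f j))) +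
      K * dlt s (fun j => U t (f j)) (fun j => U t0 (f j)))
      (nhds t0) (nhds (gR μ d R (dens s (fun j => U t0 (f j))))) := by
    have := hKl.const_add (gR μ d R (dens s (fun j => U t0 (f j))))
    rwa [add_zero] at this
  have hlow : Filter.Tendsto (fun t => gR μ d R (dens s (fun j => U t0 (f j))) -
      K * dlt s (fun j => U t (f j)) (fun j => U t0 (f j)))
      (nhds t0) (nhds (gR μ d R (dens s (fun j => U t0 (f j))))) := by
    have := ENNReal.Tendsto.sub (tendsto_const_nhds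
      (x := gR μ d R (dens s (fun j => U t0 (f j))))) hKl (Or.inr (by simp))
    rwa [tsub_zero] at this
  apply tendsto_of_tendsto_of_tendsto_of_le_of_le hlow hup
  · intro t
    simp only
    rw [tsub_le_iff_right]
    have h1 := gR_le_add hd hR s (fun j => U t0 (f j)) (fun j => U t (f j)) (μ := μ)
    refine h1.trans (le_of_eq ?_)
    congr 2
    unfold dlt
    apply Finset.sum_congr rfl
    intro j _
    rw [add_comm ‖U t0 (f j)‖ₑ, ← enorm_neg, neg_sub]
  · intro t
    exact gR_le_add hd hR s (fun j => U t (f j)) (fun j => U t0 (f j)) (μ := μ)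

end Pool.Agent.L5helper79.Ons
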