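import Pool.Agent.L5helper79.Ons.Cont
import Pool.Agent.L5helper79.Ons.Avg

/-!
# The restricted estimate
-/

set_option autoImplicit false
set_option linter.unusedSectionVars false

open scoped InnerProductSpace ENNReal
open MeasureTheory Filter

namespace Pool.Agent.L5helper79.Ons

variable {X : Type*} [MeasurableSpace X] {μ : Measure X}
variable {U : ℝ → (Lp ℂ 2 μ →L[ℂ] Lp ℂ 2 μ)} {d : ℕ}

/-- the functional `∫ ρ^q`, `q = (d+1)/(d-1)` -/
noncomputable def gI (μ : Measure X) (d : ℕ) (ρ : X → ℝ≥0∞) : ℝ≥0∞ :=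
  ∫⁻ x, (ρ x) ^ (((d : ℝ) + 1) / ((d : ℝ) - 1)) ∂μ

lemma trunc_mono {r : ℝ} (hr : 0 ≤ r) (a : ℝ≥0∞) {R R' : ℝ} (h : R ≤ R') :
    a * (min a (ENNReal.ofReal R)) ^ r ≤ a * (min a (ENNReal.ofReal R')) ^ r := by
  gcongr

lemma exp_id (hd : 2 ≤ d) : ((d : ℝ) + 1) / ((d : ℝ) - 1) = 1 + 2 / ((d : ℝ) - 1) := by
  have hd' : (1 : ℝ) < d := by exact_mod_cast (by omega : 1 < d)
  have : (d : ℝ) - 1 ≠ 0 := by linarith
  field_simp
  ring

lemma r_pos (hd : 2 ≤ d) : 0 < 2 / ((d : ℝ) - 1) := by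
  have hd' : (1 : ℝ) < d := by exact_mod_cast (by omega : 1 < d)
  apply div_pos (by norm_num)
  linarith

lemma gR_tendsto (hd : 2 ≤ d) (ρ : X → ℝ≥0∞) (hρ : Measurable ρ) :
    Tendsto (fun n : ℕ => gR μ d ((n : ℝ) + 1) ρ) atTop (nhds (gI μ d ρ)) := by
  have hr := r_pos hd
  unfold gR gI
  apply lintegral_tendsto_of_tendsto_of_monotone
  · intro n
    exact (hρ.mul ((hρ.min measurable_const).pow_const _)).aemeasurable
  · filter_upwards with x
    intro n m hnm
    apply trunc_mono hr.le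
    have : (n : ℝ) ≤ m := by exact_mod_cast hnm
    linarith
  · filter_upwards with x
    rw [exp_id hd, ENNReal.rpow_add_of_nonneg _ _ zero_le_one hr.le, ENNReal.rpow_one]
    by_cases hx : ρ x = ∞
    · apply tendsto_const_nhds.congr
      intro n
      rw [hx]
      rw [ENNReal.top_mul, ENNReal.top_mul]
      · intro h
        rw [ENNReal.rpow_eq_zero_iff] at h
        rcases h with h | h
        · rw [min_eq_right le_top, ENNReal.ofReal_eq_zero] at h
          have : (0:ℝ) ≤ n := Nat.cast_nonneg n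
          linarith [h.1]
        · linarith [h.2]
      · rw [ENNReal.top_rpow_of_pos hr]
        simp
    · apply tendsto_const_nhds.congr'
      filter_upwards [eventually_ge_atTop ⌈(ρ x).toReal⌉₊] with n hn
      congr 2
      symm
      apply min_eq_left
      rw [← ENNReal.ofReal_toReal hx]
      apply ENNReal.ofReal_le_ofReal
      have h1 : (ρ x).toReal ≤ ⌈(ρ x).toReal⌉₊ := Nat.le_ceil _
      have h2 : ((⌈(ρ x).toReal⌉₊ : ℕ) : ℝ) ≤ n := by exact_mod_cast hn
      linarith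

lemma gR_le_gI (hd : 2 ≤ d) (ρ : X → ℝ≥0∞) (R : ℝ) : gR μ d R ρ ≤ gI μ d ρ := by
  have hr := r_pos hd
  apply lintegral_mono
  intro x
  simp only
  rw [exp_id hd, ENNReal.rpow_add_of_nonneg _ _ zero_le_one hr.le, ENNReal.rpow_one]
  gcongr
  exact min_le_left _ _

lemma GR_tendsto (hd : 2 ≤ d) (ρ : X → ℝ≥0∞) (hρ : Measurable ρ) :
    Tendsto (fun n : ℕ => GR μ d ((n : ℝ) + 1) ρ) atTop
      (nhds ((gI μ d ρ) ^ (((d : ℝ) - 1) / d))) := by
  have hd' : (1 : ℝ) < d := by exact_mod_cast (by omega : 1 < d)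
  have hα : 0 < ((d : ℝ) - 1) / d := by
    apply div_pos <;> linarith
  by_cases h0 : gI μ d ρ = 0
  · rw [h0, ENNReal.zero_rpow_of_pos hα]
    apply tendsto_const_nhds.congr
    intro n
    unfold GR
    rw [if_neg]
    intro h
    have h1 := h.trans (gR_le_gI hd ρ _)
    rw [h0, nonpos_iff_eq_zero, ENNReal.ofReal_eq_zero] at h1
    have : 0 < 1 / ((n : ℝ) + 1) := by positivity
    linarith
  · have h1 := gR_tendsto (μ := μ) hd ρ hρ
    have h2 : Tendsto (fun n : ℕ => (gR μ d ((n : ℝ) + 1) ρ) ^ (((d : ℝ) - 1) / d)) atTop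
        (nhds ((gI μ d ρ) ^ (((d : ℝ) - 1) / d))) :=
      (ENNReal.continuous_rpow_const.tendsto _).comp h1
    apply h2.congr'
    have h3 : Tendsto (fun n : ℕ => ENNReal.ofReal (1 / ((n : ℝ) + 1))) atTop (nhds 0) := by
      rw [← ENNReal.ofReal_zero]
      apply ENNReal.tendsto_ofReal
      exact tendsto_one_div_add_atTop_nhds_zero_nat
    obtain ⟨c, hc0, hc1⟩ := exists_between (pos_iff_ne_zero.2 h0)
    filter_upwards [h1.eventually (lt_mem_nhds hc1), h3.eventually (gt_mem_nhds hc0)] with n k1 k2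
    unfold GR
    rw [if_pos (k2.le.trans k1.le)]

lemma GR_ne_top (D : Disp μ U d) (hd : 2 ≤ d) {N : ℕ} {f : Fin N → Lp ℂ 2 μ}
    (hf : Orthonormal ℂ f) (R t : ℝ) :
    GR μ d R (dens Finset.univ (fun j => U t (f j))) ≠ ∞ := by
  have hd' : (1 : ℝ) < d := by exact_mod_cast (by omega : 1 < d)
  have hα : 0 < ((d : ℝ) - 1) / d := by
    apply div_pos <;> linarith
  unfold GR
  split_ifs
  · apply ENNReal.rpow_ne_top_of_nonneg hα.le
    apply ne_top_of_le_ne_top _ (gR_le hd _)
    apply ENNReal.mul_ne_top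
    · apply ENNReal.rpow_ne_top_of_nonneg (r_pos hd).le ENNReal.ofReal_ne_top
    · exact ne_top_of_le_ne_top ENNReal.ofReal_ne_top (dens_int_le D hf t)
  · simp

lemma GR_meas (D : Disp μ U d) (hd : 2 ≤ d) {ι : Type*} (s : Finset ι) (f : ι → Lp ℂ 2 μ)
    {R : ℝ} (hR : 0 < R) : Measurable (fun t => GR μ d R (dens s (fun j => U t (f j)))) := by
  have h1 := (gR_cont D hd hR s f).measurable
  unfold GR
  exact Measurable.ite (measurableSet_le measurable_const h1) (h1.pow_const _) measurable_const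

lemma gI_meas (D : Disp μ U d) (hd : 2 ≤ d) {ι : Type*} (s : Finset ι) (f : ι → Lp ℂ 2 μ) :
    Measurable (fun t => gI μ d (dens s (fun j => U t (f j)))) := by
  apply measurable_of_tendsto_metrizable
    (f := fun (n : ℕ) t => gR μ d ((n : ℝ) + 1) (dens s (fun j => U t (f j))))
  · intro n
    exact (gR_cont D hd (by positivity) s f).measurable
  · rw [tendsto_pi_nhds]
    intro t
    exact gR_tendsto hd _ (dens_meas _ _)

/-- **the restricted estimate** -/
theorem core_fin (D : Disp μ U d) (hd : 2 ≤ d) {N : ℕ} {f : Fin N → Lp ℂ 2 μ}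
    (hf : Orthonormal ℂ f) :
    ∫⁻ t, (gI μ d (dens Finset.univ (fun j => U t (f j)))) ^ (((d : ℝ) - 1) / d)
      ≤ ENNReal.ofReal (N * cg d) := by
  have hbd : ∀ n : ℕ, ∫⁻ t, GR μ d ((n : ℝ) + 1) (dens Finset.univ (fun j => U t (f j)))
      ≤ ENNReal.ofReal (N * cg d) := by
    intro n
    have hR : (0 : ℝ) < n + 1 := by positivity
    have hcg : 0 ≤ cg d := by unfold cg; positivity
    have hV := Vmax_pos hR d
    apply avg _ (GR_meas D hd Finset.univ f hR)
      (b := ENNReal.ofReal (N * (2 * (256 * 72) * Vmax d ((n : ℝ) + 1)))) ENNReal.ofReal_ne_top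
    intro η hη θ M
    have h1 := grid_bound D hd hf hR (θ := θ) hη M
    have h2 : ∑ i : Fin M, ENNReal.ofReal η * GR μ d ((n : ℝ) + 1) (dens Finset.univ
        (fun j => U (θ + ((i : ℕ) : ℝ) * η) (f j))) = ENNReal.ofReal (∑ i : Fin M, η *
        (GR μ d ((n : ℝ) + 1) (dens Finset.univ
        (fun j => U (θ + ((i : ℕ) : ℝ) * η) (f j)))).toReal) := by
      rw [ENNReal.ofReal_sum_of_nonneg]
      · apply Finset.sum_congr rfl
        intro i _
        rw [ENNReal.ofReal_mul hη.le, ENNReal.ofReal_toReal (GR_ne_top D hd hf _ _)]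
      · intro i _
        positivity
    rw [h2, ← ENNReal.ofReal_mul (by positivity), ← ENNReal.ofReal_add (by positivity)
      (by positivity)]
    apply ENNReal.ofReal_le_ofReal
    refine h1.trans (le_of_eq ?_)
    ring
  calc ∫⁻ t, (gI μ d (dens Finset.univ (fun j => U t (f j)))) ^ (((d : ℝ) - 1) / d)
      = ∫⁻ t, liminf (fun n : ℕ => GR μ d ((n : ℝ) + 1)
          (dens Finset.univ (fun j => U t (f j)))) atTop := by
        apply lintegral_congr
        intro t
        exact (GR_tendsto hd _ (dens_meas _ _)).liminf_eq.symm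
    _ ≤ liminf (fun n : ℕ => ∫⁻ t, GR μ d ((n : ℝ) + 1)
          (dens Finset.univ (fun j => U t (f j)))) atTop :=
        lintegral_liminf_le (fun n => GR_meas D hd Finset.univ f (by positivity))
    _ ≤ ENNReal.ofReal (N * cg d) := by
        apply liminf_le_of_le
        · isBoundedDefault
        · intro b hb
          obtain ⟨n, hn⟩ := (hb : ∀ᶠ n in atTop, b ≤ _).exists
          exact hn.trans (hbd n)

theorem core (D : Disp μ U d) (hd : 2 ≤ d) {ι : Type*} {f : ι → Lp ℂ 2 μ}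
    (hf : Orthonormal ℂ f) (s : Finset ι) :
    ∫⁻ t, (gI μ d (dens s (fun j => U t (f j)))) ^ (((d : ℝ) - 1) / d)
      ≤ ENNReal.ofReal (s.card * cg d) := by
  let e := s.equivFin
  have hg : Orthonormal ℂ (fun i : Fin s.card => f (e.symm i)) :=
    hf.comp (fun i : Fin s.card => ((e.symm i : s) : ι))
      (Subtype.val_injective.comp e.symm.injective)
  have h1 := core_fin D hd hg
  refine le_trans (le_of_eq ?_) h1
  apply lintegral_congr
  intro t
  congr 2
  funext x
  unfold dens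
  rw [← Finset.sum_coe_sort s (fun j => ‖(U t (f j)) x‖ₑ ^ 2)]
  exact (Equiv.sum_comp e.symm (fun j : s => ‖(U t (f j)) x‖ₑ ^ 2)).symm

end Pool.Agent.L5helper79.Ons
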