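import Pool.Agent.L5helper79.Ons.A

/-!
# Multiplication operators on `L²`
-/

set_option autoImplicit false
set_option linter.unusedSectionVars false

open scoped InnerProductSpace ENNReal
open MeasureTheory

namespace Pool.Agent.L5helper79.Ons

variable {X : Type*} [MeasurableSpace X] {μ : Measure X}

lemma ofReal_nsq (f : Lp ℂ 2 μ) : ENNReal.ofReal (‖f‖ ^ 2) = ∫⁻ x, ‖f x‖ₑ ^ 2 ∂μ := by
  rw [ENNReal.ofReal_pow (norm_nonneg _), ofReal_norm, Lp.enorm_def,
    eLpNorm_eq_lintegral_rpow_enorm_toReal (by norm_num) (by norm_num)]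
  rw [← ENNReal.rpow_natCast, ← ENNReal.rpow_mul]
  norm_num

lemma mem_mul (m : X → ℂ) (hm : Measurable m) (hb : ∀ x, ‖m x‖ ≤ 1) (f : Lp ℂ 2 μ) :
    MemLp (fun x => m x * f x) 2 μ := by
  apply (Lp.memLp f).mono (hm.aestronglyMeasurable.mul (Lp.aestronglyMeasurable f))
  filter_upwards with x
  rw [Pi.mul_apply, norm_mul]
  calc ‖m x‖ * ‖f x‖ ≤ 1 * ‖f x‖ := mul_le_mul_of_nonneg_right (hb x) (norm_nonneg _)
    _ = ‖f x‖ := one_mul _

/-- multiplication by a bounded measurable function -/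
noncomputable def mulOp (μ : Measure X) (m : X → ℂ) (hm : Measurable m) (hb : ∀ x, ‖m x‖ ≤ 1) :
    Lp ℂ 2 μ →L[ℂ] Lp ℂ 2 μ :=
  LinearMap.mkContinuous
    { toFun := fun f => (mem_mul m hm hb f).toLp _
      map_add' := fun f g => by
        apply Lp.ext
        have h1 := (mem_mul m hm hb (f + g)).coeFn_toLp
        have h2 := (mem_mul m hm hb f).coeFn_toLp
        have h3 := (mem_mul m hm hb g).coeFn_toLp
        have h4 := Lp.coeFn_add f g
        have h5 := Lp.coeFn_add ((mem_mul m hm hb f).toLp _) ((mem_mul m hm hb g).toLp _)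
        filter_upwards [h1, h2, h3, h4, h5] with x e1 e2 e3 e4 e5
        rw [e1, e5, Pi.add_apply, e2, e3, e4, Pi.add_apply, mul_add]
      map_smul' := fun c f => by
        apply Lp.ext
        have h1 := (mem_mul m hm hb (c • f)).coeFn_toLp
        have h2 := (mem_mul m hm hb f).coeFn_toLp
        have h4 := Lp.coeFn_smul c f
        have h5 := Lp.coeFn_smul c ((mem_mul m hm hb f).toLp _)
        filter_upwards [h1, h2, h4, h5] with x e1 e2 e4 e5
        rw [e1]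
        simp only [RingHom.id_apply]
        rw [e5, Pi.smul_apply, e2, e4, Pi.smul_apply, smul_eq_mul, smul_eq_mul]
        ring } 1 (fun f => by
        rw [one_mul]
        apply Lp.norm_le_norm_of_ae_le
        have h2 := (mem_mul m hm hb f).coeFn_toLp
        filter_upwards [h2] with x e2
        simp only [LinearMap.coe_mk, AddHom.coe_mk]
        rw [e2, norm_mul]
        calc ‖m x‖ * ‖f x‖ ≤ 1 * ‖f x‖ := mul_le_mul_of_nonneg_right (hb x) (norm_nonneg _)
          _ = ‖f x‖ := one_mul _)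

lemma mulOp_coe (m : X → ℂ) (hm : Measurable m) (hb : ∀ x, ‖m x‖ ≤ 1) (f : Lp ℂ 2 μ) :
    (mulOp μ m hm hb f : X → ℂ) =ᵐ[μ] fun x => m x * f x :=
  (mem_mul m hm hb f).coeFn_toLp

lemma mulOp_norm (m : X → ℂ) (hm : Measurable m) (hb : ∀ x, ‖m x‖ ≤ 1) :
    ‖mulOp μ m hm hb‖ ≤ 1 :=
  LinearMap.mkContinuous_norm_le _ zero_le_one _

lemma mulOp_comp (m m' m'' : X → ℂ) (hm : Measurable m) (hb : ∀ x, ‖m x‖ ≤ 1)
    (hm' : Measurable m') (hb' : ∀ x, ‖m' x‖ ≤ 1) (hm'' : Measurable m'')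
    (hb'' : ∀ x, ‖m'' x‖ ≤ 1) (h : ∀ x, m x * m' x = m'' x) :
    mulOp μ m hm hb ∘L mulOp μ m' hm' hb' = mulOp μ m'' hm'' hb'' := by
  ext1 f
  apply Lp.ext
  rw [ContinuousLinearMap.comp_apply]
  filter_upwards [mulOp_coe m hm hb (mulOp μ m' hm' hb' f), mulOp_coe m' hm' hb' f,
    mulOp_coe m'' hm'' hb'' f] with x e1 e2 e3
  rw [e1, e2, e3, ← h x, mul_assoc]

lemma mulOp_adjoint (m m' : X → ℂ) (hm : Measurable m) (hb : ∀ x, ‖m x‖ ≤ 1)
    (hm' : Measurable m') (hb' : ∀ x, ‖m' x‖ ≤ 1) (h : ∀ x, m' x = (starRingEnd ℂ) (m x)) :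
    (mulOp μ m hm hb).adjoint = mulOp μ m' hm' hb' := by
  symm
  rw [ContinuousLinearMap.eq_adjoint_iff]
  intro f g
  rw [L2.inner_def, L2.inner_def]
  apply integral_congr_ae
  filter_upwards [mulOp_coe m hm hb g, mulOp_coe m' hm' hb' f] with x e1 e2
  rw [e1, e2, h x]
  simp only [RCLike.inner_apply, map_mul, Complex.conj_conj]
  ring

lemma ind_meas {E : Set X} (hE : MeasurableSet E) :
    Measurable (E.indicator (fun _ => (1 : ℂ))) := measurable_const.indicator hE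

lemma ind_bd (E : Set X) (x : X) : ‖E.indicator (fun _ => (1 : ℂ)) x‖ ≤ 1 := by
  by_cases h : x ∈ E
  · simp [h]
  · simp [h]

/-- multiplication by the indicator of a set -/
noncomputable def ind (μ : Measure X) {E : Set X} (hE : MeasurableSet E) :
    Lp ℂ 2 μ →L[ℂ] Lp ℂ 2 μ :=
  mulOp μ (E.indicator (fun _ => (1 : ℂ))) (ind_meas hE) (ind_bd E)

lemma ind_coe {E : Set X} (hE : MeasurableSet E) (f : Lp ℂ 2 μ) :
    (ind μ hE f : X → ℂ) =ᵐ[μ] E.indicator f := by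
  filter_upwards [mulOp_coe _ (ind_meas hE) (ind_bd E) f] with x e1
  unfold ind
  rw [e1]
  by_cases h : x ∈ E
  · simp [h]
  · simp [h]

lemma ind_norm {E : Set X} (hE : MeasurableSet E) : ‖ind μ hE‖ ≤ 1 := mulOp_norm _ _ _

lemma ind_adjoint {E : Set X} (hE : MeasurableSet E) : (ind μ hE).adjoint = ind μ hE := by
  apply mulOp_adjoint
  intro x
  by_cases h : x ∈ E
  · simp [h]
  · simp [h]

lemma ind_nsq {E : Set X} (hE : MeasurableSet E) (f : Lp ℂ 2 μ) :
    ENNReal.ofReal (‖ind μ hE f‖ ^ 2) = ∫⁻ x in E, ‖f x‖ₑ ^ 2 ∂μ := by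
  rw [ofReal_nsq, ← lintegral_indicator hE]
  apply lintegral_congr_ae
  filter_upwards [ind_coe hE f] with x e1
  rw [e1]
  by_cases h : x ∈ E
  · simp [h]
  · simp [h]

end Pool.Agent.L5helper79.Ons
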