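import Pool.Agent.L5helper79.Ons.F2
import Pool.Agent.L5helper79.Ons.Op

/-!
# Dispersive groups and the estimate on a time grid
-/

set_option autoImplicit false
set_option linter.unusedSectionVars false

open scoped InnerProductSpace ENNReal
open MeasureTheory

namespace Pool.Agent.L5helper79.Ons

variable {X : Type*} [MeasurableSpace X] {μ : Measure X}

/-- a strongly continuous unitary group with a dispersive Hilbert–Schmidt bound -/
structure Disp (μ : Measure X) (U : ℝ → (Lp ℂ 2 μ →L[ℂ] Lp ℂ 2 μ)) (d : ℕ) : Prop where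
  hn : ∀ t, ‖U t‖ ≤ 1
  hadj : ∀ s t, U s ∘L (U t).adjoint = U (s - t)
  hc : ∀ f, Continuous (fun t => U t f)
  hhs : ∀ s ≠ 0, ∀ (E F : Set X) (hE : MeasurableSet E) (hF : MeasurableSet F),
    μ E ≠ ∞ → μ F ≠ ∞ →
    HSb (ind μ hE ∘L (U s ∘L ind μ hF)) ((|s| ^ d)⁻¹ * ((μ E).toReal * (μ F).toReal))

lemma HSb.smul {H K : Type*} [NormedAddCommGroup H] [InnerProductSpace ℂ H]
    [NormedAddCommGroup K] [InnerProductSpace ℂ K] {T : H →L[ℂ] K} {c : ℝ} (h : HSb T c) (a : ℂ) :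
    HSb (a • T) (‖a‖ ^ 2 * c) := by
  intro n e he
  have h1 : ∀ i, ‖(a • T) (e i)‖ ^ 2 = ‖a‖ ^ 2 * ‖T (e i)‖ ^ 2 := by
    intro i
    have : (a • T) (e i) = a • T (e i) := rfl
    rw [this, norm_smul, mul_pow]
  simp only [h1]
  rw [← Finset.mul_sum]
  exact mul_le_mul_of_nonneg_left (h n e he) (by positivity)

variable {U : ℝ → (Lp ℂ 2 μ →L[ℂ] Lp ℂ 2 μ)} {d : ℕ}

theorem Disp.grid (D : Disp μ U d) (hd : 2 ≤ d) {M L : ℕ} {η θ v l : ℝ} (hη : 0 < η) (hv : 0 < v)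
    (hl : 0 < l) (hlw : ∀ k : Fin L, η * (v * 256 ^ (k : ℕ)) ≤ l) (E : Fin M × Fin L → Set X)
    (hE : ∀ α, MeasurableSet (E α)) (hEf : ∀ α, μ (E α) ≠ ∞) {N : ℕ} {f : Fin N → Lp ℂ 2 μ}
    (hf : Orthonormal ℂ f) :
    ∑ α : Fin M × Fin L, η * (v * 256 ^ (α.2 : ℕ)) *
        ∑ j, ‖ind μ (hE α) (U (θ + ((α.1 : ℕ) : ℝ) * η) (f j))‖ ^ 2
      ≤ N * (72 * l) + Real.sqrt N * (44 * Real.sqrt ((l ^ (d - 1))⁻¹ *
        ∑ α : Fin M × Fin L, η * (v * 256 ^ (α.2 : ℕ)) ^ (d + 1) * (μ (E α)).toReal ^ 2)) := by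
  let w : ℕ → ℝ := fun k => v * 256 ^ k
  have hw : ∀ k, 0 < w k := fun k => by simp only [w]; positivity
  let b : Fin M × Fin L → (Lp ℂ 2 μ →L[ℂ] Lp ℂ 2 μ) := fun α =>
    ((Real.sqrt (η * w α.2) : ℝ) : ℂ) • (ind μ (hE α) ∘L U (θ + ((α.1 : ℕ) : ℝ) * η))
  have hbn : ∀ α, ‖ind μ (hE α) ∘L U (θ + ((α.1 : ℕ) : ℝ) * η)‖ ≤ 1 := by
    intro α
    refine (ContinuousLinearMap.opNorm_comp_le _ _).trans ?_
    exact mul_le_one₀ (ind_norm _) (norm_nonneg _) (D.hn _)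
  have S : Sys M L d η w (fun α => (μ (E α)).toReal) b := by
    refine ⟨hη, hd, hw, fun α => ENNReal.toReal_nonneg, ?_, ?_⟩
    · intro α
      simp only [b]
      rw [norm_smul, mul_pow, Complex.norm_real, Real.norm_eq_abs, sq_abs,
        Real.sq_sqrt (mul_nonneg hη.le (hw _).le)]
      have h0 := mul_nonneg hη.le (hw α.2).le
      have h1 := hbn α
      have h2 : ‖ind μ (hE α) ∘L U (θ + ((α.1 : ℕ) : ℝ) * η)‖ ^ 2 ≤ 1 :=
        pow_le_one₀ (norm_nonneg _) h1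
      nlinarith
    · intro α β hne
      have hs : θ + ((α.1 : ℕ) : ℝ) * η - (θ + ((β.1 : ℕ) : ℝ) * η) ≠ 0 := by
        have h1 : ((α.1 : ℕ) : ℝ) - ((β.1 : ℕ) : ℝ) ≠ 0 := by
          rw [sub_ne_zero]
          intro h
          apply hne
          apply Fin.ext
          exact_mod_cast h
        have h2 : θ + ((α.1 : ℕ) : ℝ) * η - (θ + ((β.1 : ℕ) : ℝ) * η) =
          (((α.1 : ℕ) : ℝ) - ((β.1 : ℕ) : ℝ)) * η := by ring
        rw [h2]
        exact mul_ne_zero h1 hη.ne'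
      have h1 := (D.hhs _ hs (E α) (E β) (hE α) (hE β) (hEf α) (hEf β)).smul
        (((Real.sqrt (η * w α.2) : ℝ) : ℂ) * ((Real.sqrt (η * w β.2) : ℝ) : ℂ))
      have h2 : b α ∘L (b β).adjoint =
          (((Real.sqrt (η * w α.2) : ℝ) : ℂ) * ((Real.sqrt (η * w β.2) : ℝ) : ℂ)) •
          (ind μ (hE α) ∘L (U (θ + ((α.1 : ℕ) : ℝ) * η - (θ + ((β.1 : ℕ) : ℝ) * η)) ∘L
            ind μ (hE β))) := by
        simp only [b]
        rw [map_smulₛₗ, ContinuousLinearMap.adjoint_comp, ind_adjoint, Complex.conj_ofReal,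
          ContinuousLinearMap.smul_comp, ContinuousLinearMap.comp_smul, smul_smul, ← D.hadj]
        rfl
      rw [h2]
      apply h1.mono
      apply le_of_eq
      rw [norm_mul, Complex.norm_real, Complex.norm_real, mul_pow, Real.norm_eq_abs,
        Real.norm_eq_abs, sq_abs, sq_abs, Real.sq_sqrt (mul_nonneg hη.le (hw _).le),
        Real.sq_sqrt (mul_nonneg hη.le (hw _).le)]
      have h3 : |θ + ((α.1 : ℕ) : ℝ) * η - (θ + ((β.1 : ℕ) : ℝ) * η)| = (nd α.1 β.1 : ℝ) * η := by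
        rw [nd_cast]
        have h2 : θ + ((α.1 : ℕ) : ℝ) * η - (θ + ((β.1 : ℕ) : ℝ) * η) =
          (((α.1 : ℕ) : ℝ) - ((β.1 : ℕ) : ℝ)) * η := by ring
        rw [h2, abs_mul, abs_of_pos hη]
      rw [h3]
      ring
  have hwa : ∀ k a : ℕ, w (k + a) = 256 ^ a * w k := by
    intro k a
    simp only [w]
    rw [pow_add]; ring
  have h1 := S.star hl hlw hwa hf
  refine le_trans (le_of_eq ?_) h1
  apply Finset.sum_congr rfl
  intro α _
  rw [Finset.mul_sum]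
  apply Finset.sum_congr rfl
  intro j _
  have : b α (f j) = ((Real.sqrt (η * w α.2) : ℝ) : ℂ) •
    (ind μ (hE α) (U (θ + ((α.1 : ℕ) : ℝ) * η) (f j))) := rfl
  rw [this, norm_smul, mul_pow, Complex.norm_real, Real.norm_eq_abs, sq_abs,
        Real.sq_sqrt (mul_nonneg hη.le (hw _).le)]

end Pool.Agent.L5helper79.Ons
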