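import Mathlib

/-!
# Sums over a time grid
-/

set_option autoImplicit false

namespace Pool.Agent.L5helper79.Ons

/-- distance of two indices -/
def nd {M : ℕ} (i j : Fin M) : ℕ := Int.natAbs ((i : ℤ) - (j : ℤ))

lemma nd_comm {M : ℕ} (i j : Fin M) : nd i j = nd j i := by
  unfold nd; omega

lemma nd_eq_zero {M : ℕ} {i j : Fin M} (h : nd i j = 0) : i = j := by
  unfold nd at h
  apply Fin.ext; omega

/-- one-sided reduction -/
lemma two_sided {M : ℕ} (i : Fin M) (f : ℕ → ℝ) (hf : ∀ m, 0 ≤ f m) :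
    ∑ j : Fin M, f (nd i j) ≤ 2 * ∑ m ∈ Finset.range M, f m := by
  classical
  rw [← Finset.sum_filter_add_sum_filter_not Finset.univ (fun j => j ≤ i), two_mul]
  have key : ∀ s : Finset (Fin M), (∀ j ∈ s, ∀ j' ∈ s, nd i j = nd i j' → j = j') →
      ∑ j ∈ s, f (nd i j) ≤ ∑ m ∈ Finset.range M, f m := by
    intro s hs
    have h1 : ∑ j ∈ s, f (nd i j) = ∑ m ∈ s.image (nd i), f m := by
      rw [Finset.sum_image]
      intro j hj j' hj' h
      exact hs j hj j' hj' h
    rw [h1]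
    apply Finset.sum_le_sum_of_subset_of_nonneg
    · intro m hm
      obtain ⟨j, _, rfl⟩ := Finset.mem_image.1 hm
      rw [Finset.mem_range]
      have h2 := i.2
      have h3 := j.2
      unfold nd
      omega
    · intro m _ _
      exact hf m
  apply add_le_add
  · apply key
    intro j hj j' hj' h
    rw [Finset.mem_filter] at hj hj'
    have h1 := hj.2
    have h2 := hj'.2
    rw [Fin.le_def] at h1 h2
    unfold nd at h
    apply Fin.ext; omega
  · apply key
    intro j hj j' hj' h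
    rw [Finset.mem_filter] at hj hj'
    have h1 := hj.2
    have h2 := hj'.2
    rw [Fin.le_def] at h1 h2
    unfold nd at h
    apply Fin.ext; omega

/-- number of grid points at distance `≤ τ` -/
lemma count_le {M : ℕ} (i : Fin M) {η τ : ℝ} (hη : 0 < η) (hτ : 0 ≤ τ) :
    ∑ j : Fin M, (if (nd i j : ℝ) * η ≤ τ then η else 0) ≤ 2 * (τ + η) := by
  have h := two_sided i (fun m => if (m : ℝ) * η ≤ τ then η else 0) (fun m => by
    split_ifs <;> positivity)
  refine h.trans ?_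
  have h1 : ∀ K : ℕ, ∑ m ∈ Finset.range K, (if (m : ℝ) * η ≤ τ then η else 0) ≤ τ + η := by
    intro K
    have h2 : ∑ m ∈ Finset.range K, (if (m : ℝ) * η ≤ τ then η else 0)
        ≤ ∑ m ∈ Finset.range (⌊τ / η⌋₊ + 1), η := by
      rw [← Finset.sum_filter]
      apply Finset.sum_le_sum_of_subset_of_nonneg
      · intro m hm
        rw [Finset.mem_filter] at hm
        rw [Finset.mem_range]
        apply Nat.lt_succ_of_le
        apply Nat.le_floor
        rw [le_div_iff₀ hη]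
        exact hm.2
      · intro m _ _
        exact hη.le
    refine h2.trans ?_
    rw [Finset.sum_const, Finset.card_range, nsmul_eq_mul]
    push_cast
    have h3 : (⌊τ / η⌋₊ : ℝ) ≤ τ / η := Nat.floor_le (by positivity)
    have h4 : (⌊τ / η⌋₊ : ℝ) * η ≤ τ := by
      calc (⌊τ / η⌋₊ : ℝ) * η ≤ τ / η * η := mul_le_mul_of_nonneg_right h3 hη.le
        _ = τ := by field_simp
    nlinarith
  have := h1 M
  linarith

lemma tail_two (m₀ : ℕ) (hm₀ : 1 ≤ m₀) (K : ℕ) :
    ∑ m ∈ Finset.range K, (if m₀ ≤ m then 1 / (m : ℝ) ^ 2 else 0)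
      ≤ 2 / (m₀ : ℝ) - 2 / ((max K m₀ : ℕ) : ℝ) := by
  induction K with
  | zero => simp
  | succ K ih =>
    rw [Finset.sum_range_succ]
    by_cases h : m₀ ≤ K
    · rw [if_pos h]
      rw [max_eq_left h] at ih
      rw [max_eq_left (by omega)]
      have hK : (1 : ℝ) ≤ K := by exact_mod_cast hm₀.trans h
      have h2 : 1 / (K : ℝ) ^ 2 ≤ 2 / (K : ℝ) - 2 / ((K + 1 : ℕ) : ℝ) := by
        push_cast
        rw [div_sub_div _ _ (by positivity) (by positivity), div_le_div_iff₀ (by positivity)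
          (by positivity)]
        nlinarith [mul_pos (show (0:ℝ) < K by linarith) (show (0:ℝ) < K by linarith)]
      linarith
    · rw [if_neg h]
      rw [max_eq_right (by omega)] at ih
      rw [max_eq_right (by omega)]
      linarith

/-- sums of `δ^{-d}` over grid points at distance `> τ` -/
lemma far_sum {M : ℕ} (i : Fin M) {η τ : ℝ} (hη : 0 < η) (hτ : 0 < τ) {d : ℕ} (hd : 2 ≤ d) :
    ∑ j : Fin M, (if τ < (nd i j : ℝ) * η then η * (((nd i j : ℝ) * η) ^ d)⁻¹ else 0)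
      ≤ 4 * (τ ^ (d - 1))⁻¹ := by
  have h := two_sided i (fun m => if τ < (m : ℝ) * η then η * (((m : ℝ) * η) ^ d)⁻¹ else 0)
    (fun m => by split_ifs <;> positivity)
  refine h.trans ?_
  set m₀ : ℕ := ⌊τ / η⌋₊ + 1 with hm₀
  have h0 : τ < (m₀ : ℝ) * η := by
    rw [← div_lt_iff₀ hη, hm₀]
    push_cast
    exact Nat.lt_floor_add_one _
  have h1 : ∀ m : ℕ, (if τ < (m : ℝ) * η then η * (((m : ℝ) * η) ^ d)⁻¹ else 0)
      ≤ (η * (τ ^ (d - 2)))⁻¹ * (if m₀ ≤ m then 1 / (m : ℝ) ^ 2 else 0) := by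
    intro m
    by_cases hm : τ < (m : ℝ) * η
    · rw [if_pos hm]
      have hm' : m₀ ≤ m := by
        rw [hm₀]
        apply Nat.succ_le_of_lt
        rw [Nat.floor_lt (by positivity), div_lt_iff₀ hη]
        exact hm
      rw [if_pos hm']
      have hmη : 0 < (m : ℝ) * η := hτ.trans hm
      have hmpos : 0 < (m : ℝ) := by
        rcases (Nat.cast_nonneg m : (0:ℝ) ≤ m).lt_or_eq with h5 | h5
        · exact h5
        · rw [← h5] at hmη; simp at hmη
      have h2 : ((m : ℝ) * η) ^ d = ((m : ℝ) * η) ^ (d - 2) * ((m : ℝ) * η) ^ 2 := by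
        rw [← pow_add]; congr 1; omega
      have h3 : τ ^ (d - 2) ≤ ((m : ℝ) * η) ^ (d - 2) := pow_le_pow_left₀ hτ.le hm.le _
      rw [h2, mul_inv, mul_inv]
      have h4 : (((m : ℝ) * η) ^ (d - 2))⁻¹ ≤ (τ ^ (d - 2))⁻¹ := inv_anti₀ (by positivity) h3
      calc η * ((((m : ℝ) * η) ^ (d - 2))⁻¹ * (((m : ℝ) * η) ^ 2)⁻¹)
          ≤ η * ((τ ^ (d - 2))⁻¹ * (((m : ℝ) * η) ^ 2)⁻¹) := by
            apply mul_le_mul_of_nonneg_left _ hη.le
            exact mul_le_mul_of_nonneg_right h4 (by positivity)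
        _ = η⁻¹ * (τ ^ (d - 2))⁻¹ * (1 / (m : ℝ) ^ 2) := by
            field_simp
    · rw [if_neg hm]
      have : (0:ℝ) ≤ if m₀ ≤ m then 1 / (m : ℝ) ^ 2 else 0 := by split_ifs <;> positivity
      positivity
  have h2 : ∑ m ∈ Finset.range M, (if τ < (m : ℝ) * η then η * (((m : ℝ) * η) ^ d)⁻¹ else 0)
      ≤ (η * (τ ^ (d - 2)))⁻¹ * (2 / (m₀ : ℝ)) := by
    refine (Finset.sum_le_sum (fun m _ => h1 m)).trans ?_
    rw [← Finset.mul_sum]
    apply mul_le_mul_of_nonneg_left _ (by positivity)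
    refine (tail_two m₀ (by omega) M).trans ?_
    have : (0:ℝ) ≤ 2 / ((max M m₀ : ℕ) : ℝ) := by positivity
    linarith
  have h3 : (η * (τ ^ (d - 2)))⁻¹ * (2 / (m₀ : ℝ)) ≤ 2 * (τ ^ (d - 1))⁻¹ := by
    have h4 : τ ^ (d - 1) = τ ^ (d - 2) * τ := by
      rw [← pow_succ]; congr 1; omega
    have hm₀pos : (0:ℝ) < m₀ := by rw [hm₀]; positivity
    rw [h4]
    have h5 : (η * (τ ^ (d - 2)))⁻¹ * (2 / (m₀ : ℝ)) = 2 * (τ ^ (d - 2) * (m₀ * η))⁻¹ := by
      field_simp
    rw [h5]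
    apply mul_le_mul_of_nonneg_left _ (by norm_num)
    apply inv_anti₀ (by positivity)
    exact mul_le_mul_of_nonneg_left h0.le (by positivity)
  linarith

end Pool.Agent.L5helper79.Ons
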