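import Pool.Agent.L5helper79.Ons.C
import Pool.Agent.L5helper79.Ons.Grid

/-!
# The local step
-/

set_option autoImplicit false
set_option linter.unusedSectionVars false

open scoped InnerProductSpace

namespace Pool.Agent.L5helper79.Ons

variable {H G : Type*} [NormedAddCommGroup H] [InnerProductSpace ℂ H] [CompleteSpace H]
  [NormedAddCommGroup G] [InnerProductSpace ℂ G] [CompleteSpace G]

/-- the abstract data: amplitudes `w`, sizes `e`, operators `b` -/
structure Sys (M L d : ℕ) (η : ℝ) (w : ℕ → ℝ) (e : Fin M × Fin L → ℝ)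
    (b : Fin M × Fin L → (G →L[ℂ] H)) : Prop where
  hη : 0 < η
  hd : 2 ≤ d
  hw : ∀ k, 0 < w k
  he : ∀ α, 0 ≤ e α
  hn : ∀ α, ‖b α‖ ^ 2 ≤ η * w α.2
  hs : ∀ α β, α.1 ≠ β.1 → HSb (b α ∘L (b β).adjoint)
    (w α.2 * w β.2 * (η ^ 2 * (((nd α.1 β.1 : ℝ) * η) ^ d)⁻¹ * (e α * e β)))

lemma sum4 {M L : ℕ} (F : Fin M × Fin L → Fin M × Fin L → ℝ) :
    ∑ α, ∑ β, F α β = ∑ k, ∑ k', ∑ i, ∑ j, F (i, k) (j, k') := by
  rw [Fintype.sum_prod_type_right]
  apply Finset.sum_congr rfl
  intro k _
  have : ∀ i : Fin M, ∑ β, F (i, k) β = ∑ k', ∑ j, F (i, k) (j, k') := by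
    intro i
    rw [Fintype.sum_prod_type_right]
  simp only [this]
  rw [Finset.sum_comm]

lemma hs_levels {M d : ℕ} {η τ θ : ℝ} (hη : 0 < η) (hτ : 0 < τ) (hθ : 0 < θ) (hd : 2 ≤ d)
    (u v : Fin M → ℝ) :
    ∑ i, ∑ j, (if τ < (nd i j : ℝ) * η then η ^ 2 * (((nd i j : ℝ) * η) ^ d)⁻¹ * (u i * v j) else 0)
      ≤ 2 * (τ ^ (d - 1))⁻¹ * (θ * ∑ i, η * u i ^ 2 + θ⁻¹ * ∑ j, η * v j ^ 2) := by
  have h1 : ∀ i j, (if τ < (nd i j : ℝ) * η then η ^ 2 * (((nd i j : ℝ) * η) ^ d)⁻¹ * (u i * v j)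
      else 0) ≤ (θ / 2 * (η * u i ^ 2)) *
        (if τ < (nd i j : ℝ) * η then η * (((nd i j : ℝ) * η) ^ d)⁻¹ else 0)
      + (θ⁻¹ / 2 * (η * v j ^ 2)) *
        (if τ < (nd j i : ℝ) * η then η * (((nd j i : ℝ) * η) ^ d)⁻¹ else 0) := by
    intro i j
    rw [nd_comm j i]
    by_cases h : τ < (nd i j : ℝ) * η
    · rw [if_pos h, if_pos h]
      have h2 : u i * v j ≤ θ / 2 * u i ^ 2 + θ⁻¹ / 2 * v j ^ 2 := by
        have h3 : 0 ≤ (θ * u i - v j) ^ 2 * θ⁻¹ / 2 := by positivity
        have h4 : (θ * u i - v j) ^ 2 * θ⁻¹ / 2 = θ / 2 * u i ^ 2 + θ⁻¹ / 2 * v j ^ 2 - u i * v j := by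
          field_simp
          ring
        linarith
      have hpos : 0 ≤ η ^ 2 * (((nd i j : ℝ) * η) ^ d)⁻¹ := by positivity
      calc η ^ 2 * (((nd i j : ℝ) * η) ^ d)⁻¹ * (u i * v j)
          ≤ η ^ 2 * (((nd i j : ℝ) * η) ^ d)⁻¹ * (θ / 2 * u i ^ 2 + θ⁻¹ / 2 * v j ^ 2) :=
            mul_le_mul_of_nonneg_left h2 hpos
        _ = _ := by ring
    · rw [if_neg h, if_neg h]
      simp
  calc ∑ i, ∑ j, (if τ < (nd i j : ℝ) * η then η ^ 2 * (((nd i j : ℝ) * η) ^ d)⁻¹ * (u i * v j)
        else 0)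
      ≤ ∑ i, ∑ j, ((θ / 2 * (η * u i ^ 2)) *
        (if τ < (nd i j : ℝ) * η then η * (((nd i j : ℝ) * η) ^ d)⁻¹ else 0)
      + (θ⁻¹ / 2 * (η * v j ^ 2)) *
        (if τ < (nd j i : ℝ) * η then η * (((nd j i : ℝ) * η) ^ d)⁻¹ else 0)) :=
        Finset.sum_le_sum (fun i _ => Finset.sum_le_sum (fun j _ => h1 i j))
    _ = ∑ i, (θ / 2 * (η * u i ^ 2)) * ∑ j,
        (if τ < (nd i j : ℝ) * η then η * (((nd i j : ℝ) * η) ^ d)⁻¹ else 0)
      + ∑ j, (θ⁻¹ / 2 * (η * v j ^ 2)) * ∑ i,
        (if τ < (nd j i : ℝ) * η then η * (((nd j i : ℝ) * η) ^ d)⁻¹ else 0) := by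
        simp only [Finset.sum_add_distrib, Finset.mul_sum]
        congr 1
        rw [Finset.sum_comm]
    _ ≤ ∑ i, (θ / 2 * (η * u i ^ 2)) * (4 * (τ ^ (d - 1))⁻¹)
      + ∑ j, (θ⁻¹ / 2 * (η * v j ^ 2)) * (4 * (τ ^ (d - 1))⁻¹) := by
        apply add_le_add
        · exact Finset.sum_le_sum (fun i _ => mul_le_mul_of_nonneg_left (far_sum i hη hτ hd)
            (by positivity))
        · exact Finset.sum_le_sum (fun i _ => mul_le_mul_of_nonneg_left (far_sum i hη hτ hd)
            (by positivity))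
    _ = 2 * (τ ^ (d - 1))⁻¹ * (θ * ∑ i, η * u i ^ 2 + θ⁻¹ * ∑ j, η * v j ^ 2) := by
        simp only [Finset.mul_sum, mul_add]
        congr 1
        · apply Finset.sum_congr rfl; intro i _; ring
        · apply Finset.sum_congr rfl; intro i _; ring

variable {M L d : ℕ} {η : ℝ} {w : ℕ → ℝ} {e : Fin M × Fin L → ℝ}
  {b : Fin M × Fin L → (G →L[ℂ] H)}

lemma Sys.norm_prod (S : Sys M L d η w e b) (α β : Fin M × Fin L) (h : α.2 = β.2) :
    ‖b α ∘L (b β).adjoint‖ ≤ η * w α.2 := by
  refine (ContinuousLinearMap.opNorm_comp_le _ _).trans ?_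
  rw [ContinuousLinearMap.adjoint.norm_map]
  have h1 := S.hn α
  have h2 := S.hn β
  rw [← h] at h2
  nlinarith [sq_nonneg (‖b α‖ - ‖b β‖), norm_nonneg (b α), norm_nonneg (b β)]

/-- the local decomposition for a set of indices in one level -/
theorem Sys.local_step (S : Sys M L d η w e b) (k : Fin L) (X : Finset (Fin M × Fin L))
    (hX : ∀ α ∈ X, α.2 = k) {l : ℝ} (hl : η * w k ≤ l) :
    ∃ X0 Y0 : DS (Fin M × Fin L) H →L[ℂ] DS (Fin M × Fin L) H,
      col (rst X b) ∘L (col (rst X b)).adjoint = X0 + Y0 ∧ ‖X0‖ ≤ 4 * l ∧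
      HSb Y0 (4 * (l ^ (d - 1))⁻¹ * ∑ α ∈ X, η * w α.2 ^ (d + 1) * e α ^ 2) := by
  classical
  have hη := S.hη
  have hwk := S.hw k
  have hlpos : 0 < l := lt_of_lt_of_le (mul_pos hη hwk) hl
  set τ : ℝ := l / w k with hτ
  have hτpos : 0 < τ := div_pos hlpos hwk
  let T : Fin M × Fin L → Fin M × Fin L → (H →L[ℂ] H) := fun α β =>
    rst X b α ∘L (rst X b β).adjoint
  refine ⟨Mop (fun α β => if (nd α.1 β.1 : ℝ) * η ≤ τ then T α β else 0),
    Mop (fun α β => if (nd α.1 β.1 : ℝ) * η ≤ τ then 0 else T α β), ?_, ?_, ?_⟩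
  · rw [col_comp_adjoint, ← Mop_add]
    congr 1
    funext α β
    by_cases h : (nd α.1 β.1 : ℝ) * η ≤ τ
    · simp [h, T]
    · simp [h, T]
  · -- Schur
    have hTn : ∀ α β, ‖T α β‖ ≤ if β.2 = k then η * w k else 0 := by
      intro α β
      by_cases hβ : β ∈ X
      · by_cases hα : α ∈ X
        · simp only [T, rst, if_pos hα, if_pos hβ]
          rw [if_pos (hX β hβ)]
          have := S.norm_prod α β ((hX α hα).trans (hX β hβ).symm)
          rwa [hX α hα] at this
        · simp only [T, rst, if_neg hα, ContinuousLinearMap.zero_comp]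
          rw [if_pos (hX β hβ)]
          rw [norm_zero]
          positivity
      · simp only [T, rst, if_neg hβ, map_zero, ContinuousLinearMap.comp_zero]
        rw [norm_zero]
        split_ifs <;> positivity
    have hTn' : ∀ α β, ‖T α β‖ ≤ if α.2 = k then η * w k else 0 := by
      intro α β
      by_cases hα : α ∈ X
      · by_cases hβ : β ∈ X
        · simp only [T, rst, if_pos hα, if_pos hβ]
          rw [if_pos (hX α hα)]
          have := S.norm_prod α β ((hX α hα).trans (hX β hβ).symm)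
          rwa [hX α hα] at this
        · simp only [T, rst, if_neg hβ, map_zero, ContinuousLinearMap.comp_zero]
          rw [if_pos (hX α hα)]
          rw [norm_zero]
          positivity
      · simp only [T, rst, if_neg hα, ContinuousLinearMap.zero_comp]
        rw [norm_zero]
        split_ifs <;> positivity
    have hsum : ∀ i : Fin M, ∑ β : Fin M × Fin L,
        (if (nd i β.1 : ℝ) * η ≤ τ then (if β.2 = k then η * w k else 0) else 0) ≤ 4 * l := by
      intro i
      rw [Fintype.sum_prod_type]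
      have h1 : ∀ j : Fin M, ∑ k' : Fin L,
          (if (nd i (j, k').1 : ℝ) * η ≤ τ then (if (j, k').2 = k then η * w k else 0) else 0)
          = w k * (if (nd i j : ℝ) * η ≤ τ then η else 0) := by
        intro j
        by_cases h : (nd i j : ℝ) * η ≤ τ
        · simp [h, mul_comm]
        · simp [h]
      simp only [h1]
      rw [← Finset.mul_sum]
      have h2 := count_le i hη hτpos.le
      calc w k * ∑ j : Fin M, (if (nd i j : ℝ) * η ≤ τ then η else 0)
          ≤ w k * (2 * (τ + η)) := mul_le_mul_of_nonneg_left h2 hwk.le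
        _ = 2 * (l + η * w k) := by rw [hτ]; field_simp
        _ ≤ 4 * l := by linarith
    apply Mop_schur _ (by positivity)
    · intro α
      refine le_trans (Finset.sum_le_sum (fun β _ => ?_)) (hsum α.1)
      by_cases h : (nd α.1 β.1 : ℝ) * η ≤ τ
      · rw [if_pos h, if_pos h]
        exact hTn α β
      · rw [if_neg h, if_neg h, norm_zero]
    · intro β
      refine le_trans (Finset.sum_le_sum (fun α _ => ?_)) (hsum β.1)
      rw [nd_comm β.1 α.1]
      by_cases h : (nd α.1 β.1 : ℝ) * η ≤ τ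
      · rw [if_pos h, if_pos h]
        exact hTn' α β
      · rw [if_neg h, if_neg h, norm_zero]
  · -- Hilbert–Schmidt
    let u : Fin M → ℝ := fun i => if (i, k) ∈ X then e (i, k) else 0
    have hent : ∀ α β : Fin M × Fin L, HSb (if (nd α.1 β.1 : ℝ) * η ≤ τ then 0 else T α β)
        (if α.2 = k then (if β.2 = k then (if τ < (nd α.1 β.1 : ℝ) * η then
          w k ^ 2 * (η ^ 2 * (((nd α.1 β.1 : ℝ) * η) ^ d)⁻¹ * (u α.1 * u β.1)) else 0) else 0)
          else 0) := by
      intro α β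
      have hu : ∀ i, 0 ≤ u i := by
        intro i
        simp only [u]
        split_ifs
        · exact S.he _
        · exact le_rfl
      have hnn : 0 ≤ (if α.2 = k then (if β.2 = k then (if τ < (nd α.1 β.1 : ℝ) * η then
          w k ^ 2 * (η ^ 2 * (((nd α.1 β.1 : ℝ) * η) ^ d)⁻¹ * (u α.1 * u β.1)) else 0) else 0)
          else 0) := by
        have := hu α.1
        have := hu β.1
        split_ifs <;> positivity
      by_cases h : (nd α.1 β.1 : ℝ) * η ≤ τ
      · rw [if_pos h]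
        exact HSb.zero.mono hnn
      · rw [if_neg h]
        by_cases hα : α ∈ X
        · by_cases hβ : β ∈ X
          · have hne : α.1 ≠ β.1 := by
              intro hh
              apply h
              rw [hh]
              have : nd β.1 β.1 = 0 := by unfold nd; simp
              rw [this]
              simp only [Nat.cast_zero, zero_mul]
              exact hτpos.le
            have h2 := S.hs α β hne
            rw [if_pos (hX α hα), if_pos (hX β hβ), if_pos (not_le.1 h)]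
            simp only [T, rst, if_pos hα, if_pos hβ]
            have e1 : u α.1 = e α := by
              simp only [u]
              rw [← hX α hα, Prod.mk.eta, if_pos hα]
            have e2 : u β.1 = e β := by
              simp only [u]
              rw [← hX β hβ, Prod.mk.eta, if_pos hβ]
            rw [e1, e2, sq (w k)]
            rw [hX α hα, hX β hβ] at h2
            exact h2
          · simp only [T, rst, if_neg hβ, map_zero, ContinuousLinearMap.comp_zero]
            exact HSb.zero.mono hnn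
        · simp only [T, rst, if_neg hα, ContinuousLinearMap.zero_comp]
          exact HSb.zero.mono hnn
    refine (HSb.mop hent).mono ?_
    rw [sum4]
    have h1 : ∀ k1 k2 : Fin L, ∑ i : Fin M, ∑ j : Fin M,
        (if ((i, k1) : Fin M × Fin L).2 = k then (if ((j, k2) : Fin M × Fin L).2 = k then
          (if τ < (nd ((i, k1) : Fin M × Fin L).1 ((j, k2) : Fin M × Fin L).1 : ℝ) * η then
          w k ^ 2 * (η ^ 2 * (((nd ((i, k1) : Fin M × Fin L).1 ((j, k2) : Fin M × Fin L).1 : ℝ) * η)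
            ^ d)⁻¹ * (u ((i, k1) : Fin M × Fin L).1 * u ((j, k2) : Fin M × Fin L).1)) else 0)
            else 0) else 0) = if k1 = k then (if k2 = k then w k ^ 2 * ∑ i, ∑ j,
            (if τ < (nd i j : ℝ) * η then η ^ 2 * (((nd i j : ℝ) * η) ^ d)⁻¹ * (u i * u j) else 0)
            else 0) else 0 := by
      intro k1 k2
      by_cases h1 : k1 = k
      · by_cases h2 : k2 = k
        · simp only [h1, h2, if_true, Finset.mul_sum, mul_ite, mul_zero]
        · simp [h1, h2]
      · simp [h1]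
    simp only [h1]
    simp only [Finset.sum_ite_eq', Finset.mem_univ, if_true, Finset.sum_ite_irrel,
      Finset.sum_const_zero]
    have h2 := hs_levels (M := M) hη hτpos one_pos S.hd u u
    have h3 : ∑ i, η * u i ^ 2 * w k ^ (d + 1) = ∑ α ∈ X, η * w α.2 ^ (d + 1) * e α ^ 2 := by
      have h4 : ∑ α ∈ X, η * w α.2 ^ (d + 1) * e α ^ 2
          = ∑ α : Fin M × Fin L, if α ∈ X then η * w α.2 ^ (d + 1) * e α ^ 2 else 0 := by
        rw [← Finset.sum_filter]
        congr 1
        ext; simp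
      rw [h4, Fintype.sum_prod_type]
      apply Finset.sum_congr rfl
      intro i _
      rw [Finset.sum_eq_single_of_mem k (Finset.mem_univ _)]
      · by_cases h5 : (i, k) ∈ X
        · simp only [u, if_pos h5]
          ring
        · simp [u, if_neg h5]
      · intro k' _ hk'
        rw [if_neg]
        intro h5
        exact hk' (hX _ h5)
    rw [← h3, ← Finset.sum_mul]
    have h6 : (τ ^ (d - 1))⁻¹ = w k ^ (d - 1) * (l ^ (d - 1))⁻¹ := by
      rw [hτ, div_pow, inv_div]
      rfl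
    rw [h6] at h2
    have h7 : w k ^ (d + 1) = w k ^ 2 * w k ^ (d - 1) := by
      rw [← pow_add]; congr 1; have := S.hd; omega
    rw [h7]
    calc w k ^ 2 * ∑ i, ∑ j,
            (if τ < (nd i j : ℝ) * η then η ^ 2 * (((nd i j : ℝ) * η) ^ d)⁻¹ * (u i * u j) else 0)
        ≤ w k ^ 2 * (2 * (w k ^ (d - 1) * (l ^ (d - 1))⁻¹) *
          (1 * ∑ i, η * u i ^ 2 + 1⁻¹ * ∑ j, η * u j ^ 2)) :=
          mul_le_mul_of_nonneg_left h2 (by positivity)
      _ = 4 * (l ^ (d - 1))⁻¹ * ((∑ i, η * u i ^ 2) * (w k ^ 2 * w k ^ (d - 1))) := by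
          rw [inv_one]; ring

end Pool.Agent.L5helper79.Ons
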