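import Pool.Agent.L5helper79.Ons.E

/-!
# Off-diagonal blocks
-/

set_option autoImplicit false
set_option linter.unusedSectionVars false

open scoped InnerProductSpace

namespace Pool.Agent.L5helper79.Ons

variable {H G : Type*} [NormedAddCommGroup H] [InnerProductSpace ℂ H] [CompleteSpace H]
  [NormedAddCommGroup G] [InnerProductSpace ℂ G] [CompleteSpace G]

variable {M L d : ℕ} {η : ℝ} {w : ℕ → ℝ} {e : Fin M × Fin L → ℝ}
  {b : Fin M × Fin L → (G →L[ℂ] H)}

/-- the total size -/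
def tot (d : ℕ) (η : ℝ) (w : ℕ → ℝ) (e : Fin M × Fin L → ℝ) : ℝ :=
  ∑ α, η * w α.2 ^ (d + 1) * e α ^ 2

/-- block number of a time index -/
noncomputable def blk (η ℓ : ℝ) (i : Fin M) : ℤ := ⌊((i : ℕ) : ℝ) * η / ℓ⌋

lemma nd_cast (i j : Fin M) : (nd i j : ℝ) = |((i : ℕ) : ℝ) - ((j : ℕ) : ℝ)| := by
  unfold nd
  rw [Nat.cast_natAbs]
  push_cast
  rfl

lemma blk_near {ℓ : ℝ} (hℓ : 0 < ℓ) {i j : Fin M} (h : blk η ℓ i = blk η ℓ j) (hη : 0 < η) :
    (nd i j : ℝ) * η ≤ ℓ := by
  unfold blk at h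
  have h1 := Int.abs_sub_lt_one_of_floor_eq_floor h
  rw [← sub_div, abs_div, abs_of_pos hℓ, div_lt_one hℓ, ← sub_mul, abs_mul, abs_of_pos hη] at h1
  rw [nd_cast]
  exact h1.le

lemma blk_far {ℓ : ℝ} (hℓ : 0 < ℓ) {i j : Fin M} (hη : 0 < η)
    (h : ∀ σ : ℤ, σ ∈ ({-1, 0, 1} : Finset ℤ) → blk η ℓ j ≠ blk η ℓ i + σ) :
    ℓ < (nd i j : ℝ) * η := by
  have h1 := h (-1) (by simp)
  have h2 := h 0 (by simp)
  have h3 := h 1 (by simp)
  rw [nd_cast]
  have f1 := Int.floor_le (((i : ℕ) : ℝ) * η / ℓ)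
  have f2 := Int.lt_floor_add_one (((i : ℕ) : ℝ) * η / ℓ)
  have f3 := Int.floor_le (((j : ℕ) : ℝ) * η / ℓ)
  have f4 := Int.lt_floor_add_one (((j : ℕ) : ℝ) * η / ℓ)
  unfold blk at h1 h2 h3
  set x : ℤ := ⌊((i : ℕ) : ℝ) * η / ℓ⌋
  set y : ℤ := ⌊((j : ℕ) : ℝ) * η / ℓ⌋
  have h4 : y + 2 ≤ x ∨ x + 2 ≤ y := by omega
  rcases h4 with h4 | h4
  · have h5 : (y : ℝ) + 2 ≤ x := by exact_mod_cast h4
    have h6 : 1 < ((i : ℕ) : ℝ) * η / ℓ - ((j : ℕ) : ℝ) * η / ℓ := by linarith
    rw [← sub_div, ← sub_mul, lt_div_iff₀ hℓ, one_mul] at h6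
    exact h6.trans_le (mul_le_mul_of_nonneg_right (le_abs_self _) hη.le)
  · have h5 : (x : ℝ) + 2 ≤ y := by exact_mod_cast h4
    have h6 : 1 < ((j : ℕ) : ℝ) * η / ℓ - ((i : ℕ) : ℝ) * η / ℓ := by linarith
    rw [← sub_div, ← sub_mul, lt_div_iff₀ hℓ, one_mul] at h6
    rw [abs_sub_comm]
    exact h6.trans_le (mul_le_mul_of_nonneg_right (le_abs_self _) hη.le)

/-- length of the time blocks -/
noncomputable def len (l : ℝ) (w : ℕ → ℝ) (a k : ℕ) : ℝ := l / (w k * 4 ^ a)

lemma len_pos {l : ℝ} (hl : 0 < l) (hw : ∀ k, 0 < w k) (a k : ℕ) : 0 < len l w a k := by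
  unfold len
  have := hw k
  positivity

lemma sum_rst_mul {α : Type*} (s : Finset α) (X Y : α → Finset (Fin M × Fin L))
    (b : Fin M × Fin L → (G →L[ℂ] H)) :
    ∑ z ∈ s, col (rst (X z) b) ∘L (col (rst (Y z) b)).adjoint =
      Mop (fun α β => ∑ z ∈ s, rst (X z) b α ∘L (rst (Y z) b β).adjoint) := by
  rw [Mop_sum]
  apply Finset.sum_congr rfl
  intro z _
  rw [col_comp_adjoint]

/-- the near part of the `a`-th off-diagonal, shift `σ` -/
theorem Sys.near (S : Sys M L d η w e b) {l : ℝ} (hl : 0 < l)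
    (hlw : ∀ k : Fin L, η * w k ≤ l) (a : ℕ)
    (hwa : ∀ k : ℕ, w k * 4 ^ a ≤ w (k + a)) (σ : ℤ) :
    ∃ T1 T2 : DS (Fin M × Fin L) H →L[ℂ] DS (Fin M × Fin L) H,
      Mop (fun α β => if (α.2 : ℕ) = β.2 + a ∧
        blk η (len l w a β.2) β.1 = blk η (len l w a β.2) α.1 + σ then
          b α ∘L (b β).adjoint else 0) = T1 + T2 ∧
      ‖T1‖ ≤ 6 * l * (1 / 2) ^ a ∧
      HSb T2 (8 * (1 / 4) ^ a * ((l ^ (d - 1))⁻¹ * tot d η w e)) := by
  classical
  have hη := S.hη
  let r : ℕ → Fin M → ℤ := fun k i => blk η (len l w a k) i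
  let s : Finset (Fin L × ℤ) := (Finset.univ.image (fun z : Fin L × Fin M =>
    (z.1, r z.1 z.2))).filter (fun z => (z.1 : ℕ) + a < L)
  let X : Fin L × ℤ → Finset (Fin M × Fin L) := fun z =>
    Finset.univ.filter (fun α => (α.2 : ℕ) = z.1 + a ∧ r z.1 α.1 = z.2)
  let Y : Fin L × ℤ → Finset (Fin M × Fin L) := fun z =>
    Finset.univ.filter (fun β => β.2 = z.1 ∧ r z.1 β.1 = z.2 + σ)
  have hXmem : ∀ z α, α ∈ X z ↔ (α.2 : ℕ) = z.1 + a ∧ r z.1 α.1 = z.2 := by
    intro z α; simp [X]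
  have hYmem : ∀ z β, β ∈ Y z ↔ β.2 = z.1 ∧ r z.1 β.1 = z.2 + σ := by
    intro z α; simp [Y]
  have hX : ∀ z ∈ s, ∀ z' ∈ s, z ≠ z' → Disjoint (X z) (X z') := by
    intro z _ z' _ hne
    rw [Finset.disjoint_left]
    intro α h1 h2
    rw [hXmem] at h1 h2
    apply hne
    have h3 : z.1 = z'.1 := by
      apply Fin.ext; omega
    apply Prod.ext h3
    rw [← h1.2, ← h2.2, h3]
  have hY : ∀ z ∈ s, ∀ z' ∈ s, z ≠ z' → Disjoint (Y z) (Y z') := by
    intro z _ z' _ hne
    rw [Finset.disjoint_left]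
    intro α h1 h2
    rw [hYmem] at h1 h2
    apply hne
    have h3 : z.1 = z'.1 := h1.1.symm.trans h2.1
    apply Prod.ext h3
    have h4 := h1.2
    have h5 := h2.2
    rw [h3] at h4
    linarith
  have hdec : ∀ z ∈ s, ∃ X0 Y0 : DS (Fin M × Fin L) H →L[ℂ] DS (Fin M × Fin L) H,
      col (rst (X z) b) ∘L (col (rst (X z) b)).adjoint = X0 + Y0 ∧ ‖X0‖ ≤ (8 * l) / 2 ∧
      HSb Y0 (4 * (l ^ (d - 1))⁻¹ * ∑ α ∈ X z, η * w α.2 ^ (d + 1) * e α ^ 2) := by
    intro z _
    by_cases h : (z.1 : ℕ) + a < L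
    · obtain ⟨X0, Y0, h1, h2, h3⟩ := S.local_step ⟨z.1 + a, h⟩ (X z) (fun α hα => by
        rw [hXmem] at hα
        exact Fin.ext hα.1) (hlw _)
      refine ⟨X0, Y0, h1, ?_, h3⟩
      linarith
    · have hempty : X z = ∅ := by
        rw [Finset.eq_empty_iff_forall_notMem]
        intro α hα
        rw [hXmem] at hα
        have := α.2.2
        omega
      refine ⟨0, 0, ?_, ?_, ?_⟩
      · rw [col_comp_adjoint]
        have : (fun α β => rst (X z) b α ∘L (rst (X z) b β).adjoint) = fun α β => 0 := by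
          funext α β
          rw [hempty]
          simp [rst]
        rw [this]
        ext g i
        simp [Mop_apply]
      · rw [norm_zero]; positivity
      · rw [hempty]
        simpa using HSb.zero
  have hlen : ∀ z ∈ s, ‖col (rst (Y z) b)‖ ≤ Real.sqrt (4 * l * (1 / 4) ^ a) := by
    intro z hzs
    have hz : (z.1 : ℕ) + a < L := (Finset.mem_filter.1 hzs).2
    apply col_norm_le
    by_cases hne : ∃ j, r z.1 j = z.2 + σ
    · obtain ⟨j₀, hj₀⟩ := hne
      have hℓ : 0 < len l w a z.1 := len_pos hl S.hw a z.1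
      have hb : ∀ β : Fin M × Fin L, ‖rst (Y z) b β‖ ^ 2 ≤
          if β.2 = z.1 then w z.1 * (if (nd j₀ β.1 : ℝ) * η ≤ len l w a z.1 then η else 0)
            else 0 := by
        intro β
        by_cases hβ : β ∈ Y z
        · have hβ' := (hYmem z β).1 hβ
          simp only [rst, if_pos hβ]
          rw [if_pos hβ'.1, if_pos]
          · have := S.hn β
            rw [hβ'.1] at this
            linarith
          · apply blk_near hℓ _ hη
            exact hj₀.trans hβ'.2.symm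
        · simp only [rst, if_neg hβ, norm_zero]
          have := S.hw z.1
          have h0 : (0:ℝ) ^ 2 = 0 := by norm_num
          rw [h0]
          split_ifs <;> positivity
      refine (Finset.sum_le_sum (fun β _ => hb β)).trans ?_
      rw [Fintype.sum_prod_type]
      simp only [Finset.sum_ite_eq', Finset.mem_univ, if_true]
      rw [← Finset.mul_sum]
      have h1 := count_le j₀ hη hℓ.le
      have h2 : η ≤ len l w a z.1 := by
        unfold len
        rw [le_div_iff₀ (by have := S.hw z.1; positivity)]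
        have h3 := hlw ⟨z.1 + a, hz⟩
        have h4 := hwa z.1
        calc η * (w z.1 * 4 ^ a) ≤ η * w (z.1 + a) := mul_le_mul_of_nonneg_left h4 hη.le
          _ ≤ l := h3
      calc w z.1 * ∑ j : Fin M, (if (nd j₀ j : ℝ) * η ≤ len l w a z.1 then η else 0)
          ≤ w z.1 * (2 * (len l w a z.1 + η)) :=
            mul_le_mul_of_nonneg_left h1 (S.hw _).le
        _ ≤ w z.1 * (2 * (len l w a z.1 + len l w a z.1)) := by
            apply mul_le_mul_of_nonneg_left _ (S.hw _).le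
            linarith
        _ = 4 * l * (1 / 4) ^ a := by
            unfold len
            have := S.hw z.1
            rw [one_div, inv_pow]
            field_simp
            ring
    · have : ∀ β, rst (Y z) b β = 0 := by
        intro β
        unfold rst
        rw [if_neg]
        intro hβ
        exact hne ⟨β.1, ((hYmem z β).1 hβ).2⟩
      simp only [this, norm_zero]
      simp only [ne_eq, OfNat.ofNat_ne_zero, not_false_eq_true, zero_pow, Finset.sum_const_zero]
      positivity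
  obtain ⟨T1, T2, h1, h2, h3⟩ := direct_sum s b X Y hX hY (μ := 8 * l) (m := 4 * l * (1 / 4) ^ a)
    (by positivity) (by positivity) _ hdec hlen
  refine ⟨T1, T2, ?_, ?_, ?_⟩
  · rw [← h1, sum_rst_mul]
    congr 1
    funext α β
    by_cases hc : (α.2 : ℕ) = β.2 + a ∧
        blk η (len l w a β.2) β.1 = blk η (len l w a β.2) α.1 + σ
    · rw [if_pos hc]
      have hzs : ((β.2, r β.2 α.1) : Fin L × ℤ) ∈ s := by
        rw [Finset.mem_filter]
        refine ⟨Finset.mem_image.2 ⟨(β.2, α.1), Finset.mem_univ _, rfl⟩, ?_⟩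
        have := α.2.2
        simp only
        omega
      rw [Finset.sum_eq_single_of_mem _ hzs]
      · have g1 : α ∈ X (β.2, r β.2 α.1) := by rw [hXmem]; exact ⟨hc.1, rfl⟩
        have g2 : β ∈ Y (β.2, r β.2 α.1) := by rw [hYmem]; exact ⟨rfl, hc.2⟩
        simp only [rst, if_pos g1, if_pos g2]
      · intro z _ hne
        by_cases g1 : α ∈ X z
        · by_cases g2 : β ∈ Y z
          · exfalso
            apply hne
            rw [hXmem] at g1
            rw [hYmem] at g2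
            apply Prod.ext
            · exact g2.1.symm
            · simp only
              rw [g2.1]
              exact g1.2.symm
          · simp only [rst, if_neg g2, map_zero, ContinuousLinearMap.comp_zero]
        · simp only [rst, if_neg g1, ContinuousLinearMap.zero_comp]
    · rw [if_neg hc, Finset.sum_eq_zero]
      intro z _
      by_cases g1 : α ∈ X z
      · by_cases g2 : β ∈ Y z
        · exfalso
          apply hc
          rw [hXmem] at g1
          rw [hYmem] at g2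
          rw [g2.1]
          refine ⟨g1.1, ?_⟩
          have g3 := g1.2
          have g4 := g2.2
          simp only [r] at g3 g4
          rw [g3, g4]
        · simp only [rst, if_neg g2, map_zero, ContinuousLinearMap.comp_zero]
      · simp only [rst, if_neg g1, ContinuousLinearMap.zero_comp]
  · refine h2.trans ?_
    apply Real.sqrt_le_iff.2
    refine ⟨by positivity, ?_⟩
    have : (6 * l * (1 / 2) ^ a) ^ 2 = 36 * l ^ 2 * (1 / 4) ^ a := by
      rw [mul_pow, ← pow_mul, mul_comm a 2, pow_mul]; norm_num; ring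
    rw [this]
    have h4 : 0 ≤ l ^ 2 * (1 / 4 : ℝ) ^ a := by positivity
    nlinarith
  · refine h3.mono ?_
    have h5 : 4 * l * (1 / 4) ^ a * (4 / (8 * l)) * ∑ z ∈ s, (4 * (l ^ (d - 1))⁻¹ *
        ∑ α ∈ X z, η * w α.2 ^ (d + 1) * e α ^ 2) = 8 * (1 / 4) ^ a * ((l ^ (d - 1))⁻¹ *
        ∑ z ∈ s, ∑ α ∈ X z, η * w α.2 ^ (d + 1) * e α ^ 2) := by
      rw [← Finset.mul_sum]
      field_simp
      ring
    rw [h5]
    apply mul_le_mul_of_nonneg_left _ (by positivity)
    apply mul_le_mul_of_nonneg_left _ (by positivity)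
    rw [← Finset.sum_biUnion (fun z hz z' hz' hne => hX z hz z' hz' hne)]
    apply Finset.sum_le_sum_of_subset_of_nonneg (Finset.subset_univ _)
    intro α _ _
    have := S.hw α.2
    positivity

end Pool.Agent.L5helper79.Ons
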