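import Pool.Agent.L5helper79.Ons.F

/-!
# The decomposition `B B* = X + Y`
-/

set_option autoImplicit false
set_option linter.unusedSectionVars false

open scoped InnerProductSpace

namespace Pool.Agent.L5helper79.Ons

variable {H G : Type*} [NormedAddCommGroup H] [InnerProductSpace ℂ H] [CompleteSpace H]
  [NormedAddCommGroup G] [InnerProductSpace ℂ G] [CompleteSpace G]

variable {M L d : ℕ} {η : ℝ} {w : ℕ → ℝ} {e : Fin M × Fin L → ℝ}
  {b : Fin M × Fin L → (G →L[ℂ] H)}

lemma diag_sum_left (n : Fin L → ℝ) (hn : ∀ k, 0 ≤ n k) (a : ℕ) :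
    ∑ k : Fin L, ∑ k' : Fin L, (if (k : ℕ) = k' + a then n k else 0) ≤ ∑ k, n k := by
  apply Finset.sum_le_sum
  intro k _
  by_cases h : ∃ k' : Fin L, (k : ℕ) = k' + a
  · obtain ⟨k₀, hk₀⟩ := h
    rw [Finset.sum_eq_single_of_mem k₀ (Finset.mem_univ _)]
    · rw [if_pos hk₀]
    · intro k' _ hne
      rw [if_neg]
      intro h2
      apply hne
      apply Fin.ext; omega
  · rw [Finset.sum_eq_zero]
    · exact hn k
    · intro k' _
      rw [if_neg (fun h2 => h ⟨k', h2⟩)]

lemma diag_sum_right (n : Fin L → ℝ) (hn : ∀ k, 0 ≤ n k) (a : ℕ) :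
    ∑ k : Fin L, ∑ k' : Fin L, (if (k : ℕ) = k' + a then n k' else 0) ≤ ∑ k, n k := by
  rw [Finset.sum_comm]
  apply Finset.sum_le_sum
  intro k' _
  by_cases h : ∃ k : Fin L, (k : ℕ) = k' + a
  · obtain ⟨k₀, hk₀⟩ := h
    rw [Finset.sum_eq_single_of_mem k₀ (Finset.mem_univ _)]
    · rw [if_pos hk₀]
    · intro k _ hne
      rw [if_neg]
      intro h2
      apply hne
      apply Fin.ext; omega
  · rw [Finset.sum_eq_zero]
    · exact hn k'
    · intro k _
      rw [if_neg (fun h2 => h ⟨k, h2⟩)]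

lemma const_id (D a : ℕ) {w' l s1 s2 : ℝ} (_hw' : 0 < w') (hl : 0 < l) :
    (256 ^ a * w') * w' * (2 * ((l / (w' * 4 ^ a)) ^ D)⁻¹ *
      ((16 : ℝ) ^ (a * (D + 2)) * s1 + ((16 : ℝ) ^ (a * (D + 2)))⁻¹ * s2))
    = 2 * ((4 ^ a) ^ D)⁻¹ * (l ^ D)⁻¹ * ((256 ^ a * w') ^ (D + 2) * s1 + w' ^ (D + 2) * s2) := by
  have e1 : (256 : ℝ) ^ a = ((4 : ℝ) ^ a) ^ 4 := by
    rw [← pow_mul, mul_comm, pow_mul]; norm_num
  have e2 : (16 : ℝ) ^ (a * (D + 2)) = ((4 : ℝ) ^ a) ^ (2 * (D + 2)) := by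
    rw [← pow_mul, show a * (2 * (D + 2)) = 2 * (a * (D + 2)) by ring, pow_mul _ 2]; norm_num
  rw [e1, e2]
  set x : ℝ := (4 : ℝ) ^ a with hx
  have hxpos : 0 < x := by positivity
  rw [div_pow, mul_pow]
  field_simp
  ring

/-- the far part of the `a`-th off-diagonal -/
theorem Sys.farPart (S : Sys M L d η w e b) {l : ℝ} (hl : 0 < l) (a : ℕ)
    (hwa : ∀ k : ℕ, w (k + a) = 256 ^ a * w k) :
    HSb (Mop (fun α β => if (α.2 : ℕ) = β.2 + a ∧ ∀ σ : ℤ, σ ∈ ({-1, 0, 1} : Finset ℤ) →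
        blk η (len l w a β.2) β.1 ≠ blk η (len l w a β.2) α.1 + σ then
          b α ∘L (b β).adjoint else 0))
      (4 * (1 / 4) ^ a * ((l ^ (d - 1))⁻¹ * tot d η w e)) := by
  have hη := S.hη
  have hent : ∀ α β : Fin M × Fin L, HSb (if (α.2 : ℕ) = β.2 + a ∧
      ∀ σ : ℤ, σ ∈ ({-1, 0, 1} : Finset ℤ) →
        blk η (len l w a β.2) β.1 ≠ blk η (len l w a β.2) α.1 + σ then
          b α ∘L (b β).adjoint else 0)
        (if (α.2 : ℕ) = β.2 + a then w α.2 * w β.2 * (if len l w a β.2 < (nd α.1 β.1 : ℝ) * η then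
          (η ^ 2 * (((nd α.1 β.1 : ℝ) * η) ^ d)⁻¹ * (e α * e β)) else 0) else 0) := by
    intro α β
    have hℓ := len_pos hl S.hw a β.2
    by_cases h : (α.2 : ℕ) = β.2 + a ∧ ∀ σ : ℤ, σ ∈ ({-1, 0, 1} : Finset ℤ) →
        blk η (len l w a β.2) β.1 ≠ blk η (len l w a β.2) α.1 + σ
    · have h2 := blk_far hℓ hη h.2
      rw [if_pos h, if_pos h.1, if_pos h2]
      apply S.hs
      intro hh
      rw [hh] at h2
      have : nd β.1 β.1 = 0 := by unfold nd; simp
      rw [this] at h2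
      simp only [Nat.cast_zero, zero_mul] at h2
      linarith
    · rw [if_neg h]
      apply HSb.zero.mono
      have := S.hw α.2
      have := S.hw β.2
      have := S.he α
      have := S.he β
      split_ifs <;> positivity
  refine (HSb.mop hent).mono ?_
  rw [sum4]
  simp only
  obtain ⟨D, rfl⟩ : ∃ D, d = D + 1 := ⟨d - 1, by have := S.hd; omega⟩
  have hD : 1 ≤ D := by have := S.hd; omega
  simp only [Nat.add_sub_cancel]
  let n : Fin L → ℝ := fun k => w k ^ (D + 1 + 1) * ∑ i : Fin M, η * e (i, k) ^ 2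
  have hn : ∀ k, 0 ≤ n k := by
    intro k
    have := S.hw k
    simp only [n]
    positivity
  have hnt : ∑ k, n k = tot (D + 1) η w e := by
    unfold tot
    rw [Fintype.sum_prod_type_right]
    apply Finset.sum_congr rfl
    intro k _
    simp only [n, Finset.mul_sum]
    apply Finset.sum_congr rfl
    intro i _
    ring
  have key : ∀ k k' : Fin L, ∑ i : Fin M, ∑ j : Fin M,
      (if (k : ℕ) = k' + a then w k * w k' * (if len l w a k' < (nd i j : ℝ) * η then
          (η ^ 2 * (((nd i j : ℝ) * η) ^ (D + 1))⁻¹ * (e (i, k) * e (j, k'))) else 0) else 0)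
      ≤ 2 * (1 / 4) ^ a * (l ^ D)⁻¹ * ((if (k : ℕ) = k' + a then n k else 0)
        + (if (k : ℕ) = k' + a then n k' else 0)) := by
    intro k k'
    by_cases h : (k : ℕ) = k' + a
    · simp only [if_pos h]
      have h1 := hs_levels (M := M) hη (len_pos hl S.hw a k')
        (show (0:ℝ) < 16 ^ (a * (D + 2)) by positivity) S.hd (fun i => e (i, k))
        (fun j => e (j, k'))
      simp only [Nat.add_sub_cancel] at h1
      have hwk := S.hw k
      have hwk' := S.hw k'
      have h2 := mul_le_mul_of_nonneg_left h1 (mul_pos hwk hwk').le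
      simp only [← Finset.mul_sum (Finset.univ : Finset (Fin M)) _ (w k * w k')]
      refine h2.trans ?_
      unfold len
      have hww : w k = 256 ^ a * w k' := by rw [h]; exact hwa _
      rw [hww, const_id D a hwk' hl]
      have h3 : (((4 : ℝ) ^ a) ^ D)⁻¹ ≤ (1 / 4) ^ a := by
        rw [one_div, inv_pow]
        apply inv_anti₀ (by positivity)
        calc (4 : ℝ) ^ a = (4 ^ a) ^ 1 := (pow_one _).symm
          _ ≤ (4 ^ a) ^ D := pow_le_pow_right₀ (one_le_pow₀ (by norm_num)) hD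
      simp only [n]
      rw [hww]
      apply mul_le_mul_of_nonneg_right _ (by positivity)
      apply mul_le_mul_of_nonneg_right _ (by positivity)
      exact mul_le_mul_of_nonneg_left h3 (by norm_num)
    · simp [if_neg h]
  calc ∑ k : Fin L, ∑ k' : Fin L, ∑ i : Fin M, ∑ j : Fin M,
      (if (k : ℕ) = k' + a then w k * w k' * (if len l w a k' < (nd i j : ℝ) * η then
          (η ^ 2 * (((nd i j : ℝ) * η) ^ (D + 1))⁻¹ * (e (i, k) * e (j, k'))) else 0) else 0)
      ≤ ∑ k : Fin L, ∑ k' : Fin L, 2 * (1 / 4) ^ a * (l ^ D)⁻¹ *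
        ((if (k : ℕ) = k' + a then n k else 0) + (if (k : ℕ) = k' + a then n k' else 0)) :=
        Finset.sum_le_sum (fun k _ => Finset.sum_le_sum (fun k' _ => key k k'))
    _ = 2 * (1 / 4) ^ a * (l ^ D)⁻¹ * (∑ k : Fin L, ∑ k' : Fin L, (if (k : ℕ) = k' + a then n k
        else 0) + ∑ k : Fin L, ∑ k' : Fin L, (if (k : ℕ) = k' + a then n k' else 0)) := by
        simp only [← Finset.mul_sum, Finset.sum_add_distrib]
    _ ≤ 2 * (1 / 4) ^ a * (l ^ D)⁻¹ * (∑ k, n k + ∑ k, n k) := by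
        apply mul_le_mul_of_nonneg_left _ (by positivity)
        exact add_le_add (diag_sum_left n hn a) (diag_sum_right n hn a)
    _ = 4 * (1 / 4) ^ a * ((l ^ D)⁻¹ * tot (D + 1) η w e) := by
        rw [hnt]; ring

lemma tot_nonneg (S : Sys M L d η w e b) : 0 ≤ tot d η w e := by
  unfold tot
  apply Finset.sum_nonneg
  intro α _
  have := S.hw α.2
  have := S.hη
  positivity

/-- one off-diagonal -/
theorem Sys.off (S : Sys M L d η w e b) {l : ℝ} (hl : 0 < l)
    (hlw : ∀ k : Fin L, η * w k ≤ l) (a : ℕ)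
    (hwa : ∀ k : ℕ, w (k + a) = 256 ^ a * w k) :
    ∃ X Y : DS (Fin M × Fin L) H →L[ℂ] DS (Fin M × Fin L) H,
      Mop (fun α β => if (α.2 : ℕ) = β.2 + a then b α ∘L (b β).adjoint else 0) = X + Y ∧
      ‖X‖ ≤ 18 * l * (1 / 2) ^ a ∧
      HSb Y ((11 * (1 / 2) ^ a * Real.sqrt ((l ^ (d - 1))⁻¹ * tot d η w e)) ^ 2) := by
  have hwa' : ∀ k : ℕ, w k * 4 ^ a ≤ w (k + a) := by
    intro k
    rw [hwa, mul_comm]
    apply mul_le_mul_of_nonneg_right _ (S.hw k).le
    exact pow_le_pow_left₀ (by norm_num) (by norm_num) _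
  have hQ : 0 ≤ (l ^ (d - 1))⁻¹ * tot d η w e := mul_nonneg (by positivity) (tot_nonneg S)
  set Q := (l ^ (d - 1))⁻¹ * tot d η w e with hQdef
  have hnear := fun σ => S.near hl hlw a hwa' σ
  choose T1 T2 hT using hnear
  have hfar := S.farPart hl a hwa
  set F := Mop (fun α β => if (α.2 : ℕ) = β.2 + a ∧ ∀ σ : ℤ, σ ∈ ({-1, 0, 1} : Finset ℤ) →
        blk η (len l w a β.2) β.1 ≠ blk η (len l w a β.2) α.1 + σ then
          b α ∘L (b β).adjoint else 0) with hF
  have hquarter : ((1 / 2 : ℝ) ^ a) ^ 2 = (1 / 4) ^ a := by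
    rw [← pow_mul, mul_comm, pow_mul]; norm_num
  refine ⟨∑ σ ∈ ({-1, 0, 1} : Finset ℤ), T1 σ, ∑ σ ∈ ({-1, 0, 1} : Finset ℤ), T2 σ + F,
    ?_, ?_, ?_⟩
  · rw [← add_assoc, ← Finset.sum_add_distrib]
    simp only [← fun σ => (hT σ).1]
    rw [← Mop_sum, hF, ← Mop_add]
    congr 1
    funext α β
    by_cases h : (α.2 : ℕ) = β.2 + a
    · rw [if_pos h]
      by_cases h2 : ∃ σ : ℤ, σ ∈ ({-1, 0, 1} : Finset ℤ) ∧
        blk η (len l w a β.2) β.1 = blk η (len l w a β.2) α.1 + σ
      · obtain ⟨σ, hσ, h3⟩ := h2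
        rw [Finset.sum_eq_single_of_mem σ hσ]
        · rw [if_pos ⟨h, h3⟩, if_neg, add_zero]
          intro h4
          exact h4.2 σ hσ h3
        · intro σ' _ hne
          rw [if_neg]
          intro h4
          apply hne
          have := h4.2
          rw [h3] at this
          linarith
      · have h4 : ∀ σ : ℤ, σ ∈ ({-1, 0, 1} : Finset ℤ) →
            blk η (len l w a β.2) β.1 ≠ blk η (len l w a β.2) α.1 + σ := by
          intro σ hσ h3
          exact h2 ⟨σ, hσ, h3⟩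
        rw [if_pos ⟨h, h4⟩, Finset.sum_eq_zero, zero_add]
        intro σ hσ
        rw [if_neg]
        intro h5
        exact h4 σ hσ h5.2
    · rw [if_neg h, if_neg (fun h2 => h h2.1), Finset.sum_eq_zero, add_zero]
      intro σ _
      rw [if_neg (fun h2 => h h2.1)]
  · refine (norm_sum_le _ _).trans ?_
    refine (Finset.sum_le_sum (fun σ _ => (hT σ).2.1)).trans ?_
    rw [Finset.sum_const]
    have : ({-1, 0, 1} : Finset ℤ).card = 3 := by decide
    rw [this, nsmul_eq_mul]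
    push_cast
    linarith
  · have h1 : HSb (∑ σ ∈ ({-1, 0, 1} : Finset ℤ), T2 σ)
        ((∑ σ ∈ ({-1, 0, 1} : Finset ℤ), 3 * (1 / 2) ^ a * Real.sqrt Q) ^ 2) := by
      apply HSb.sum
      · intro σ _; positivity
      · intro σ _
        apply (hT σ).2.2.mono
        rw [mul_pow, mul_pow, Real.sq_sqrt hQ, hquarter]
        have : 0 ≤ (1 / 4 : ℝ) ^ a * Q := by positivity
        nlinarith
    have h2 : HSb F ((2 * (1 / 2) ^ a * Real.sqrt Q) ^ 2) := by
      apply hfar.mono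
      rw [mul_pow, mul_pow, Real.sq_sqrt hQ, hquarter]
      linarith
    refine (HSb.add (Finset.sum_nonneg (fun _ _ => by positivity)) (by positivity) h1 h2).mono ?_
    apply le_of_eq
    rw [Finset.sum_const]
    have : ({-1, 0, 1} : Finset ℤ).card = 3 := by decide
    rw [this, nsmul_eq_mul]
    push_cast
    ring

lemma geom_half (L : ℕ) : ∑ a ∈ Finset.range L, (1 / 2 : ℝ) ^ a ≤ 2 := by
  have h := geom_sum_eq (show (1 / 2 : ℝ) ≠ 1 by norm_num) L
  rw [h]
  have : (0:ℝ) ≤ (1 / 2) ^ L := by positivity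
  rw [div_le_iff_of_neg (by norm_num)]
  linarith

/-- **the decomposition of `B B*`** -/
theorem Sys.main (S : Sys M L d η w e b) {l : ℝ} (hl : 0 < l)
    (hlw : ∀ k : Fin L, η * w k ≤ l) (hwa : ∀ k a : ℕ, w (k + a) = 256 ^ a * w k) :
    ∃ X Y : DS (Fin M × Fin L) H →L[ℂ] DS (Fin M × Fin L) H,
      col b ∘L (col b).adjoint = X + Y ∧ ‖X‖ ≤ 72 * l ∧
      HSb Y ((44 * Real.sqrt ((l ^ (d - 1))⁻¹ * tot d η w e)) ^ 2) := by
  have hoff := fun a => S.off hl hlw a (fun k => hwa k a)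
  choose X Y hXY using hoff
  set K := Real.sqrt ((l ^ (d - 1))⁻¹ * tot d η w e) with hK
  have hK0 : 0 ≤ K := Real.sqrt_nonneg _
  refine ⟨∑ a ∈ Finset.range L, X a + ∑ a ∈ (Finset.range L).filter (fun a => a ≠ 0), (X a).adjoint,
    ∑ a ∈ Finset.range L, Y a + ∑ a ∈ (Finset.range L).filter (fun a => a ≠ 0), (Y a).adjoint,
    ?_, ?_, ?_⟩
  · have h1 : ∀ a, (X a).adjoint + (Y a).adjoint =
        Mop (fun α β => if (β.2 : ℕ) = α.2 + a then b α ∘L (b β).adjoint else 0) := by
      intro a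
      rw [← map_add, ← (hXY a).1, Mop_adjoint]
      congr 1
      funext α β
      by_cases h : (β.2 : ℕ) = α.2 + a
      · rw [if_pos h, if_pos h, ContinuousLinearMap.adjoint_comp,
          ContinuousLinearMap.adjoint_adjoint]
      · rw [if_neg h, if_neg h, map_zero]
    have h2 : ∑ a ∈ Finset.range L, X a + ∑ a ∈ (Finset.range L).filter (fun a => a ≠ 0),
        (X a).adjoint + (∑ a ∈ Finset.range L, Y a + ∑ a ∈ (Finset.range L).filter (fun a => a ≠ 0),
        (Y a).adjoint) = ∑ a ∈ Finset.range L, (X a + Y a) +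
        ∑ a ∈ (Finset.range L).filter (fun a => a ≠ 0), ((X a).adjoint + (Y a).adjoint) := by
      rw [Finset.sum_add_distrib, Finset.sum_add_distrib]
      abel
    rw [h2]
    simp only [h1, ← fun a => (hXY a).1]
    rw [← Mop_sum, ← Mop_sum, ← Mop_add, col_comp_adjoint]
    congr 1
    funext α β
    rcases le_or_gt (β.2 : ℕ) (α.2 : ℕ) with h | h
    · have hm : (α.2 : ℕ) - β.2 ∈ Finset.range L := by
        rw [Finset.mem_range]; have := α.2.2; omega
      rw [Finset.sum_eq_single_of_mem _ hm, if_pos (by omega), Finset.sum_eq_zero, add_zero]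
      · intro a ha
        rw [Finset.mem_filter] at ha
        rw [if_neg (by have := ha.2; omega)]
      · intro a _ hne
        rw [if_neg (by omega)]
    · have hm : (β.2 : ℕ) - α.2 ∈ (Finset.range L).filter (fun a => a ≠ 0) := by
        rw [Finset.mem_filter, Finset.mem_range]; have := β.2.2; omega
      rw [Finset.sum_eq_zero, zero_add, Finset.sum_eq_single_of_mem _ hm, if_pos (by omega)]
      · intro a _ hne
        rw [if_neg (by omega)]
      · intro a ha
        rw [if_neg (by omega)]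
  · have h1 : ‖∑ a ∈ Finset.range L, X a‖ ≤ 36 * l := by
      refine (norm_sum_le _ _).trans ?_
      refine (Finset.sum_le_sum (fun a _ => (hXY a).2.1)).trans ?_
      rw [← Finset.mul_sum]
      have := geom_half L
      nlinarith
    have h2 : ‖∑ a ∈ (Finset.range L).filter (fun a => a ≠ 0), (X a).adjoint‖ ≤ 36 * l := by
      refine (norm_sum_le _ _).trans ?_
      have h3 : ∀ a ∈ (Finset.range L).filter (fun a => a ≠ 0), ‖(X a).adjoint‖ ≤
          18 * l * (1 / 2) ^ a := by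
        intro a _
        rw [ContinuousLinearMap.adjoint.norm_map]
        exact (hXY a).2.1
      refine (Finset.sum_le_sum h3).trans ?_
      refine (Finset.sum_le_sum_of_subset_of_nonneg (Finset.filter_subset _ _)
        (fun a _ _ => by positivity)).trans ?_
      rw [← Finset.mul_sum]
      have := geom_half L
      nlinarith
    refine (norm_add_le _ _).trans ?_
    linarith
  · have h1 : HSb (∑ a ∈ Finset.range L, Y a)
        ((∑ a ∈ Finset.range L, 11 * (1 / 2) ^ a * K) ^ 2) :=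
      HSb.sum _ _ _ (fun a _ => by positivity) (fun a _ => (hXY a).2.2)
    have h2 : HSb (∑ a ∈ (Finset.range L).filter (fun a => a ≠ 0), (Y a).adjoint)
        ((∑ a ∈ (Finset.range L).filter (fun a => a ≠ 0), 11 * (1 / 2) ^ a * K) ^ 2) :=
      HSb.sum _ _ _ (fun a _ => by positivity) (fun a _ => (hXY a).2.2.adjoint)
    refine (HSb.add (Finset.sum_nonneg (fun _ _ => by positivity))
      (Finset.sum_nonneg (fun _ _ => by positivity)) h1 h2).mono ?_
    apply pow_le_pow_left₀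
    · apply add_nonneg <;> exact Finset.sum_nonneg (fun _ _ => by positivity)
    · have h3 : ∑ a ∈ Finset.range L, 11 * (1 / 2 : ℝ) ^ a * K ≤ 22 * K := by
        rw [← Finset.sum_mul, ← Finset.mul_sum]
        apply mul_le_mul_of_nonneg_right _ hK0
        have := geom_half L
        linarith
      have h4 : ∑ a ∈ (Finset.range L).filter (fun a => a ≠ 0), 11 * (1 / 2 : ℝ) ^ a * K
          ≤ ∑ a ∈ Finset.range L, 11 * (1 / 2 : ℝ) ^ a * K :=
        Finset.sum_le_sum_of_subset_of_nonneg (Finset.filter_subset _ _)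
          (fun a _ _ => by positivity)
      linarith

/-- **the discrete estimate** -/
theorem Sys.star (S : Sys M L d η w e b) {l : ℝ} (hl : 0 < l)
    (hlw : ∀ k : Fin L, η * w k ≤ l) (hwa : ∀ k a : ℕ, w (k + a) = 256 ^ a * w k)
    {N : ℕ} {f : Fin N → G} (hf : Orthonormal ℂ f) :
    ∑ α, ∑ j, ‖b α (f j)‖ ^ 2 ≤ N * (72 * l) +
      Real.sqrt N * (44 * Real.sqrt ((l ^ (d - 1))⁻¹ * tot d η w e)) := by
  obtain ⟨X, Y, h1, h2, h3⟩ := S.main hl hlw hwa
  have h4 := trace_le h1 (by positivity) (by positivity) h2 h3 hf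
  refine le_trans (le_of_eq ?_) h4
  rw [Finset.sum_comm]
  apply Finset.sum_congr rfl
  intro j _
  rw [nsq_DS]
  simp only [col_apply]

end Pool.Agent.L5helper79.Ons
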