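import Pool.Agent.L5helper79.Ons.Op

/-!
# Fourier transforms of integrable square integrable functions
-/

set_option autoImplicit false
set_option linter.unusedSectionVars false

open scoped InnerProductSpace ENNReal RealInnerProductSpace
open MeasureTheory FourierTransform SchwartzMap

namespace Pool.Agent.L5helper79.Ons

variable {E : Type*} [NormedAddCommGroup E] [InnerProductSpace ℝ E] [FiniteDimensional ℝ E]
  [MeasurableSpace E] [BorelSpace E]

/-- The `L²` Fourier transform of an integrable and square integrable function is the Fourier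
integral (the proof follows `fourier_toLp_ae_21560` of `Pool/Agent/Helper569/Spec.lean`). -/
theorem fourier_ae {f : E → ℂ} (h1 : Integrable f) (h2 : MemLp f 2) :
    ((𝓕 (h2.toLp f) : Lp ℂ 2 (volume : Measure E)) : E → ℂ) =ᵐ[volume] 𝓕 f := by
  have hcont : Continuous (𝓕 f) :=
    VectorFourier.fourierIntegral_continuous Real.continuous_fourierChar continuous_inner h1
  refine ae_eq_of_integral_contDiff_smul_eq ?_ hcont.locallyIntegrable ?_
  · exact (Lp.memLp (μ := (volume : Measure E))
      (𝓕 (h2.toLp f) : Lp ℂ 2 (volume : Measure E))).locallyIntegrable (by norm_num)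
  · intro g hg hgs
    have hgc : HasCompactSupport (fun x => (g x : ℂ)) := by
      refine hgs.comp_left (g := fun r : ℝ => (r : ℂ)) (by simp)
    have hgd : ContDiff ℝ ((⊤ : ℕ∞) : WithTop ℕ∞) (fun x => (g x : ℂ)) :=
      Complex.ofRealCLM.contDiff.comp hg
    set φ : SchwartzMap E ℂ := hgc.toSchwartzMap hgd with hφ
    have hφx : ∀ x, φ x = (g x : ℂ) := fun x => rfl
    have key := DFunLike.congr_fun (Lp.fourier_toTemperedDistribution_eq (h2.toLp f)) φ
    rw [TemperedDistribution.fourier_apply, Lp.toTemperedDistribution_apply (μ := volume),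
      Lp.toTemperedDistribution_apply (μ := volume)] at key
    have e1 : ∫ x : E, g x • ((𝓕 (h2.toLp f) : Lp ℂ 2 (volume : Measure E)) : E → ℂ) x =
        ∫ x, φ x • ((𝓕 (h2.toLp f) : Lp ℂ 2 (volume : Measure E)) : E → ℂ) x := by
      refine integral_congr_ae (Filter.Eventually.of_forall fun x => ?_)
      simp [hφx]
    have e2 : ∫ x, g x • 𝓕 f x = ∫ x, φ x • 𝓕 f x := by
      refine integral_congr_ae (Filter.Eventually.of_forall fun x => ?_)
      simp [hφx]
    rw [e1, ← key, e2]
    have e3 : ∫ x, (𝓕 φ) x • ((h2.toLp f : Lp ℂ 2 (volume : Measure E)) : E → ℂ) x =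
        ∫ x, (𝓕 φ) x • f x := by
      refine integral_congr_ae ?_
      filter_upwards [h2.coeFn_toLp] with x hx
      rw [hx]
    rw [e3]
    have hφi : Integrable (fun x => φ x) := φ.integrable
    have := VectorFourier.integral_fourierIntegral_smul_eq_flip (L := innerₗ E)
      (μ := volume) (ν := volume) Real.continuous_fourierChar continuous_inner hφi h1
    have hfl : (innerₗ E).flip = innerₗ E := by
      ext x y; simp
    rw [hfl] at this
    exact this

/-- the same for the inverse Fourier transform -/
theorem fourierInv_ae {f : E → ℂ} (h1 : Integrable f) (h2 : MemLp f 2) :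
    ((𝓕⁻ (h2.toLp f) : Lp ℂ 2 (volume : Measure E)) : E → ℂ) =ᵐ[volume] 𝓕⁻ f := by
  have hcont : Continuous (𝓕⁻ f) := by
    rw [Real.fourierInv_eq_fourier_comp_neg]
    exact VectorFourier.fourierIntegral_continuous Real.continuous_fourierChar continuous_inner
      h1.comp_neg
  refine ae_eq_of_integral_contDiff_smul_eq ?_ hcont.locallyIntegrable ?_
  · exact (Lp.memLp (μ := (volume : Measure E))
      (𝓕⁻ (h2.toLp f) : Lp ℂ 2 (volume : Measure E))).locallyIntegrable (by norm_num)
  · intro g hg hgs
    have hgc : HasCompactSupport (fun x => (g x : ℂ)) := by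
      refine hgs.comp_left (g := fun r : ℝ => (r : ℂ)) (by simp)
    have hgd : ContDiff ℝ ((⊤ : ℕ∞) : WithTop ℕ∞) (fun x => (g x : ℂ)) :=
      Complex.ofRealCLM.contDiff.comp hg
    set φ : SchwartzMap E ℂ := hgc.toSchwartzMap hgd with hφ
    have hφx : ∀ x, φ x = (g x : ℂ) := fun x => rfl
    have key := DFunLike.congr_fun (Lp.fourierInv_toTemperedDistribution_eq (h2.toLp f)) φ
    rw [TemperedDistribution.fourierInv_apply, Lp.toTemperedDistribution_apply (μ := volume),
      Lp.toTemperedDistribution_apply (μ := volume)] at key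
    have e1 : ∫ x : E, g x • ((𝓕⁻ (h2.toLp f) : Lp ℂ 2 (volume : Measure E)) : E → ℂ) x =
        ∫ x, φ x • ((𝓕⁻ (h2.toLp f) : Lp ℂ 2 (volume : Measure E)) : E → ℂ) x := by
      refine integral_congr_ae (Filter.Eventually.of_forall fun x => ?_)
      simp [hφx]
    have e2 : ∫ x, g x • 𝓕⁻ f x = ∫ x, φ x • 𝓕⁻ f x := by
      refine integral_congr_ae (Filter.Eventually.of_forall fun x => ?_)
      simp [hφx]
    rw [e1, ← key, e2]
    have e3 : ∫ x, (𝓕⁻ φ) x • ((h2.toLp f : Lp ℂ 2 (volume : Measure E)) : E → ℂ) x =
        ∫ x, (𝓕⁻ φ) x • f x := by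
      refine integral_congr_ae ?_
      filter_upwards [h2.coeFn_toLp] with x hx
      rw [hx]
    rw [e3]
    have hφi : Integrable (fun x => φ x) := φ.integrable
    have hcn : Continuous fun p : E × E ↦ (-innerₗ E) p.1 p.2 := by
      have : (fun p : E × E ↦ (-innerₗ E) p.1 p.2) = fun p => -⟪p.1, p.2⟫ := by
        ext p
        simp
      rw [this]
      exact continuous_inner.neg
    have := VectorFourier.integral_fourierIntegral_smul_eq_flip (L := -innerₗ E)
      (μ := volume) (ν := volume) Real.continuous_fourierChar hcn hφi h1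
    have hfl : (-innerₗ E).flip = -innerₗ E := by
      ext x y; simp [real_inner_comm]
    rw [hfl] at this
    have hfi : ∀ (u : E → ℂ) (x : E),
        VectorFourier.fourierIntegral Real.fourierChar (volume : Measure E) (-innerₗ E) u x =
          𝓕⁻ u x := by
      intro u x
      rw [Real.fourierInv_eq]
      unfold VectorFourier.fourierIntegral
      apply integral_congr_ae
      filter_upwards with v
      congr 2
      simp
    simp only [hfi] at this
    rw [← this]
    rw [SchwartzMap.fourierInv_coe]

end Pool.Agent.L5helper79.Ons
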