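import Mathlib

/-!
# Minkowski's inequality for countable sums, and Lorentz norms
-/

set_option autoImplicit false

open scoped ENNReal
open MeasureTheory Filter

namespace Pool.Agent.L5helper79.Ons

variable {α : Type*} [MeasurableSpace α] {ν : Measure α}

lemma mink_fin {p : ℝ} (hp : 1 ≤ p) (f : ℕ → α → ℝ≥0∞) (hf : ∀ i, Measurable (f i)) (n : ℕ) :
    (∫⁻ a, (∑ i ∈ Finset.range n, f i a) ^ p ∂ν) ^ (1 / p) ≤
      ∑ i ∈ Finset.range n, (∫⁻ a, (f i a) ^ p ∂ν) ^ (1 / p) := by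
  have hp0 : 0 < p := by linarith
  induction n with
  | zero => simp [hp0]
  | succ n ih =>
    rw [Finset.sum_range_succ]
    have hm : Measurable (fun a => ∑ i ∈ Finset.range n, f i a) :=
      Finset.measurable_fun_sum _ (fun i _ => hf i)
    have h := ENNReal.lintegral_Lp_add_le (μ := ν) hm.aemeasurable (hf n).aemeasurable hp
    calc (∫⁻ a, (∑ i ∈ Finset.range (n + 1), f i a) ^ p ∂ν) ^ (1 / p)
        = (∫⁻ a, ((fun a => ∑ i ∈ Finset.range n, f i a) + f n) a ^ p ∂ν) ^ (1 / p) := by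
          congr 1
          apply lintegral_congr
          intro a
          rw [Finset.sum_range_succ]
          rfl
      _ ≤ _ := h
      _ ≤ _ := by gcongr

lemma mink_nat {p : ℝ} (hp : 1 ≤ p) (f : ℕ → α → ℝ≥0∞) (hf : ∀ i, Measurable (f i)) :
    (∫⁻ a, (∑' i, f i a) ^ p ∂ν) ^ (1 / p) ≤ ∑' i, (∫⁻ a, (f i a) ^ p ∂ν) ^ (1 / p) := by
  have hp0 : 0 < p := by linarith
  have h1 : ∫⁻ a, (∑' i, f i a) ^ p ∂ν ≤ (∑' i, (∫⁻ a, (f i a) ^ p ∂ν) ^ (1 / p)) ^ p := by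
    calc ∫⁻ a, (∑' i, f i a) ^ p ∂ν
        = ∫⁻ a, liminf (fun n : ℕ => (∑ i ∈ Finset.range n, f i a) ^ p) atTop ∂ν := by
          apply lintegral_congr
          intro a
          apply (Tendsto.liminf_eq _).symm
          exact (ENNReal.continuous_rpow_const.tendsto _).comp (ENNReal.tendsto_nat_tsum _)
      _ ≤ liminf (fun n : ℕ => ∫⁻ a, (∑ i ∈ Finset.range n, f i a) ^ p ∂ν) atTop := by
          apply lintegral_liminf_le
          intro n
          exact (Finset.measurable_fun_sum _ (fun i _ => hf i)).pow_const p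
      _ ≤ (∑' i, (∫⁻ a, (f i a) ^ p ∂ν) ^ (1 / p)) ^ p := by
          apply liminf_le_of_le
          · isBoundedDefault
          · intro b hb
            obtain ⟨n, hn⟩ := (hb : ∀ᶠ n in atTop, b ≤ _).exists
            refine hn.trans ?_
            have h2 := (mink_fin (ν := ν) hp f hf n).trans (ENNReal.sum_le_tsum (Finset.range n))
            have h3 := ENNReal.rpow_le_rpow h2 hp0.le
            rwa [← ENNReal.rpow_mul, one_div_mul_cancel hp0.ne', ENNReal.rpow_one] at h3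
  have h2 := ENNReal.rpow_le_rpow h1 (show 0 ≤ 1 / p by positivity)
  rwa [← ENNReal.rpow_mul, mul_one_div_cancel hp0.ne', ENNReal.rpow_one] at h2

lemma mink_int {p : ℝ} (hp : 1 ≤ p) (f : ℤ → α → ℝ≥0∞) (hf : ∀ i, Measurable (f i)) :
    (∫⁻ a, (∑' i, f i a) ^ p ∂ν) ^ (1 / p) ≤ ∑' i, (∫⁻ a, (f i a) ^ p ∂ν) ^ (1 / p) := by
  have h := mink_nat (ν := ν) hp (fun n => f (Equiv.intEquivNat.symm n)) (fun n => hf _)
  have h1 : ∀ a, ∑' n, f (Equiv.intEquivNat.symm n) a = ∑' i, f i a := fun a =>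
    Equiv.tsum_eq Equiv.intEquivNat.symm (fun i => f i a)
  have h2 : ∑' n, (∫⁻ a, (f (Equiv.intEquivNat.symm n) a) ^ p ∂ν) ^ (1 / p) =
      ∑' i, (∫⁻ a, (f i a) ^ p ∂ν) ^ (1 / p) :=
    Equiv.tsum_eq Equiv.intEquivNat.symm (fun i => (∫⁻ a, (f i a) ^ p ∂ν) ^ (1 / p))
  simp only [h1] at h
  rwa [h2] at h

/-! ## geometric sums over `ℤ` -/

lemma geom_int (x : ℝ≥0∞) :
    ∑' l : ℤ, (if (2 : ℝ≥0∞) ^ l < x then (2 : ℝ≥0∞) ^ l else 0) ≤ 2 * x := by
  by_cases hx0 : x = 0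
  · rw [hx0]
    simp
  by_cases hxt : x = ∞
  · rw [hxt, ENNReal.mul_top (by norm_num)]
    exact le_top
  -- the largest index
  obtain ⟨l0, hl1, hl2⟩ := ENNReal.exists_mem_Ioc_zpow hx0 hxt (y := 2) (by norm_num) (by norm_num)
  have hle : ∀ l : ℤ, (2 : ℝ≥0∞) ^ l < x → l ≤ l0 := by
    intro l hl
    by_contra hcon
    push Not at hcon
    have h1 : (2 : ℝ≥0∞) ^ (l0 + 1) ≤ (2 : ℝ≥0∞) ^ l := by
      apply ENNReal.zpow_le_of_le (by norm_num)
      omega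
    exact absurd (hl.trans_le (hl2.trans h1)) (lt_irrefl _)
  have hsupp : (Function.support fun l : ℤ => if (2 : ℝ≥0∞) ^ l < x then (2 : ℝ≥0∞) ^ l else 0) ⊆
      Set.range (fun n : ℕ => l0 - (n : ℤ)) := by
    intro l hl
    rw [Function.mem_support] at hl
    have h1 : (2 : ℝ≥0∞) ^ l < x := by
      by_contra h2
      rw [if_neg h2] at hl
      exact hl rfl
    have h2 := hle l h1
    exact ⟨(l0 - l).toNat, by simp only; omega⟩
  have hinj : Function.Injective (fun n : ℕ => l0 - (n : ℤ)) := by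
    intro a b hab
    simp only at hab
    omega
  rw [← hinj.tsum_eq hsupp]
  calc ∑' n : ℕ, (if (2 : ℝ≥0∞) ^ (l0 - (n : ℤ)) < x then (2 : ℝ≥0∞) ^ (l0 - (n : ℤ)) else 0)
      ≤ ∑' n : ℕ, (2 : ℝ≥0∞) ^ l0 * (2⁻¹ : ℝ≥0∞) ^ n := by
        apply ENNReal.tsum_le_tsum
        intro n
        have h3 : (2 : ℝ≥0∞) ^ (l0 - (n : ℤ)) = (2 : ℝ≥0∞) ^ l0 * (2⁻¹ : ℝ≥0∞) ^ n := by
          rw [ENNReal.zpow_sub (by norm_num) (by norm_num)]
          congr 1
          rw [zpow_natCast, ENNReal.inv_pow]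
        rw [h3]
        split_ifs
        · exact le_rfl
        · exact zero_le
    _ = (2 : ℝ≥0∞) ^ l0 * 2 := by
        rw [ENNReal.tsum_mul_left, ENNReal.tsum_geometric, ENNReal.one_sub_inv_two, inv_inv]
    _ ≤ 2 * x := by
        rw [mul_comm]
        gcongr

/-! ## the Lorentz norm -/

/-- the decreasing rearrangement of `|a|`: `rearr a n` is the `(n+1)`-st largest value -/
noncomputable def rearr {ι : Type*} (a : ι → ℂ) (n : ℕ) : ℝ≥0∞ :=
  sInf {s : ℝ≥0∞ | {j | s < ‖a j‖ₑ}.encard ≤ n}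

/-- the norm of `ℓ^{α,1}` -/
noncomputable def lorentzNorm {ι : Type*} (α : ℝ) (a : ι → ℂ) : ℝ≥0∞ :=
  ∑' n : ℕ, ((n : ℝ≥0∞) + 1) ^ (1 / α - 1) * rearr a n

variable {ι : Type*}

lemma lt_rearr (a : ι → ℂ) (s : ℝ≥0∞) (n : ℕ) (h : (n : ℕ∞) < {j | s < ‖a j‖ₑ}.encard) :
    s < rearr a n := by
  have h1 : ((n + 1 : ℕ) : ℕ∞) ≤ {j | s < ‖a j‖ₑ}.encard := by
    push_cast
    exact Order.add_one_le_of_lt h
  obtain ⟨t, ht, htn⟩ := Set.exists_subset_encard_eq h1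
  have hfin : t.Finite := by
    rw [← Set.encard_ne_top_iff, htn]
    exact ENat.natCast_ne_top _
  have hne : t.Nonempty := by
    rw [← Set.encard_ne_zero, htn]
    simp
  obtain ⟨j0, hj0, hmin⟩ := Set.exists_min_image t (fun j => ‖a j‖ₑ) hfin hne
  refine lt_of_lt_of_le (ht hj0) ?_
  apply le_sInf
  intro s' hs'
  by_contra hcon
  rw [not_le] at hcon
  have h2 : t ⊆ {j | s' < ‖a j‖ₑ} := fun j hj => hcon.trans_le (hmin j hj)
  have h3 := (Set.encard_le_encard h2).trans hs'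
  rw [htn] at h3
  have h4 : n + 1 ≤ n := by exact_mod_cast h3
  omega

lemma cnt_nat (a : ι → ℂ) (s : ℝ≥0∞) {β : ℝ} (hβ0 : 0 < β) (hβ1 : β ≤ 1) (N : ℕ)
    (h : (N : ℕ∞) ≤ {j | s < ‖a j‖ₑ}.encard) :
    (N : ℝ≥0∞) ^ β ≤ ∑' n : ℕ, (if s < rearr a n then ((n : ℝ≥0∞) + 1) ^ (β - 1) else 0) := by
  rcases Nat.eq_zero_or_pos N with hN | hN
  · rw [hN]
    simp [hβ0]
  refine le_trans ?_ (ENNReal.sum_le_tsum (Finset.range N))
  calc (N : ℝ≥0∞) ^ β = N * (N : ℝ≥0∞) ^ (β - 1) := by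
        have hN0 : (N : ℝ≥0∞) ≠ 0 := by exact_mod_cast hN.ne'
        conv_rhs => rw [show (N : ℝ≥0∞) * (N : ℝ≥0∞) ^ (β - 1) =
          (N : ℝ≥0∞) ^ (1 : ℝ) * (N : ℝ≥0∞) ^ (β - 1) by rw [ENNReal.rpow_one]]
        rw [← ENNReal.rpow_add _ _ hN0 (ENNReal.natCast_ne_top N)]
        congr 1
        ring
    _ = ∑ n ∈ Finset.range N, (N : ℝ≥0∞) ^ (β - 1) := by
        rw [Finset.sum_const, Finset.card_range, nsmul_eq_mul]
    _ ≤ ∑ n ∈ Finset.range N, (if s < rearr a n then ((n : ℝ≥0∞) + 1) ^ (β - 1) else 0) := by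
        apply Finset.sum_le_sum
        intro n hn
        rw [Finset.mem_range] at hn
        rw [if_pos (lt_rearr a s n (lt_of_lt_of_le (by exact_mod_cast hn) h))]
        have e1 : β - 1 = -(1 - β) := by ring
        rw [e1, ENNReal.rpow_neg, ENNReal.rpow_neg]
        apply ENNReal.inv_le_inv.2
        apply ENNReal.rpow_le_rpow _ (by linarith)
        exact_mod_cast hn

lemma cnt_le (a : ι → ℂ) (s : ℝ≥0∞) {β : ℝ} (hβ0 : 0 < β) (hβ1 : β ≤ 1) :
    (({j | s < ‖a j‖ₑ}.encard : ℕ∞) : ℝ≥0∞) ^ β ≤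
      ∑' n : ℕ, (if s < rearr a n then ((n : ℝ≥0∞) + 1) ^ (β - 1) else 0) := by
  by_cases h : {j | s < ‖a j‖ₑ}.encard = ⊤
  · set S := ∑' n : ℕ, (if s < rearr a n then ((n : ℝ≥0∞) + 1) ^ (β - 1) else 0) with hS
    have h1 : ∀ N : ℕ, (N : ℝ≥0∞) ^ β ≤ S := fun N =>
      cnt_nat a s hβ0 hβ1 N (by rw [h]; exact le_top)
    have h2 : S ^ (1 / β) = ⊤ := by
      apply ENNReal.eq_top_of_forall_nnreal_le
      intro r
      obtain ⟨N, hN⟩ := exists_nat_ge r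
      have h3 := ENNReal.rpow_le_rpow (h1 N) (show 0 ≤ 1 / β by positivity)
      rw [← ENNReal.rpow_mul, mul_one_div_cancel hβ0.ne', ENNReal.rpow_one] at h3
      refine le_trans ?_ h3
      exact_mod_cast hN
    have h4 : S = ⊤ := by
      rw [ENNReal.rpow_eq_top_iff_of_pos (by positivity)] at h2
      exact h2
    rw [h4]
    exact le_top
  · obtain ⟨N, hN⟩ := ENat.ne_top_iff_exists.1 h
    rw [← hN]
    exact cnt_nat a s hβ0 hβ1 N (le_of_eq hN)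

theorem dyadic_le (a : ι → ℂ) {α : ℝ} (hα : 1 ≤ α) :
    ∑' l : ℤ, (2 : ℝ≥0∞) ^ l * (({j | (2 : ℝ≥0∞) ^ l < ‖a j‖ₑ}.encard : ℕ∞) : ℝ≥0∞) ^ (1 / α) ≤
      2 * lorentzNorm α a := by
  have hβ0 : 0 < 1 / α := by positivity
  have hβ1 : 1 / α ≤ 1 := by
    rw [div_le_one (by linarith)]
    exact hα
  calc ∑' l : ℤ, (2 : ℝ≥0∞) ^ l *
        (({j | (2 : ℝ≥0∞) ^ l < ‖a j‖ₑ}.encard : ℕ∞) : ℝ≥0∞) ^ (1 / α)
      ≤ ∑' l : ℤ, (2 : ℝ≥0∞) ^ l * ∑' n : ℕ, (if (2 : ℝ≥0∞) ^ l < rearr a n then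
          ((n : ℝ≥0∞) + 1) ^ (1 / α - 1) else 0) := by
        apply ENNReal.tsum_le_tsum
        intro l
        gcongr
        exact cnt_le a _ hβ0 hβ1
    _ = ∑' l : ℤ, ∑' n : ℕ, ((n : ℝ≥0∞) + 1) ^ (1 / α - 1) *
          (if (2 : ℝ≥0∞) ^ l < rearr a n then (2 : ℝ≥0∞) ^ l else 0) := by
        apply tsum_congr
        intro l
        rw [← ENNReal.tsum_mul_left]
        apply tsum_congr
        intro n
        split_ifs
        · rw [mul_comm]
        · simp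
    _ = ∑' n : ℕ, ((n : ℝ≥0∞) + 1) ^ (1 / α - 1) * ∑' l : ℤ,
          (if (2 : ℝ≥0∞) ^ l < rearr a n then (2 : ℝ≥0∞) ^ l else 0) := by
        rw [ENNReal.tsum_comm]
        simp only [ENNReal.tsum_mul_left]
    _ ≤ ∑' n : ℕ, ((n : ℝ≥0∞) + 1) ^ (1 / α - 1) * (2 * rearr a n) := by
        apply ENNReal.tsum_le_tsum
        intro n
        gcongr
        exact geom_int _
    _ = 2 * lorentzNorm α a := by
        unfold lorentzNorm
        rw [← ENNReal.tsum_mul_left]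
        apply tsum_congr
        intro n
        ring

end Pool.Agent.L5helper79.Ons
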