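import Pool.Agent.L5helper79.Ons.Core
import Pool.Agent.L5helper79.Ons.Mink

/-!
# The Lorentz estimate for dispersive groups
-/

set_option autoImplicit false
set_option linter.unusedSectionVars false

open scoped InnerProductSpace ENNReal
open MeasureTheory Filter

namespace Pool.Agent.L5helper79.Ons

variable {X : Type*} [MeasurableSpace X] {μ : Measure X}

/-- mixed norm of a nonnegative function -/
noncomputable def mixN (μ : Measure X) (p q : ℝ) (F : ℝ → X → ℝ≥0∞) : ℝ≥0∞ :=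
  (∫⁻ t, ((∫⁻ x, (F t x) ^ q ∂μ) ^ (1 / q)) ^ p) ^ (1 / p)

lemma mixN_mono {p q : ℝ} (hp : 0 < p) (hq : 0 < q) {F G : ℝ → X → ℝ≥0∞}
    (h : ∀ t x, F t x ≤ G t x) : mixN μ p q F ≤ mixN μ p q G := by
  unfold mixN
  gcongr
  exact h _ _

lemma mixN_tsum {p q : ℝ} (hp : 1 ≤ p) (hq : 1 ≤ q) (F : ℤ → ℝ → X → ℝ≥0∞)
    (h1 : ∀ l t, Measurable (F l t)) (h2 : ∀ l, Measurable fun t => ∫⁻ x, (F l t x) ^ q ∂μ) :
    mixN μ p q (fun t x => ∑' l, F l t x) ≤ ∑' l, mixN μ p q (F l) := by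
  have hp0 : 0 < p := by linarith
  unfold mixN
  calc (∫⁻ t, ((∫⁻ x, (∑' l, F l t x) ^ q ∂μ) ^ (1 / q)) ^ p) ^ (1 / p)
      ≤ (∫⁻ t, (∑' l, (∫⁻ x, (F l t x) ^ q ∂μ) ^ (1 / q)) ^ p) ^ (1 / p) := by
        apply ENNReal.rpow_le_rpow _ (by positivity)
        apply lintegral_mono
        intro t
        simp only
        apply ENNReal.rpow_le_rpow _ hp0.le
        exact mink_int hq (fun l => F l t) (fun l => h1 l t)
    _ ≤ _ := mink_int hp (fun l t => (∫⁻ x, (F l t x) ^ q ∂μ) ^ (1 / q))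
        (fun l => (h2 l).pow_const _)

lemma mixN_const_mul {p q : ℝ} (hp : 0 < p) (hq : 0 < q) {c : ℝ≥0∞} (hc : c ≠ ∞)
    (F : ℝ → X → ℝ≥0∞) : mixN μ p q (fun t x => c * F t x) = c * mixN μ p q F := by
  unfold mixN
  have h1 : ∀ t, (∫⁻ x, (c * F t x) ^ q ∂μ) ^ (1 / q) = c * (∫⁻ x, (F t x) ^ q ∂μ) ^ (1 / q) := by
    intro t
    simp only [ENNReal.mul_rpow_of_nonneg _ _ hq.le]
    rw [lintegral_const_mul' _ _ (ENNReal.rpow_ne_top_of_nonneg hq.le hc),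
      ENNReal.mul_rpow_of_nonneg _ _ (by positivity), ← ENNReal.rpow_mul,
      mul_one_div_cancel hq.ne', ENNReal.rpow_one]
  simp only [h1, ENNReal.mul_rpow_of_nonneg _ _ hp.le]
  rw [lintegral_const_mul' _ _ (ENNReal.rpow_ne_top_of_nonneg hp.le hc),
      ENNReal.mul_rpow_of_nonneg _ _ (by positivity), ← ENNReal.rpow_mul,
      mul_one_div_cancel hp.ne', ENNReal.rpow_one]

variable {U : ℝ → (Lp ℂ 2 μ →L[ℂ] Lp ℂ 2 μ)} {d : ℕ}

/-- time exponent -/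
noncomputable def pe (d : ℕ) : ℝ := ((d : ℝ) + 1) / d

/-- space exponent -/
noncomputable def qe (d : ℕ) : ℝ := ((d : ℝ) + 1) / ((d : ℝ) - 1)

lemma one_le_pe (hd : 2 ≤ d) : 1 ≤ pe d := by
  have hd' : (1 : ℝ) < d := by exact_mod_cast (by omega : 1 < d)
  unfold pe
  rw [one_le_div (by linarith)]
  linarith

lemma one_le_qe (hd : 2 ≤ d) : 1 ≤ qe d := by
  have hd' : (1 : ℝ) < d := by exact_mod_cast (by omega : 1 < d)
  unfold qe
  rw [one_le_div (by linarith)]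
  linarith

lemma mixN_core (D : Disp μ U d) (hd : 2 ≤ d) {ι : Type*} {f : ι → Lp ℂ 2 μ}
    (hf : Orthonormal ℂ f) (s : Finset ι) :
    mixN μ (pe d) (qe d) (fun t => dens s (fun j => U t (f j))) ≤
      ENNReal.ofReal (cg d) ^ (1 / pe d) * (s.card : ℝ≥0∞) ^ (1 / pe d) := by
  have hd' : (1 : ℝ) < d := by exact_mod_cast (by omega : 1 < d)
  have hp := one_le_pe hd
  have hq := one_le_qe hd
  have hcg : 0 ≤ cg d := by unfold cg; positivity
  unfold mixN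
  have h1 : ∀ t, ((∫⁻ x, (dens s (fun j => U t (f j)) x) ^ (qe d) ∂μ) ^ (1 / qe d)) ^ (pe d) =
      (gI μ d (dens s (fun j => U t (f j)))) ^ (((d : ℝ) - 1) / d) := by
    intro t
    rw [← ENNReal.rpow_mul]
    unfold gI
    congr 1
    unfold qe pe
    have : (d : ℝ) - 1 ≠ 0 := by linarith
    field_simp
  simp only [h1]
  rw [← ENNReal.mul_rpow_of_nonneg _ _ (by positivity)]
  apply ENNReal.rpow_le_rpow _ (by positivity)
  refine (core D hd hf s).trans (le_of_eq ?_)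
  rw [ENNReal.ofReal_mul (by positivity), mul_comm, ENNReal.ofReal_natCast]

lemma tsum_ite_mem {ι : Type*} (A : Finset ι) (y : ι → ℝ≥0∞) [DecidablePred (· ∈ A)] :
    ∑' j, (if j ∈ A then y j else 0) = ∑ j ∈ A, y j := by
  rw [tsum_eq_sum (s := A)]
  · apply Finset.sum_congr rfl
    intro j hj
    rw [if_pos hj]
  · intro j hj
    rw [if_neg hj]

/-- pointwise dyadic decomposition -/
lemma dyadic_pt {ι : Type*} (a : ι → ℂ) (A : ℤ → Finset ι)
    (hA : ∀ l j, j ∈ A l ↔ (2 : ℝ≥0∞) ^ l < ‖a j‖ₑ ∧ ‖a j‖ₑ ≤ (2 : ℝ≥0∞) ^ (l + 1))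
    (y : ι → ℝ≥0∞) :
    ∑' j, ‖a j‖ₑ * y j ≤ ∑' l : ℤ, (2 : ℝ≥0∞) ^ (l + 1) * ∑ j ∈ A l, y j := by
  classical
  calc ∑' j, ‖a j‖ₑ * y j
      ≤ ∑' j, ∑' l : ℤ, (2 : ℝ≥0∞) ^ (l + 1) * (if j ∈ A l then y j else 0) := by
        apply ENNReal.tsum_le_tsum
        intro j
        by_cases h0 : ‖a j‖ₑ = 0
        · rw [h0, zero_mul]
          exact zero_le
        · obtain ⟨l, hl⟩ := ENNReal.exists_mem_Ioc_zpow h0 enorm_ne_top (y := 2)
            (by norm_num) (by norm_num)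
          refine le_trans ?_ (ENNReal.le_tsum l)
          rw [if_pos ((hA l j).2 hl)]
          gcongr
          exact hl.2
    _ = ∑' l : ℤ, ∑' j, (2 : ℝ≥0∞) ^ (l + 1) * (if j ∈ A l then y j else 0) := ENNReal.tsum_comm
    _ = _ := by
        apply tsum_congr
        intro l
        rw [ENNReal.tsum_mul_left, tsum_ite_mem]

/-- **Lorentz estimate**, abstract form -/
theorem lorentz_abs (D : Disp μ U d) (hd : 2 ≤ d) {ι : Type*} {f : ι → Lp ℂ 2 μ}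
    (hf : Orthonormal ℂ f) (a : ι → ℂ) :
    mixN μ (pe d) (qe d) (fun t x => ∑' j, ‖a j‖ₑ * ‖(U t (f j)) x‖ₑ ^ 2) ≤
      4 * ENNReal.ofReal (cg d) ^ (1 / pe d) * lorentzNorm (pe d) a := by
  classical
  have hp := one_le_pe hd
  have hq := one_le_qe hd
  have hp0 : 0 < pe d := by linarith
  have hq0 : 0 < qe d := by linarith
  have hcg : 0 < cg d := by unfold cg; positivity
  have hC0 : ENNReal.ofReal (cg d) ^ (1 / pe d) ≠ 0 := by
    intro h
    rw [ENNReal.rpow_eq_zero_iff] at h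
    rcases h with h | h
    · rw [ENNReal.ofReal_eq_zero] at h
      linarith [h.1]
    · exact ENNReal.ofReal_ne_top h.1
  by_cases htop : lorentzNorm (pe d) a = ⊤
  · rw [htop, ENNReal.mul_top]
    · exact le_top
    · exact mul_ne_zero (by norm_num) hC0
  have hdy := dyadic_le a hp
  -- finiteness of the level sets
  have hfin : ∀ l : ℤ, {j | (2 : ℝ≥0∞) ^ l < ‖a j‖ₑ}.Finite := by
    intro l
    rw [← Set.encard_ne_top_iff]
    intro h
    have h1 := (ENNReal.le_tsum l).trans hdy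
    rw [h] at h1
    have h2 : (((⊤ : ℕ∞) : ℝ≥0∞)) ^ (1 / pe d) = ⊤ := by
      rw [ENat.toENNReal_top, ENNReal.top_rpow_of_pos (by positivity)]
    rw [h2, ENNReal.mul_top (ENNReal.zpow_pos (by norm_num) (by norm_num) l).ne'] at h1
    have h3 : 2 * lorentzNorm (pe d) a ≠ ⊤ := ENNReal.mul_ne_top (by norm_num) htop
    exact h3 (top_le_iff.1 h1)
  have hfin' : ∀ l : ℤ, {j | (2 : ℝ≥0∞) ^ l < ‖a j‖ₑ ∧ ‖a j‖ₑ ≤ (2 : ℝ≥0∞) ^ (l + 1)}.Finite :=
    fun l => (hfin l).subset (fun j hj => hj.1)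
  let A : ℤ → Finset ι := fun l => (hfin' l).toFinset
  have hA : ∀ l j, j ∈ A l ↔ (2 : ℝ≥0∞) ^ l < ‖a j‖ₑ ∧ ‖a j‖ₑ ≤ (2 : ℝ≥0∞) ^ (l + 1) := by
    intro l j
    simp [A]
  have hcard : ∀ l, ((A l).card : ℝ≥0∞) ≤
      (({j | (2 : ℝ≥0∞) ^ l < ‖a j‖ₑ}.encard : ℕ∞) : ℝ≥0∞) := by
    intro l
    have h1 : ((A l : Set ι)).encard ≤ {j | (2 : ℝ≥0∞) ^ l < ‖a j‖ₑ}.encard := by
      apply Set.encard_le_encard
      intro j hj
      exact ((hA l j).1 hj).1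
    rw [Set.encard_coe_eq_coe_finsetCard] at h1
    have h2 : (((A l).card : ℕ∞) : ℝ≥0∞) ≤
      (({j | (2 : ℝ≥0∞) ^ l < ‖a j‖ₑ}.encard : ℕ∞) : ℝ≥0∞) := ENat.toENNReal_le.2 h1
    simpa using h2
  have h2top : ∀ l : ℤ, (2 : ℝ≥0∞) ^ l ≠ ⊤ := fun l =>
    (ENNReal.zpow_lt_top (by norm_num) (by norm_num) l).ne
  calc mixN μ (pe d) (qe d) (fun t x => ∑' j, ‖a j‖ₑ * ‖(U t (f j)) x‖ₑ ^ 2)
      ≤ mixN μ (pe d) (qe d) (fun t x => ∑' l : ℤ, (2 : ℝ≥0∞) ^ (l + 1) *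
          dens (A l) (fun j => U t (f j)) x) := by
        apply mixN_mono hp0 hq0
        intro t x
        exact dyadic_pt a A hA (fun j => ‖(U t (f j)) x‖ₑ ^ 2)
    _ ≤ ∑' l : ℤ, mixN μ (pe d) (qe d) (fun t x => (2 : ℝ≥0∞) ^ (l + 1) *
          dens (A l) (fun j => U t (f j)) x) := by
        apply mixN_tsum hp hq
        · intro l t
          exact (dens_meas _ _).const_mul _
        · intro l
          have h1 : ∀ t, ∫⁻ x, ((2 : ℝ≥0∞) ^ (l + 1) * dens (A l) (fun j => U t (f j)) x) ^ (qe d)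
              ∂μ = ((2 : ℝ≥0∞) ^ (l + 1)) ^ (qe d) * gI μ d (dens (A l) (fun j => U t (f j))) := by
            intro t
            simp only [ENNReal.mul_rpow_of_nonneg _ _ hq0.le]
            rw [lintegral_const_mul' _ _ (ENNReal.rpow_ne_top_of_nonneg hq0.le (h2top _))]
            rfl
          simp only [h1]
          exact (gI_meas D hd (A l) f).const_mul _
    _ = ∑' l : ℤ, (2 : ℝ≥0∞) ^ (l + 1) * mixN μ (pe d) (qe d)
          (fun t => dens (A l) (fun j => U t (f j))) := by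
        apply tsum_congr
        intro l
        exact mixN_const_mul hp0 hq0 (h2top _) _
    _ ≤ ∑' l : ℤ, (2 : ℝ≥0∞) ^ (l + 1) * (ENNReal.ofReal (cg d) ^ (1 / pe d) *
          (({j | (2 : ℝ≥0∞) ^ l < ‖a j‖ₑ}.encard : ℕ∞) : ℝ≥0∞) ^ (1 / pe d)) := by
        apply ENNReal.tsum_le_tsum
        intro l
        refine mul_le_mul_right ((mixN_core D hd hf (A l)).trans ?_) _
        refine mul_le_mul_right ?_ _
        exact ENNReal.rpow_le_rpow (hcard l) (by positivity)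
    _ = 2 * ENNReal.ofReal (cg d) ^ (1 / pe d) * ∑' l : ℤ, (2 : ℝ≥0∞) ^ l *
          (({j | (2 : ℝ≥0∞) ^ l < ‖a j‖ₑ}.encard : ℕ∞) : ℝ≥0∞) ^ (1 / pe d) := by
        rw [← ENNReal.tsum_mul_left]
        apply tsum_congr
        intro l
        rw [ENNReal.zpow_add (by norm_num) (by norm_num), zpow_one]
        ring
    _ ≤ 2 * ENNReal.ofReal (cg d) ^ (1 / pe d) * (2 * lorentzNorm (pe d) a) := by gcongr
    _ = _ := by ring

end Pool.Agent.L5helper79.Ons
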