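import Pool.Agent.L5helper79.Ons.Kern
import Pool.Agent.L5helper79.Ons.Lor

/-!
# Measurability and convergence of the full sums
-/

set_option autoImplicit false
set_option linter.unusedSectionVars false

open scoped InnerProductSpace ENNReal
open MeasureTheory Filter

namespace Pool.Agent.L5helper79.Ons

variable {X : Type*} [MeasurableSpace X] {μ : Measure X}
variable {U : ℝ → (Lp ℂ 2 μ →L[ℂ] Lp ℂ 2 μ)} {d : ℕ}

/-- the full density -/
noncomputable def full {ι : Type*} (a : ι → ℂ) (h : ι → Lp ℂ 2 μ) (x : X) : ℝ≥0∞ :=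
  ∑' j, ‖a j‖ₑ * ‖(h j) x‖ₑ ^ 2

lemma full_meas {ι : Type*} [Countable ι] (a : ι → ℂ) (h : ι → Lp ℂ 2 μ) :
    Measurable (full a h) := by
  unfold full
  apply Measurable.tsum
  intro j
  exact ((Lp.stronglyMeasurable (h j)).measurable.enorm.pow_const 2).const_mul _

/-- scaled system -/
lemma dens_scaled {ι : Type*} (s : Finset ι) (a : ι → ℂ) (h : ι → Lp ℂ 2 μ) :
    dens s (fun j => ((Real.sqrt ‖a j‖ : ℝ) : ℂ) • h j) =ᵐ[μ]
      fun x => ∑ j ∈ s, ‖a j‖ₑ * ‖(h j) x‖ₑ ^ 2 := by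
  have h1 : ∀ᵐ x ∂μ, ∀ j ∈ s, (((Real.sqrt ‖a j‖ : ℝ) : ℂ) • h j : Lp ℂ 2 μ) x =
      ((Real.sqrt ‖a j‖ : ℝ) : ℂ) • (h j) x := by
    rw [Finset.eventually_all]
    intro j _
    filter_upwards [Lp.coeFn_smul ((Real.sqrt ‖a j‖ : ℝ) : ℂ) (h j)] with x hx
    rw [hx, Pi.smul_apply]
  filter_upwards [h1] with x hx
  unfold dens
  apply Finset.sum_congr rfl
  intro j hj
  rw [hx j hj, enorm_smul, mul_pow]
  congr 1
  rw [← ofReal_norm, ← ENNReal.ofReal_pow (norm_nonneg _), Complex.norm_real, Real.norm_eq_abs,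
    sq_abs, Real.sq_sqrt (norm_nonneg _), ofReal_norm]

lemma full_gI_meas (D : Disp μ U d) (hd : 2 ≤ d) {ι : Type*} [Countable ι] (f : ι → Lp ℂ 2 μ)
    (a : ι → ℂ) : Measurable (fun t => gI μ d (full a (fun j => U t (f j)))) := by
  have hd' : (1 : ℝ) < d := by exact_mod_cast (by omega : 1 < d)
  have hq : 0 ≤ ((d : ℝ) + 1) / ((d : ℝ) - 1) := by
    apply div_nonneg <;> linarith
  obtain ⟨xs, hmono, hxs⟩ := exists_seq_monotone_tendsto_atTop_atTop (Finset ι)
  apply measurable_of_tendsto_metrizable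
    (f := fun (n : ℕ) t => gI μ d (dens (xs n)
      (fun j => U t (((Real.sqrt ‖a j‖ : ℝ) : ℂ) • f j))))
  · intro n
    exact gI_meas D hd (xs n) (fun j => ((Real.sqrt ‖a j‖ : ℝ) : ℂ) • f j)
  · rw [tendsto_pi_nhds]
    intro t
    have h1 : ∀ n, gI μ d (dens (xs n) (fun j => U t (((Real.sqrt ‖a j‖ : ℝ) : ℂ) • f j))) =
        ∫⁻ x, (∑ j ∈ xs n, ‖a j‖ₑ * ‖(U t (f j)) x‖ₑ ^ 2) ^ (((d : ℝ) + 1) / ((d : ℝ) - 1)) ∂μ := by
      intro n
      unfold gI
      apply lintegral_congr_ae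
      simp only [map_smul]
      filter_upwards [dens_scaled (xs n) a (fun j => U t (f j))] with x hx
      rw [hx]
    simp only [h1]
    apply lintegral_tendsto_of_tendsto_of_monotone
    · intro n
      apply Measurable.aemeasurable
      apply Measurable.pow_const
      apply Finset.measurable_fun_sum
      intro j _
      exact ((Lp.stronglyMeasurable (U t (f j))).measurable.enorm.pow_const 2).const_mul _
    · filter_upwards with x
      intro n m hnm
      apply ENNReal.rpow_le_rpow _ hq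
      exact Finset.sum_le_sum_of_subset (hmono hnm)
    · filter_upwards with x
      apply (ENNReal.continuous_rpow_const.tendsto _).comp
      exact (ENNReal.summable.hasSum
        (f := fun j => ‖a j‖ₑ * ‖(U t (f j)) x‖ₑ ^ 2)).comp hxs

theorem full_summable (D : Disp μ U d) (hd : 2 ≤ d) {ι : Type*} [Countable ι]
    {f : ι → Lp ℂ 2 μ} (hf : Orthonormal ℂ f) (a : ι → ℂ) (ha : lorentzNorm (pe d) a ≠ ∞) :
    ∀ᵐ t : ℝ, ∀ᵐ x ∂μ, Summable (fun j => ‖a j‖ * ‖(U t (f j)) x‖ ^ 2) := by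
  have hd' : (1 : ℝ) < d := by exact_mod_cast (by omega : 1 < d)
  have hp := one_le_pe hd
  have hq := one_le_qe hd
  have hp0 : 0 < pe d := by linarith
  have hq0 : 0 < qe d := by linarith
  have h0 := lorentz_abs D hd hf a
  have h1 : mixN μ (pe d) (qe d) (fun t x => ∑' j, ‖a j‖ₑ * ‖(U t (f j)) x‖ₑ ^ 2) ≠ ∞ := by
    apply ne_top_of_le_ne_top _ h0
    apply ENNReal.mul_ne_top _ ha
    apply ENNReal.mul_ne_top (by norm_num)
    exact ENNReal.rpow_ne_top_of_nonneg (by positivity) ENNReal.ofReal_ne_top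
  unfold mixN at h1
  have h2 : ∫⁻ t, ((∫⁻ x, (full a (fun j => U t (f j)) x) ^ (qe d) ∂μ) ^ (1 / qe d)) ^ (pe d)
      ≠ ∞ := by
    intro h
    apply h1
    unfold full at h
    rw [h, ENNReal.top_rpow_of_pos (by positivity)]
  have hm : Measurable (fun t => ∫⁻ x, (full a (fun j => U t (f j)) x) ^ (qe d) ∂μ) :=
    full_gI_meas D hd f a
  have h3 := ae_lt_top ((hm.pow_const (1 / qe d)).pow_const (pe d)) h2
  filter_upwards [h3] with t ht
  have h4 : ∫⁻ x, (full a (fun j => U t (f j)) x) ^ (qe d) ∂μ ≠ ∞ := by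
    intro h
    rw [h, ENNReal.top_rpow_of_pos (by positivity), ENNReal.top_rpow_of_pos hp0] at ht
    exact absurd ht (lt_irrefl _)
  have h5 := ae_lt_top ((full_meas a (fun j => U t (f j))).pow_const (qe d)) h4
  filter_upwards [h5] with x hx
  have h6 : full a (fun j => U t (f j)) x ≠ ∞ := by
    intro h
    rw [h, ENNReal.top_rpow_of_pos hq0] at hx
    exact absurd hx (lt_irrefl _)
  have h7 := ENNReal.summable_toReal h6
  refine h7.congr (fun j => ?_)
  rw [ENNReal.toReal_mul, ENNReal.toReal_pow, toReal_enorm, toReal_enorm]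

end Pool.Agent.L5helper79.Ons
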