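import Mathlib

/-!
# Level sets of the dual function
-/

set_option autoImplicit false
set_option linter.unusedSectionVars false

open scoped ENNReal
open MeasureTheory

namespace Pool.Agent.L5helper79.Ons

variable {X : Type*} [MeasurableSpace X] {μ : Measure X}

/-- the truncated functional -/
noncomputable def gR (μ : Measure X) (d : ℕ) (R : ℝ) (ρ : X → ℝ≥0∞) : ℝ≥0∞ :=
  ∫⁻ x, ρ x * (min (ρ x) (ENNReal.ofReal R)) ^ (2 / ((d : ℝ) - 1)) ∂μ

/-- truncated power of the functional -/
noncomputable def GR (μ : Measure X) (d : ℕ) (R : ℝ) (ρ : X → ℝ≥0∞) : ℝ≥0∞ :=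
  if ENNReal.ofReal (1 / R) ≤ gR μ d R ρ then (gR μ d R ρ) ^ (((d : ℝ) - 1) / d) else 0

/-- the largest value of the dual function -/
noncomputable def Vmax (d : ℕ) (R : ℝ) : ℝ := R ^ (1 / (d : ℝ)) * R ^ (2 / ((d : ℝ) - 1))

lemma gR_le {d : ℕ} {R : ℝ} (hd : 2 ≤ d) (ρ : X → ℝ≥0∞) :
    gR μ d R ρ ≤ ENNReal.ofReal R ^ (2 / ((d : ℝ) - 1)) * ∫⁻ x, ρ x ∂μ := by
  have hd' : (1 : ℝ) < d := by exact_mod_cast (by omega : 1 < d)
  unfold gR
  rw [← lintegral_const_mul']
  · apply lintegral_mono
    intro x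
    simp only
    rw [mul_comm]
    apply mul_le_mul_left
    apply ENNReal.rpow_le_rpow (min_le_right _ _)
    apply div_nonneg (by norm_num)
    linarith
  · apply ENNReal.rpow_ne_top_of_nonneg
    · apply div_nonneg (by norm_num)
      linarith
    · exact ENNReal.ofReal_ne_top

theorem levels {d : ℕ} (hd : 2 ≤ d) (ρ : X → ℝ≥0∞) (hρ : Measurable ρ) {N : ℝ} (hN0 : 0 ≤ N)
    (hN : ∫⁻ x, ρ x ∂μ ≤ ENNReal.ofReal N) {R : ℝ} (hR : 0 < R) {v : ℝ} (hv : 0 < v) {L : ℕ}
    (hL : Vmax d R < v * 256 ^ L) :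
    ∃ E : Fin L → Set X, (∀ k, MeasurableSet (E k)) ∧ (∀ k, μ (E k) ≠ ∞) ∧
      ∑ k : Fin L, (v * 256 ^ (k : ℕ)) ^ (d + 1) * (μ (E k)).toReal ^ 2 ≤ (GR μ d R ρ).toReal ∧
      (GR μ d R ρ).toReal ≤ v * N + 256 * ∑ k : Fin L, v * 256 ^ (k : ℕ) *
        (∫⁻ x in E k, ρ x ∂μ).toReal := by
  have hd' : (1 : ℝ) < d := by exact_mod_cast (by omega : 1 < d)
  by_cases hg : ENNReal.ofReal (1 / R) ≤ gR μ d R ρ
  swap
  · refine ⟨fun _ => ∅, fun _ => MeasurableSet.empty, fun _ => by simp, ?_, ?_⟩
    · unfold GR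
      rw [if_neg hg]
      simp
    · unfold GR
      rw [if_neg hg]
      simp
      positivity
  have hGR : GR μ d R ρ = (gR μ d R ρ) ^ (((d : ℝ) - 1) / d) := by
    unfold GR
    rw [if_pos hg]
  rw [hGR]
  set g := gR μ d R ρ with hgdef
  have hgtop : g ≠ ∞ := by
    apply ne_top_of_le_ne_top _ (gR_le hd ρ)
    apply ENNReal.mul_ne_top
    · apply ENNReal.rpow_ne_top_of_nonneg
      · apply div_nonneg (by norm_num)
        linarith
      · exact ENNReal.ofReal_ne_top
    · exact ne_top_of_le_ne_top ENNReal.ofReal_ne_top hN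
  have hg0 : g ≠ 0 := by
    intro h
    rw [h, nonpos_iff_eq_zero, ENNReal.ofReal_eq_zero] at hg
    have : 0 < 1 / R := by positivity
    linarith
  set r : ℝ := 2 / ((d : ℝ) - 1) with hr
  have hr0 : 0 < r := by
    apply div_pos (by norm_num)
    linarith
  -- the dual function
  let V : X → ℝ≥0∞ := fun x => g ^ (-(1 / (d : ℝ))) * (min (ρ x) (ENNReal.ofReal R)) ^ r
  have hVmeas : Measurable V := ((hρ.min measurable_const).pow_const r).const_mul _
  have hVmax : ∀ x, V x ≤ ENNReal.ofReal (Vmax d R) := by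
    intro x
    simp only [V, Vmax]
    rw [ENNReal.ofReal_mul (by positivity)]
    apply mul_le_mul'
    · rw [ENNReal.rpow_neg]
      have h1 : ENNReal.ofReal (1 / R) ^ (1 / (d : ℝ)) ≤ g ^ (1 / (d : ℝ)) :=
        ENNReal.rpow_le_rpow hg (by positivity)
      have h2 : ENNReal.ofReal (R ^ (1 / (d : ℝ))) = (ENNReal.ofReal (1 / R) ^ (1 / (d : ℝ)))⁻¹ := by
        rw [ENNReal.ofReal_rpow_of_pos (by positivity), ← ENNReal.ofReal_inv_of_pos (by positivity),
          one_div R, Real.inv_rpow hR.le, inv_inv]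
      rw [h2]
      exact ENNReal.inv_le_inv.2 h1
    · rw [← ENNReal.ofReal_rpow_of_pos hR]
      exact ENNReal.rpow_le_rpow (min_le_right _ _) hr0.le
  -- weights
  let w : ℕ → ℝ≥0∞ := fun k => ENNReal.ofReal (v * 256 ^ k)
  let E : Fin L → Set X := fun k => {x | w k ≤ V x ∧ V x < w (k + 1)}
  have hEmeas : ∀ k, MeasurableSet (E k) := by
    intro k
    exact (measurableSet_le measurable_const hVmeas).inter
      (measurableSet_lt hVmeas measurable_const)
  have hwmono : ∀ k k' : ℕ, k ≤ k' → w k ≤ w k' := by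
    intro k k' hk
    apply ENNReal.ofReal_le_ofReal
    apply mul_le_mul_of_nonneg_left _ hv.le
    exact pow_le_pow_right₀ (by norm_num) hk
  have hdisj : ∀ x, ∀ k k' : Fin L, x ∈ E k → x ∈ E k' → k = k' := by
    intro x k k' h1 h2
    have h1' : w k ≤ V x ∧ V x < w (k + 1) := h1
    have h2' : w k' ≤ V x ∧ V x < w (k' + 1) := h2
    by_contra hne
    rcases lt_or_gt_of_ne (fun h => hne (Fin.ext h) : (k : ℕ) ≠ k') with h | h
    · exact absurd (h2'.1.trans_lt h1'.2) (not_lt.2 (hwmono _ _ (by omega)))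
    · exact absurd (h1'.1.trans_lt h2'.2) (not_lt.2 (hwmono _ _ (by omega)))
  -- pointwise bounds
  set Q : ℝ := ((d : ℝ) + 1) / 2 with hQ
  have hQ0 : 0 < Q := by positivity
  have hpt1 : ∀ x, ∑ k : Fin L, (E k).indicator (fun _ => (w k) ^ Q) x ≤ (V x) ^ Q := by
    intro x
    by_cases h : ∃ k, x ∈ E k
    · obtain ⟨k, hk⟩ := h
      rw [Finset.sum_eq_single_of_mem k (Finset.mem_univ _)]
      · rw [Set.indicator_of_mem hk]
        have hk' : w k ≤ V x ∧ V x < w (k + 1) := hk
        exact ENNReal.rpow_le_rpow hk'.1 hQ0.le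
      · intro k' _ hne
        rw [Set.indicator_of_notMem]
        intro hk'
        exact hne (hdisj x k' k hk' hk)
    · rw [Finset.sum_eq_zero]
      · exact zero_le
      · intro k _
        rw [Set.indicator_of_notMem]
        exact fun hk => h ⟨k, hk⟩
  have hpt2 : ∀ x, V x ≤ ENNReal.ofReal v + 256 * ∑ k : Fin L, (E k).indicator (fun _ => w k) x := by
    intro x
    by_cases h : V x < ENNReal.ofReal v
    · exact h.le.trans (le_add_right le_rfl)
    · rw [not_lt] at h
      have hex : ∃ k : ℕ, k < L ∧ w k ≤ V x ∧ V x < w (k + 1) := by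
        have hVL : V x < w L := by
          apply (hVmax x).trans_lt
          exact (ENNReal.ofReal_lt_ofReal_iff (by positivity)).2 hL
        by_contra hcon
        push Not at hcon
        have : ∀ k ≤ L, w k ≤ V x := by
          intro k
          induction k with
          | zero => intro _; simpa [w] using h
          | succ k ih => intro hk; exact hcon k (by omega) (ih (by omega))
        exact absurd hVL (not_lt.2 (this L le_rfl))
      obtain ⟨k, hk, h1, h2⟩ := hex
      have h3 : (E ⟨k, hk⟩).indicator (fun _ => w k) x ≤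
          ∑ k : Fin L, (E k).indicator (fun _ => w k) x :=
        Finset.single_le_sum (f := fun k : Fin L => (E k).indicator (fun _ => w k) x)
          (fun _ _ => zero_le) (Finset.mem_univ (⟨k, hk⟩ : Fin L))
      have hmem : x ∈ E ⟨k, hk⟩ := ⟨h1, h2⟩
      rw [Set.indicator_of_mem hmem] at h3
      have h4 : w (k + 1) = 256 * w k := by
        simp only [w]
        rw [show (256 : ℝ≥0∞) = ENNReal.ofReal 256 by norm_num,
          ← ENNReal.ofReal_mul (by norm_num)]
        congr 1
        ring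
      calc V x ≤ w (k + 1) := h2.le
        _ = 256 * w k := h4
        _ ≤ 256 * ∑ k : Fin L, (E k).indicator (fun _ => w k) x := by gcongr
        _ ≤ _ := le_add_self
  -- integrated bounds
  have hint1 : ∑ k : Fin L, (w k) ^ Q * μ (E k) ≤ g ^ ((((d : ℝ) - 1) / d) / 2) := by
    calc ∑ k : Fin L, (w k) ^ Q * μ (E k)
        = ∫⁻ x, ∑ k : Fin L, (E k).indicator (fun _ => (w k) ^ Q) x ∂μ := by
          rw [lintegral_finsetSum]
          · apply Finset.sum_congr rfl
            intro k _
            rw [lintegral_indicator_const (hEmeas k)]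
          · intro k _
            exact measurable_const.indicator (hEmeas k)
      _ ≤ ∫⁻ x, (V x) ^ Q ∂μ := lintegral_mono hpt1
      _ ≤ ∫⁻ x, g ^ (-(Q / d)) * (ρ x * (min (ρ x) (ENNReal.ofReal R)) ^ r) ∂μ := by
          apply lintegral_mono
          intro x
          simp only [V]
          rw [ENNReal.mul_rpow_of_nonneg _ _ hQ0.le, ← ENNReal.rpow_mul, ← ENNReal.rpow_mul]
          have e1 : -(1 / (d : ℝ)) * Q = -(Q / d) := by ring
          rw [e1]
          apply mul_le_mul_right
          have e2 : r * Q = 1 + r := by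
            rw [hr, hQ]
            have : (d : ℝ) - 1 ≠ 0 := by linarith
            field_simp
            ring
          rw [e2, ENNReal.rpow_add_of_nonneg _ _ zero_le_one hr0.le, ENNReal.rpow_one]
          exact mul_le_mul_left (min_le_left _ _) _
      _ = g ^ (-(Q / d)) * g := by
          rw [lintegral_const_mul']
          · rfl
          · apply ENNReal.rpow_ne_top_of_ne_zero hg0 hgtop
      _ = g ^ ((((d : ℝ) - 1) / d) / 2) := by
          conv_lhs => rw [show g ^ (-(Q / d)) * g = g ^ (-(Q / d)) * g ^ (1 : ℝ) by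
            rw [ENNReal.rpow_one]]
          rw [← ENNReal.rpow_add _ _ hg0 hgtop]
          congr 1
          rw [hQ]
          field_simp
          ring
  have hint2 : g ^ (((d : ℝ) - 1) / d) ≤ ENNReal.ofReal v * ENNReal.ofReal N +
      256 * ∑ k : Fin L, w k * ∫⁻ x in E k, ρ x ∂μ := by
    calc g ^ (((d : ℝ) - 1) / d) = g ^ (-(1 / (d : ℝ))) * g := by
          conv_rhs => rw [show g ^ (-(1 / (d : ℝ))) * g = g ^ (-(1 / (d : ℝ))) * g ^ (1 : ℝ) by
            rw [ENNReal.rpow_one]]
          rw [← ENNReal.rpow_add _ _ hg0 hgtop]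
          congr 1
          field_simp
          ring
      _ = ∫⁻ x, V x * ρ x ∂μ := by
          refine (lintegral_const_mul' (g ^ (-(1 / (d : ℝ))))
            (fun x => ρ x * (min (ρ x) (ENNReal.ofReal R)) ^ r)
            (ENNReal.rpow_ne_top_of_ne_zero hg0 hgtop)).symm.trans ?_
          apply lintegral_congr
          intro x
          simp only [V]
          ring
      _ ≤ ∫⁻ x, (ENNReal.ofReal v * ρ x + 256 * ∑ k : Fin L, w k * (E k).indicator ρ x) ∂μ := by
          apply lintegral_mono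
          intro x
          simp only
          refine (mul_le_mul_left (hpt2 x) (ρ x)).trans (le_of_eq ?_)
          rw [add_mul, mul_assoc, Finset.sum_mul]
          congr 2
          apply Finset.sum_congr rfl
          intro k _
          by_cases hk : x ∈ E k
          · rw [Set.indicator_of_mem hk, Set.indicator_of_mem hk]
          · rw [Set.indicator_of_notMem hk, Set.indicator_of_notMem hk]
            simp
      _ = ENNReal.ofReal v * ∫⁻ x, ρ x ∂μ + 256 * ∑ k : Fin L, w k * ∫⁻ x in E k, ρ x ∂μ := by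
          rw [lintegral_add_left (hρ.const_mul _), lintegral_const_mul _ hρ,
            lintegral_const_mul, lintegral_finsetSum]
          · congr 2
            apply Finset.sum_congr rfl
            intro k _
            rw [lintegral_const_mul _ (hρ.indicator (hEmeas k)), lintegral_indicator (hEmeas k)]
          · intro k _
            exact (hρ.indicator (hEmeas k)).const_mul _
          · exact Finset.measurable_sum _ (fun k _ => (hρ.indicator (hEmeas k)).const_mul _)
      _ ≤ _ := by gcongr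
  have hwpos : ∀ k, w k ≠ 0 := by
    intro k
    simp only [w, ne_eq, ENNReal.ofReal_eq_zero, not_le]
    positivity
  have hwtop : ∀ k, w k ≠ ∞ := fun k => ENNReal.ofReal_ne_top
  have hEfin : ∀ k, μ (E k) ≠ ∞ := by
    intro k hk
    have h1 : (w k) ^ Q * μ (E k) ≤ g ^ ((((d : ℝ) - 1) / d) / 2) :=
      (Finset.single_le_sum (f := fun k : Fin L => (w k) ^ Q * μ (E k))
        (fun _ _ => zero_le) (Finset.mem_univ k)).trans hint1
    rw [hk, ENNReal.mul_top] at h1
    · have h2 : g ^ ((((d : ℝ) - 1) / d) / 2) ≠ ∞ := ENNReal.rpow_ne_top_of_ne_zero hg0 hgtop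
      exact h2 (top_le_iff.1 h1)
    · intro h
      rw [ENNReal.rpow_eq_zero_iff] at h
      rcases h with h | h
      · exact hwpos k h.1
      · exact hwtop k h.1
  refine ⟨E, hEmeas, hEfin, ?_, ?_⟩
  · -- square the first bound
    have h1 := ENNReal.toReal_mono (ENNReal.rpow_ne_top_of_ne_zero hg0 hgtop) hint1
    rw [ENNReal.toReal_sum] at h1
    · have h2 : ∀ k : Fin L, ((w k) ^ Q * μ (E k)).toReal =
          (v * 256 ^ (k : ℕ)) ^ Q * (μ (E k)).toReal := by
        intro k
        rw [ENNReal.toReal_mul, ← ENNReal.toReal_rpow]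
        simp only [w]
        rw [ENNReal.toReal_ofReal (by positivity)]
      simp only [h2] at h1
      have h3 : ∑ k : Fin L, (v * 256 ^ (k : ℕ)) ^ (d + 1) * (μ (E k)).toReal ^ 2
          = ∑ k : Fin L, ((v * 256 ^ (k : ℕ)) ^ Q * (μ (E k)).toReal) ^ 2 := by
        apply Finset.sum_congr rfl
        intro k _
        rw [mul_pow ((v * 256 ^ (k : ℕ)) ^ Q)]
        congr 1
        rw [← Real.rpow_natCast _ 2, ← Real.rpow_mul (by positivity), ← Real.rpow_natCast]
        congr 1
        rw [hQ]
        push_cast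
        ring
      rw [h3]
      have h4 : ∑ k : Fin L, ((v * 256 ^ (k : ℕ)) ^ Q * (μ (E k)).toReal) ^ 2
          ≤ (∑ k : Fin L, (v * 256 ^ (k : ℕ)) ^ Q * (μ (E k)).toReal) ^ 2 := by
        apply Finset.sum_sq_le_sq_sum_of_nonneg
        intro k _
        positivity
      refine h4.trans ?_
      refine (pow_le_pow_left₀ (Finset.sum_nonneg (fun k _ => by positivity)) h1 2).trans ?_
      apply le_of_eq
      rw [← ENNReal.toReal_pow, ← ENNReal.rpow_natCast, ← ENNReal.rpow_mul]
      congr 2
      push_cast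
      ring
    · intro k _
      exact ENNReal.mul_ne_top (ENNReal.rpow_ne_top_of_nonneg hQ0.le (hwtop k)) (hEfin k)
  · have hρE : ∀ k, ∫⁻ x in E k, ρ x ∂μ ≠ ∞ := fun k =>
      ne_top_of_le_ne_top ENNReal.ofReal_ne_top ((setLIntegral_le_lintegral _ _).trans hN)
    have hS : ∑ k : Fin L, w k * ∫⁻ x in E k, ρ x ∂μ ≠ ∞ := by
      apply ENNReal.sum_ne_top.2
      intro k _
      exact ENNReal.mul_ne_top (hwtop k) (hρE k)
    have h1 := ENNReal.toReal_mono (by
      apply ENNReal.add_ne_top.2
      exact ⟨ENNReal.mul_ne_top ENNReal.ofReal_ne_top ENNReal.ofReal_ne_top,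
        ENNReal.mul_ne_top (by norm_num) hS⟩) hint2
    refine h1.trans (le_of_eq ?_)
    rw [ENNReal.toReal_add (ENNReal.mul_ne_top ENNReal.ofReal_ne_top ENNReal.ofReal_ne_top)
      (ENNReal.mul_ne_top (by norm_num) hS), ENNReal.toReal_mul, ENNReal.toReal_ofReal hv.le,
      ENNReal.toReal_ofReal hN0, ENNReal.toReal_mul, ENNReal.toReal_sum]
    · congr 2
      apply Finset.sum_congr rfl
      intro k _
      rw [ENNReal.toReal_mul]
      simp only [w]
      rw [ENNReal.toReal_ofReal (by positivity)]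
    · intro k _
      exact ENNReal.mul_ne_top (hwtop k) (hρE k)

end Pool.Agent.L5helper79.Ons
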