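import Pool.Agent.L5helper79.Ons.Disp
import Pool.Agent.L5helper79.Ons.Levels

/-!
# The bound on one time grid
-/

set_option autoImplicit false
set_option linter.unusedSectionVars false

open scoped InnerProductSpace ENNReal
open MeasureTheory

namespace Pool.Agent.L5helper79.Ons

variable {X : Type*} [MeasurableSpace X] {μ : Measure X}
variable {U : ℝ → (Lp ℂ 2 μ →L[ℂ] Lp ℂ 2 μ)} {d : ℕ}

/-- density of a finite system -/
noncomputable def dens {ι : Type*} (s : Finset ι) (h : ι → Lp ℂ 2 μ) (x : X) : ℝ≥0∞ :=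
  ∑ j ∈ s, ‖h j x‖ₑ ^ 2

lemma dens_meas {ι : Type*} (s : Finset ι) (h : ι → Lp ℂ 2 μ) : Measurable (dens s h) := by
  unfold dens
  apply Finset.measurable_fun_sum
  intro j _
  exact (Lp.stronglyMeasurable (h j)).measurable.enorm.pow_const 2

lemma dens_set {ι : Type*} (s : Finset ι) (h : ι → Lp ℂ 2 μ) {E : Set X} (hE : MeasurableSet E) :
    ∫⁻ x in E, dens s h x ∂μ = ENNReal.ofReal (∑ j ∈ s, ‖ind μ hE (h j)‖ ^ 2) := by
  unfold dens
  rw [lintegral_finsetSum, ENNReal.ofReal_sum_of_nonneg]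
  · apply Finset.sum_congr rfl
    intro j _
    rw [ind_nsq]
  · intro j _
    positivity
  · intro j _
    exact (Lp.stronglyMeasurable (h j)).measurable.enorm.pow_const 2

lemma dens_int {ι : Type*} (s : Finset ι) (h : ι → Lp ℂ 2 μ) :
    ∫⁻ x, dens s h x ∂μ = ENNReal.ofReal (∑ j ∈ s, ‖h j‖ ^ 2) := by
  unfold dens
  rw [lintegral_finsetSum, ENNReal.ofReal_sum_of_nonneg]
  · apply Finset.sum_congr rfl
    intro j _
    rw [ofReal_nsq]
  · intro j _
    positivity
  · intro j _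
    exact (Lp.stronglyMeasurable (h j)).measurable.enorm.pow_const 2

lemma dens_int_le (D : Disp μ U d) {N : ℕ} {f : Fin N → Lp ℂ 2 μ} (hf : Orthonormal ℂ f) (t : ℝ) :
    ∫⁻ x, dens Finset.univ (fun j => U t (f j)) x ∂μ ≤ ENNReal.ofReal (N : ℝ) := by
  rw [dens_int]
  apply ENNReal.ofReal_le_ofReal
  calc ∑ j, ‖U t (f j)‖ ^ 2 ≤ ∑ j : Fin N, (1 : ℝ) := by
        apply Finset.sum_le_sum
        intro j _
        have h1 := (U t).le_opNorm (f j)
        rw [hf.1 j, mul_one] at h1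
        exact pow_le_one₀ (norm_nonneg _) (h1.trans (D.hn t))
    _ = N := by simp

lemma Vmax_pos {R : ℝ} (hR : 0 < R) (d : ℕ) : 0 < Vmax d R := by
  unfold Vmax; positivity

/-- constants -/
noncomputable def cg (d : ℕ) : ℝ := 4 * (256 * 44) ^ 2 * (2 * (256 * 72)) ^ (d - 1)

/-- the estimate before optimising -/
lemma pre_bound (D : Disp μ U d) (hd : 2 ≤ d) {N : ℕ} {f : Fin N → Lp ℂ 2 μ}
    (hf : Orthonormal ℂ f) {R : ℝ} (hR : 0 < R) {η θ : ℝ} (hη : 0 < η) (M : ℕ) {l : ℝ}
    (hl : η * Vmax d R ≤ l) :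
    ∑ i : Fin M, η * (GR μ d R (dens Finset.univ
        (fun j => U (θ + ((i : ℕ) : ℝ) * η) (f j)))).toReal
      ≤ 256 * 72 * N * l + 256 * 44 * (Real.sqrt N * Real.sqrt ((l ^ (d - 1))⁻¹ *
        ∑ i : Fin M, η * (GR μ d R (dens Finset.univ
          (fun j => U (θ + ((i : ℕ) : ℝ) * η) (f j)))).toReal)) := by
  have hV := Vmax_pos hR d
  have hlpos : 0 < l := lt_of_lt_of_le (mul_pos hη hV) hl
  set J := ∑ i : Fin M, η * (GR μ d R (dens Finset.univ
        (fun j => U (θ + ((i : ℕ) : ℝ) * η) (f j)))).toReal with hJ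
  apply le_of_forall_pos_le_add
  intro ε hε
  set v : ℝ := min (Vmax d R) (ε / (M * η * N + 1)) with hv
  have hden : 0 < (M : ℝ) * η * N + 1 := by positivity
  have hvpos : 0 < v := lt_min hV (div_pos hε hden)
  have hv1 : v ≤ Vmax d R := min_le_left _ _
  have hv2 : (M : ℝ) * η * N * v ≤ ε := by
    have h1 : v ≤ ε / (M * η * N + 1) := min_le_right _ _
    rw [le_div_iff₀ hden] at h1
    nlinarith
  obtain ⟨n, hn1, hn2⟩ := exists_nat_pow_near (x := Vmax d R / v) (y := 256)
    ((one_le_div hvpos).2 hv1) (by norm_num)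
  rw [le_div_iff₀ hvpos] at hn1
  rw [div_lt_iff₀ hvpos] at hn2
  have hlev := fun i : Fin M => levels hd
    (dens Finset.univ (fun j => U (θ + ((i : ℕ) : ℝ) * η) (f j))) (dens_meas _ _)
    (Nat.cast_nonneg N) (dens_int_le D hf _) hR hvpos (L := n + 1) (by linarith)
  choose E hE1 hE2 hE3 hE4 using hlev
  have hgrid := D.grid hd (M := M) (L := n + 1) (θ := θ) hη hvpos hlpos (by
    intro k
    refine le_trans ?_ hl
    apply mul_le_mul_of_nonneg_left _ hη.le
    refine le_trans ?_ hn1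
    rw [mul_comm]
    apply mul_le_mul_of_nonneg_right _ hvpos.le
    exact pow_le_pow_right₀ (by norm_num) (Nat.lt_succ_iff.1 k.2))
    (fun α => E α.1 α.2) (fun α => hE1 α.1 α.2) (fun α => hE2 α.1 α.2) hf
  have hint : ∀ (i : Fin M) (k : Fin (n + 1)),
      (∫⁻ x in E i k, dens Finset.univ (fun j => U (θ + ((i : ℕ) : ℝ) * η) (f j)) x ∂μ).toReal
      = ∑ j, ‖ind μ (hE1 i k) (U (θ + ((i : ℕ) : ℝ) * η) (f j))‖ ^ 2 := by
    intro i k
    rw [dens_set _ _ (hE1 i k), ENNReal.toReal_ofReal]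
    exact Finset.sum_nonneg (fun _ _ => by positivity)
  have htot : ∑ α : Fin M × Fin (n + 1), η * (v * 256 ^ (α.2 : ℕ)) ^ (d + 1) *
      (μ (E α.1 α.2)).toReal ^ 2 ≤ J := by
    rw [Fintype.sum_prod_type, hJ]
    apply Finset.sum_le_sum
    intro i _
    have h1 := mul_le_mul_of_nonneg_left (hE3 i) hη.le
    rw [Finset.mul_sum] at h1
    refine le_trans (le_of_eq ?_) h1
    apply Finset.sum_congr rfl
    intro k _
    simp only
    ring
  calc J ≤ ∑ i : Fin M, η * (v * N + 256 * ∑ k : Fin (n + 1), v * 256 ^ (k : ℕ) *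
        ∑ j, ‖ind μ (hE1 i k) (U (θ + ((i : ℕ) : ℝ) * η) (f j))‖ ^ 2) := by
        rw [hJ]
        apply Finset.sum_le_sum
        intro i _
        apply mul_le_mul_of_nonneg_left _ hη.le
        have h1 := hE4 i
        simp only [hint] at h1
        exact h1
    _ = (M : ℝ) * η * N * v + 256 * ∑ α : Fin M × Fin (n + 1), η * (v * 256 ^ (α.2 : ℕ)) *
        ∑ j, ‖ind μ (hE1 α.1 α.2) (U (θ + ((α.1 : ℕ) : ℝ) * η) (f j))‖ ^ 2 := by
        rw [Fintype.sum_prod_type]
        simp only [mul_add, Finset.sum_add_distrib]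
        congr 1
        · rw [Finset.sum_const, Finset.card_univ, Fintype.card_fin, nsmul_eq_mul]
          ring
        · rw [Finset.mul_sum]
          apply Finset.sum_congr rfl
          intro i _
          rw [Finset.mul_sum, Finset.mul_sum, Finset.mul_sum]
          apply Finset.sum_congr rfl
          intro k _
          ring
    _ ≤ ε + 256 * (N * (72 * l) + Real.sqrt N * (44 * Real.sqrt ((l ^ (d - 1))⁻¹ * J))) := by
        apply add_le_add hv2
        apply mul_le_mul_of_nonneg_left _ (by norm_num)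
        refine hgrid.trans ?_
        gcongr
    _ = _ := by ring

theorem grid_bound (D : Disp μ U d) (hd : 2 ≤ d) {N : ℕ} {f : Fin N → Lp ℂ 2 μ}
    (hf : Orthonormal ℂ f) {R : ℝ} (hR : 0 < R) {η θ : ℝ} (hη : 0 < η) (M : ℕ) :
    ∑ i : Fin M, η * (GR μ d R (dens Finset.univ
        (fun j => U (θ + ((i : ℕ) : ℝ) * η) (f j)))).toReal
      ≤ N * (cg d + 2 * (256 * 72) * (η * Vmax d R)) := by
  have hpre := fun (l : ℝ) (hl : η * Vmax d R ≤ l) => pre_bound D hd hf hR (θ := θ) hη M hl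
  set J := ∑ i : Fin M, η * (GR μ d R (dens Finset.univ
        (fun j => U (θ + ((i : ℕ) : ℝ) * η) (f j)))).toReal with hJ
  have hJ0 : 0 ≤ J := Finset.sum_nonneg (fun i _ => mul_nonneg hη.le ENNReal.toReal_nonneg)
  have hV := Vmax_pos hR d
  have hcg : 1 ≤ cg d := by
    unfold cg
    have : (1 : ℝ) ≤ (2 * (256 * 72)) ^ (d - 1) := one_le_pow₀ (by norm_num)
    nlinarith
  by_cases h : J ≤ 2 * (256 * 72) * N * (η * Vmax d R)
  · have : (0 : ℝ) ≤ N * cg d := by positivity
    nlinarith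
  · rw [not_le] at h
    have hJpos : 0 < J := lt_of_le_of_lt (by positivity) h
    have hN : 0 < (N : ℝ) := by
      rcases (Nat.cast_nonneg N : (0:ℝ) ≤ N).lt_or_eq with h5 | h5
      · exact h5
      · exfalso
        have h6 := hpre (η * Vmax d R) le_rfl
        rw [← h5] at h6
        simp at h6
        linarith
    set l : ℝ := J / (2 * (256 * 72) * N) with hl
    have hlpos : 0 < l := by positivity
    have hl1 : η * Vmax d R ≤ l := by
      rw [hl, le_div_iff₀ (by positivity)]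
      linarith
    have h1 := hpre l hl1
    have h2 : 256 * 72 * N * l = J / 2 := by
      rw [hl]; field_simp
    rw [h2] at h1
    have h3 : J / 2 ≤ 256 * 44 * (Real.sqrt N * Real.sqrt ((l ^ (d - 1))⁻¹ * J)) := by linarith
    have h4 : (J / 2) ^ 2 ≤ (256 * 44) ^ 2 * (N * ((l ^ (d - 1))⁻¹ * J)) := by
      calc (J / 2) ^ 2 ≤ (256 * 44 * (Real.sqrt N * Real.sqrt ((l ^ (d - 1))⁻¹ * J))) ^ 2 :=
            pow_le_pow_left₀ (by positivity) h3 2
        _ = _ := by
            rw [mul_pow (256 * 44 : ℝ), mul_pow (Real.sqrt N), Real.sq_sqrt hN.le,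
              Real.sq_sqrt (by positivity)]
    have h5 : J * l ^ (d - 1) ≤ 4 * (256 * 44) ^ 2 * N := by
      have h6 : (J / 2) ^ 2 * l ^ (d - 1) ≤ (256 * 44) ^ 2 * (N * J) := by
        calc (J / 2) ^ 2 * l ^ (d - 1) ≤ (256 * 44) ^ 2 * (N * ((l ^ (d - 1))⁻¹ * J)) * l ^ (d - 1)
              := mul_le_mul_of_nonneg_right h4 (by positivity)
          _ = (256 * 44) ^ 2 * (N * J) := by field_simp
      have h7 : J * (J * l ^ (d - 1)) ≤ J * (4 * (256 * 44) ^ 2 * N) := by nlinarith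
      exact le_of_mul_le_mul_left h7 hJpos
    obtain ⟨D', rfl⟩ : ∃ D', d = D' + 1 := ⟨d - 1, by omega⟩
    have h8 : J ^ (D' + 1) ≤ (N * cg (D' + 1)) ^ (D' + 1) := by
      have h9 : l ^ D' = J ^ D' / (2 * (256 * 72) * N) ^ D' := by rw [hl, div_pow]
      simp only [Nat.add_sub_cancel] at h5
      rw [h9] at h5
      have h10 : J ^ (D' + 1) ≤ 4 * (256 * 44) ^ 2 * N * (2 * (256 * 72) * N) ^ D' := by
        rw [← mul_div_assoc, div_le_iff₀ (by positivity)] at h5
        rw [pow_succ]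
        linarith
      refine h10.trans ?_
      calc 4 * (256 * 44) ^ 2 * (N : ℝ) * (2 * (256 * 72) * N) ^ D'
          = N ^ (D' + 1) * cg (D' + 1) := by
            unfold cg
            simp only [Nat.add_sub_cancel]
            rw [mul_pow (2 * (256 * 72) : ℝ) N]
            ring
        _ ≤ N ^ (D' + 1) * cg (D' + 1) ^ (D' + 1) := by
            apply mul_le_mul_of_nonneg_left _ (by positivity)
            exact le_self_pow₀ hcg (by omega)
        _ = _ := by rw [mul_pow]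
    have h9 : J ≤ N * cg (D' + 1) := le_of_pow_le_pow_left₀ (by omega) (by positivity) h8
    have : 0 ≤ (N : ℝ) * (2 * (256 * 72) * (η * Vmax (D' + 1) R)) := by positivity
    linarith

end Pool.Agent.L5helper79.Ons
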