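import Pool.Agent.L5helper79.Ons.Schr

/-!
# The kernel of the regularised propagator and the Hilbert–Schmidt bound
-/

set_option autoImplicit false
set_option linter.unusedSectionVars false

open scoped InnerProductSpace ENNReal RealInnerProductSpace
open MeasureTheory FourierTransform Filter

namespace Pool.Agent.L5helper79.Ons

variable {V : Type*} [NormedAddCommGroup V] [InnerProductSpace ℝ V] [FiniteDimensional ℝ V]
  [MeasurableSpace V] [BorelSpace V]

/-- the kernel -/
noncomputable def Kz (V : Type*) [NormedAddCommGroup V] [InnerProductSpace ℝ V] (b : ℂ)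
    (x y : V) : ℂ :=
  (Real.pi / b) ^ (Module.finrank ℝ V / 2 : ℂ) * Complex.exp (-Real.pi ^ 2 * ‖x - y‖ ^ 2 / b)

lemma Kz_cont (b : ℂ) (x : V) : Continuous (fun y => Kz V b x y) := by
  unfold Kz
  fun_prop

lemma sym_integrable {a : ℝ} (ha : a ≠ 0) (s : ℝ) : Integrable (sym a s : V → ℂ) := by
  have h := GaussianFourier.integrable_cexp_neg_mul_sq_norm_add (V := V) (bb_re_pos ha s) 0 0
  have h2 : (sym a s : V → ℂ) = fun v : V => Complex.exp (-bb a s * ‖v‖ ^ 2 + 0 * ⟪(0 : V), v⟫) := by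
    funext v
    simp [sym]
  rw [h2]
  exact h

theorem Us_kernel {a : ℝ} (ha : a ≠ 0) (s : ℝ) {h : V → ℂ} (h1 : Integrable h)
    (h2 : MemLp h 2) :
    (Us V a s (h2.toLp h) : V → ℂ) =ᵐ[volume] fun x => ∫ y, h y * Kz V (bb a s) x y := by
  have hb := bb_re_pos ha s
  have hFc : Continuous (𝓕 h) :=
    VectorFourier.fourierIntegral_continuous Real.continuous_fourierChar continuous_inner h1
  let H : V → ℂ := fun ξ => sym a s ξ * 𝓕 h ξ
  have hH1 : Integrable H := by
    apply (sym_integrable ha s).mul_bdd (c := ∫ v, ‖h v‖) hFc.aestronglyMeasurable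
    filter_upwards with ξ
    exact VectorFourier.norm_fourierIntegral_le_integral_norm _ _ _ _ _
  have hae : (mulOp volume (sym a s) (sym_meas a s) (sym_bd a s) (FL V (h2.toLp h)) : V → ℂ)
      =ᵐ[volume] H := by
    filter_upwards [mulOp_coe (sym a s) (sym_meas a s) (sym_bd a s) (FL V (h2.toLp h)),
      fourier_ae h1 h2] with ξ e1 e2
    rw [e1, FL_apply, e2]
  have hH2 : MemLp H 2 := (memLp_congr_ae hae).1 (Lp.memLp _)
  have hEq : mulOp volume (sym a s) (sym_meas a s) (sym_bd a s) (FL V (h2.toLp h)) =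
      hH2.toLp H := by
    apply Lp.ext
    exact hae.trans hH2.coeFn_toLp.symm
  have h3 : Us V a s (h2.toLp h) = 𝓕⁻ (hH2.toLp H) := by
    unfold Us
    rw [ContinuousLinearMap.comp_apply, ContinuousLinearMap.comp_apply, hEq, FLi_apply]
  rw [h3]
  refine (fourierInv_ae hH1 hH2).trans ?_
  filter_upwards with x
  rw [Real.fourierInv_eq']
  have hg := GaussianFourier.integrable_cexp_neg_mul_sq_norm_add (V := V) hb
    (2 * Real.pi * Complex.I) x
  have h4 := VectorFourier.integral_fourierIntegral_smul_eq_flip (L := innerₗ V)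
      (μ := (volume : Measure V)) (ν := (volume : Measure V))
      Real.continuous_fourierChar continuous_inner h1 hg
  rw [flip_innerₗ] at h4
  calc ∫ v, Complex.exp ((↑(2 * Real.pi * ⟪v, x⟫) * Complex.I)) • H v
      = ∫ ξ, (𝓕 h ξ) • Complex.exp (-bb a s * ‖ξ‖ ^ 2 + 2 * Real.pi * Complex.I * ⟪x, ξ⟫) := by
        apply integral_congr_ae
        filter_upwards with ξ
        simp only [H, sym, smul_eq_mul]
        rw [Complex.exp_add, real_inner_comm x ξ]
        push_cast
        ring_nf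
    _ = ∫ y, (h y) • 𝓕 (fun ξ : V => Complex.exp (-bb a s * ‖ξ‖ ^ 2 +
          2 * Real.pi * Complex.I * ⟪x, ξ⟫)) y := h4
    _ = ∫ y, h y * Kz V (bb a s) x y := by
        apply integral_congr_ae
        filter_upwards with y
        rw [fourier_gaussian_innerProductSpace' hb x y, smul_eq_mul]
        rfl

lemma Kz_bound {a s : ℝ} (ha : a ≠ 0) (hs : s ≠ 0) (x y : V) :
    ‖Kz V (bb a s) x y‖ ^ 2 ≤ (|s| ^ (Module.finrank ℝ V))⁻¹ := by
  have hb := bb_re_pos ha s
  have hbnorm : 4 * Real.pi ^ 2 * |s| ≤ ‖bb a s‖ := by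
    have h1 : (bb a s).im = 4 * Real.pi ^ 2 * s := by
      unfold bb
      simp [← Complex.ofReal_pow]
    have h2 := Complex.abs_im_le_norm (bb a s)
    rw [h1, abs_mul, abs_of_pos (by positivity : (0:ℝ) < 4 * Real.pi ^ 2)] at h2
    exact h2
  have hspos : 0 < |s| := abs_pos.2 hs
  have hbpos : 0 < ‖bb a s‖ := lt_of_lt_of_le (by positivity) hbnorm
  have hexp : ‖Complex.exp (-Real.pi ^ 2 * ‖x - y‖ ^ 2 / bb a s)‖ ≤ 1 := by
    rw [Complex.norm_exp]
    apply Real.exp_le_one_iff.2
    have h3 : (-(Real.pi : ℂ) ^ 2 * (‖x - y‖ : ℂ) ^ 2 / bb a s) =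
        ((-(Real.pi ^ 2 * ‖x - y‖ ^ 2) : ℝ) : ℂ) * (bb a s)⁻¹ := by
      push_cast
      ring
    rw [h3, Complex.re_ofReal_mul, Complex.inv_re]
    have h4 : 0 ≤ (bb a s).re / Complex.normSq (bb a s) :=
      div_nonneg hb.le (Complex.normSq_nonneg _)
    have h5 : 0 ≤ Real.pi ^ 2 * ‖x - y‖ ^ 2 := by positivity
    nlinarith
  have hpow : ‖((Real.pi : ℂ) / bb a s) ^ (Module.finrank ℝ V / 2 : ℂ)‖ ≤
      (|s|⁻¹) ^ ((Module.finrank ℝ V : ℝ) / 2) := by
    have h6 : ((Module.finrank ℝ V : ℂ) / 2) = (((Module.finrank ℝ V : ℝ) / 2 : ℝ) : ℂ) := by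
      push_cast
      rfl
    rw [h6, Complex.norm_cpow_real]
    apply Real.rpow_le_rpow (norm_nonneg _) _ (by positivity)
    rw [norm_div, Complex.norm_real, Real.norm_eq_abs, abs_of_pos Real.pi_pos, inv_eq_one_div,
      div_le_div_iff₀ hbpos hspos]
    have hpi : 1 < Real.pi := by linarith [Real.pi_gt_three]
    nlinarith [mul_pos Real.pi_pos hspos, mul_pos (mul_pos Real.pi_pos Real.pi_pos) hspos]
  calc ‖Kz V (bb a s) x y‖ ^ 2
      = (‖((Real.pi : ℂ) / bb a s) ^ (Module.finrank ℝ V / 2 : ℂ)‖ *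
        ‖Complex.exp (-Real.pi ^ 2 * ‖x - y‖ ^ 2 / bb a s)‖) ^ 2 := by
        unfold Kz
        rw [norm_mul]
    _ ≤ ((|s|⁻¹) ^ ((Module.finrank ℝ V : ℝ) / 2) * 1) ^ 2 := by
        apply pow_le_pow_left₀ (by positivity)
        exact mul_le_mul hpow hexp (norm_nonneg _) (by positivity)
    _ = (|s| ^ (Module.finrank ℝ V))⁻¹ := by
        rw [mul_one, ← Real.rpow_natCast _ 2, ← Real.rpow_mul (by positivity)]
        have : (Module.finrank ℝ V : ℝ) / 2 * ((2 : ℕ) : ℝ) = (Module.finrank ℝ V : ℝ) := by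
          push_cast; ring
        rw [this, Real.rpow_natCast, inv_pow]

/-- pointwise Bessel bound -/
lemma bessel_pt {a s : ℝ} (ha : a ≠ 0) (hs : s ≠ 0) {F : Set V} (hF : MeasurableSet F)
    (hFf : volume F ≠ ∞) {n : ℕ} {e : Fin n → Lp ℂ 2 (volume : Measure V)}
    (he : Orthonormal ℂ e) :
    ∀ᵐ x : V, ∑ i, ‖(Us V a s (ind volume hF (e i))) x‖ ^ 2 ≤
      (|s| ^ (Module.finrank ℝ V))⁻¹ * (volume F).toReal := by
  have hmem : ∀ i, MemLp (F.indicator (e i)) 2 volume := fun i => (Lp.memLp (e i)).indicator hF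
  have hint : ∀ i, Integrable (F.indicator (e i)) volume := by
    intro i
    rw [integrable_indicator_iff hF]
    have : IsFiniteMeasure (volume.restrict F) := ⟨by simpa using hFf.lt_top⟩
    exact ((Lp.memLp (e i)).restrict F).integrable (by norm_num)
  have hind : ∀ i, ind volume hF (e i) = (hmem i).toLp _ := by
    intro i
    apply Lp.ext
    exact (ind_coe hF (e i)).trans (hmem i).coeFn_toLp.symm
  have hker : ∀ i, (Us V a s (ind volume hF (e i)) : V → ℂ) =ᵐ[volume]
      fun x => ∫ y, F.indicator (e i) y * Kz V (bb a s) x y := by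
    intro i
    rw [hind i]
    exact Us_kernel ha s (hint i) (hmem i)
  filter_upwards [eventually_all.2 hker] with x hx
  -- the kernel as an element of `L²`
  set κ : ℝ := Real.sqrt ((|s| ^ (Module.finrank ℝ V))⁻¹) with hκ
  have hKb : ∀ y, ‖Kz V (bb a s) x y‖ ≤ κ := by
    intro y
    apply Real.le_sqrt_of_sq_le
    exact Kz_bound ha hs x y
  let k : V → ℂ := F.indicator (fun y => (starRingEnd ℂ) (Kz V (bb a s) x y))
  have hkmem : MemLp k 2 volume := by
    rw [memLp_indicator_iff_restrict hF]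
    have : IsFiniteMeasure (volume.restrict F) := ⟨by simpa using hFf.lt_top⟩
    apply MemLp.of_bound _ κ
    · filter_upwards with y
      rw [RCLike.norm_conj]
      exact hKb y
    · exact (Complex.continuous_conj.comp (Kz_cont _ x)).aestronglyMeasurable
  have hinner : ∀ i, (Us V a s (ind volume hF (e i))) x = ⟪hkmem.toLp k, e i⟫_ℂ := by
    intro i
    rw [hx i, L2.inner_def]
    apply integral_congr_ae
    filter_upwards [hkmem.coeFn_toLp] with y hy
    rw [hy]
    simp only [RCLike.inner_apply, k]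
    by_cases hyF : y ∈ F
    · simp [hyF]
    · simp [hyF]
  have hknorm : ‖hkmem.toLp k‖ ^ 2 ≤ (|s| ^ (Module.finrank ℝ V))⁻¹ * (volume F).toReal := by
    have h1 : ENNReal.ofReal (‖hkmem.toLp k‖ ^ 2) ≤
        ENNReal.ofReal ((|s| ^ (Module.finrank ℝ V))⁻¹) * volume F := by
      rw [ofReal_nsq]
      calc ∫⁻ y, ‖(hkmem.toLp k) y‖ₑ ^ 2 = ∫⁻ y in F, ‖Kz V (bb a s) x y‖ₑ ^ 2 := by
            rw [← lintegral_indicator hF]
            apply lintegral_congr_ae
            filter_upwards [hkmem.coeFn_toLp] with y hy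
            rw [hy]
            by_cases hyF : y ∈ F
            · simp [k, hyF]
            · simp [k, hyF]
        _ ≤ ∫⁻ y in F, ENNReal.ofReal ((|s| ^ (Module.finrank ℝ V))⁻¹) := by
            apply lintegral_mono
            intro y
            simp only
            rw [← ofReal_norm, ← ENNReal.ofReal_pow (norm_nonneg _)]
            exact ENNReal.ofReal_le_ofReal (Kz_bound ha hs x y)
        _ = _ := by rw [setLIntegral_const]
    have h2 := ENNReal.toReal_mono (ENNReal.mul_ne_top ENNReal.ofReal_ne_top hFf) h1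
    rw [ENNReal.toReal_ofReal (by positivity), ENNReal.toReal_mul,
      ENNReal.toReal_ofReal (by positivity)] at h2
    exact h2
  calc ∑ i, ‖(Us V a s (ind volume hF (e i))) x‖ ^ 2
      = ∑ i, ‖⟪hkmem.toLp k, e i⟫_ℂ‖ ^ 2 := by
        apply Finset.sum_congr rfl
        intro i _
        rw [hinner i]
    _ ≤ ‖hkmem.toLp k‖ ^ 2 := bessel he _
    _ ≤ _ := hknorm

/-- the Hilbert–Schmidt bound, regularised -/
lemma hs_reg {a s : ℝ} (ha : a ≠ 0) (hs : s ≠ 0) {E F : Set V} (hE : MeasurableSet E)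
    (hF : MeasurableSet F) (hEf : volume E ≠ ∞) (hFf : volume F ≠ ∞) :
    HSb (ind volume hE ∘L (Us V a s ∘L ind volume hF))
      ((|s| ^ (Module.finrank ℝ V))⁻¹ * ((volume E).toReal * (volume F).toReal)) := by
  intro n e he
  have h1 : ENNReal.ofReal (∑ i, ‖(ind volume hE ∘L (Us V a s ∘L ind volume hF)) (e i)‖ ^ 2) ≤
      ENNReal.ofReal ((|s| ^ (Module.finrank ℝ V))⁻¹ * (volume F).toReal) * volume E := by
    rw [ENNReal.ofReal_sum_of_nonneg (fun i _ => by positivity)]
    calc ∑ i, ENNReal.ofReal (‖(ind volume hE ∘L (Us V a s ∘L ind volume hF)) (e i)‖ ^ 2)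
        = ∑ i, ∫⁻ x in E, ‖(Us V a s (ind volume hF (e i))) x‖ₑ ^ 2 := by
          apply Finset.sum_congr rfl
          intro i _
          rw [← ind_nsq hE]
          rfl
      _ = ∫⁻ x in E, ∑ i, ‖(Us V a s (ind volume hF (e i))) x‖ₑ ^ 2 := by
          rw [lintegral_finsetSum]
          intro i _
          exact (Lp.stronglyMeasurable _).measurable.enorm.pow_const 2
      _ ≤ ∫⁻ x in E, ENNReal.ofReal ((|s| ^ (Module.finrank ℝ V))⁻¹ * (volume F).toReal) := by
          apply lintegral_mono_ae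
          apply ae_restrict_of_ae
          filter_upwards [bessel_pt ha hs hF hFf he] with x hx
          have h2 : ∑ i, ‖(Us V a s (ind volume hF (e i))) x‖ₑ ^ 2 =
              ENNReal.ofReal (∑ i, ‖(Us V a s (ind volume hF (e i))) x‖ ^ 2) := by
            rw [ENNReal.ofReal_sum_of_nonneg (fun i _ => by positivity)]
            apply Finset.sum_congr rfl
            intro i _
            rw [ENNReal.ofReal_pow (norm_nonneg _), ofReal_norm]
          rw [h2]
          exact ENNReal.ofReal_le_ofReal hx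
      _ = _ := by rw [setLIntegral_const]
  have h2 := ENNReal.toReal_mono (ENNReal.mul_ne_top ENNReal.ofReal_ne_top hEf) h1
  rw [ENNReal.toReal_ofReal (Finset.sum_nonneg (fun i _ => by positivity)), ENNReal.toReal_mul,
    ENNReal.toReal_ofReal (by positivity)] at h2
  refine h2.trans (le_of_eq ?_)
  ring

/-- **the Schrödinger group is dispersive** -/
theorem disp_schr : Disp (volume : Measure V) (fun t => Us V 0 t) (Module.finrank ℝ V) := by
  refine ⟨fun t => Us_norm 0 t, fun s t => Us_adj s t, fun f => Us_cont_time 0 f, ?_⟩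
  intro s hs E F hE hF hEf hFf n e he
  have hlim : Tendsto (fun m : ℕ => ∑ i, ‖(ind volume hE ∘L (Us V (1 / ((m : ℝ) + 1)) s ∘L
      ind volume hF)) (e i)‖ ^ 2) atTop
      (nhds (∑ i, ‖(ind volume hE ∘L (Us V 0 s ∘L ind volume hF)) (e i)‖ ^ 2)) := by
    apply tendsto_finsetSum
    intro i _
    have hc : Continuous (fun a => ‖(ind volume hE ∘L (Us V a s ∘L ind volume hF)) (e i)‖ ^ 2) := by
      have h1 := Us_cont_reg s (ind volume hF (e i))
      exact (((ind volume hE).continuous.comp h1).norm).pow 2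
    exact (hc.tendsto 0).comp tendsto_one_div_add_atTop_nhds_zero_nat
  apply le_of_tendsto' hlim
  intro m
  exact hs_reg (by positivity) hs hE hF hEf hFf n e he

end Pool.Agent.L5helper79.Ons
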