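import Pool.Agent.L5helper79.Ons.FT
import Pool.Agent.L5helper79.Ons.Disp

/-!
# The Schrödinger group
-/

set_option autoImplicit false
set_option linter.unusedSectionVars false

open scoped InnerProductSpace ENNReal RealInnerProductSpace
open MeasureTheory FourierTransform Filter

namespace Pool.Agent.L5helper79.Ons

section cont

variable {X : Type*} [MeasurableSpace X] {μ : Measure X}

lemma mulOp_cont {m : ℝ → X → ℂ} (hm : ∀ t, Measurable (m t)) (hb : ∀ t x, ‖m t x‖ ≤ 1)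
    (hc : ∀ x, Continuous (fun t => m t x)) (f : Lp ℂ 2 μ) :
    Continuous (fun t => mulOp μ (m t) (hm t) (hb t) f) := by
  rw [continuous_iff_continuousAt]
  intro t0
  unfold ContinuousAt
  rw [tendsto_iff_norm_sub_tendsto_zero]
  have h1 : Tendsto (fun t => ENNReal.ofReal (‖mulOp μ (m t) (hm t) (hb t) f -
      mulOp μ (m t0) (hm t0) (hb t0) f‖ ^ 2)) (nhds t0) (nhds 0) := by
    have h2 : ∀ t, ENNReal.ofReal (‖mulOp μ (m t) (hm t) (hb t) f -
      mulOp μ (m t0) (hm t0) (hb t0) f‖ ^ 2) = ∫⁻ x, ‖m t x - m t0 x‖ₑ ^ 2 * ‖f x‖ₑ ^ 2 ∂μ := by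
      intro t
      rw [ofReal_nsq]
      apply lintegral_congr_ae
      filter_upwards [mulOp_coe (m t) (hm t) (hb t) f, mulOp_coe (m t0) (hm t0) (hb t0) f,
        Lp.coeFn_sub (mulOp μ (m t) (hm t) (hb t) f) (mulOp μ (m t0) (hm t0) (hb t0) f)]
        with x e1 e2 e3
      rw [e3, Pi.sub_apply, e1, e2, ← sub_mul, enorm_mul, mul_pow]
    simp only [h2]
    have h3 : (0 : ℝ≥0∞) = ∫⁻ x, ‖m t0 x - m t0 x‖ₑ ^ 2 * ‖f x‖ₑ ^ 2 ∂μ := by simp
    rw [h3]
    have hfm : Measurable (fun x => ‖f x‖ₑ ^ 2) :=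
      (Lp.stronglyMeasurable f).measurable.enorm.pow_const 2
    apply tendsto_lintegral_filter_of_dominated_convergence (fun x => 4 * ‖f x‖ₑ ^ 2)
    · filter_upwards with t
      exact (((hm t).sub (hm t0)).enorm.pow_const 2).mul hfm
    · filter_upwards with t
      filter_upwards with x
      have h4 : ‖m t x - m t0 x‖ₑ ≤ 2 := by
        refine (enorm_sub_le).trans ?_
        have e1 : ‖m t x‖ₑ ≤ 1 := by
          rw [← ofReal_norm, ENNReal.ofReal_le_one]
          exact hb t x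
        have e2 : ‖m t0 x‖ₑ ≤ 1 := by
          rw [← ofReal_norm, ENNReal.ofReal_le_one]
          exact hb t0 x
        calc ‖m t x‖ₑ + ‖m t0 x‖ₑ ≤ 1 + 1 := add_le_add e1 e2
          _ = 2 := by norm_num
      have h5 : ‖m t x - m t0 x‖ₑ ^ 2 ≤ 4 := by
        calc ‖m t x - m t0 x‖ₑ ^ 2 ≤ 2 ^ 2 := pow_le_pow_left₀ zero_le h4 2
          _ = 4 := by norm_num
      gcongr
    · rw [lintegral_const_mul _ hfm, ← ofReal_nsq]
      exact ENNReal.mul_ne_top (by norm_num) ENNReal.ofReal_ne_top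
    · filter_upwards with x
      have hcx : Continuous (fun t => ‖m t x - m t0 x‖ₑ ^ 2) :=
        (ENNReal.continuous_pow 2).comp (((hc x).sub continuous_const).enorm)
      apply ENNReal.Tendsto.mul_const (hcx.tendsto t0)
      right
      exact ENNReal.pow_ne_top enorm_ne_top
  have h6 := (ENNReal.tendsto_toReal ENNReal.zero_ne_top).comp h1
  simp only [ENNReal.toReal_zero, Function.comp_def] at h6
  have h7 : ∀ t, (ENNReal.ofReal (‖mulOp μ (m t) (hm t) (hb t) f -
      mulOp μ (m t0) (hm t0) (hb t0) f‖ ^ 2)).toReal = ‖mulOp μ (m t) (hm t) (hb t) f -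
      mulOp μ (m t0) (hm t0) (hb t0) f‖ ^ 2 := fun t => ENNReal.toReal_ofReal (by positivity)
  simp only [h7] at h6
  have h8 := h6.sqrt
  simpa [Real.sqrt_sq] using h8

end cont

variable {V : Type*} [NormedAddCommGroup V] [InnerProductSpace ℝ V] [FiniteDimensional ℝ V]
  [MeasurableSpace V] [BorelSpace V]

/-- the complex parameter -/
noncomputable def bb (a s : ℝ) : ℂ := 4 * Real.pi ^ 2 * ((|a| : ℝ) + s * Complex.I)

/-- the symbol `exp(-4π²(|a|+is)|ξ|²)` -/
noncomputable def sym (a s : ℝ) (ξ : V) : ℂ := Complex.exp (-bb a s * ‖ξ‖ ^ 2)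

lemma bb_re (a s : ℝ) : (bb a s).re = 4 * Real.pi ^ 2 * |a| := by
  unfold bb
  simp [← Complex.ofReal_pow]

lemma bb_re_pos {a : ℝ} (ha : a ≠ 0) (s : ℝ) : 0 < (bb a s).re := by
  rw [bb_re]
  have := abs_pos.2 ha
  positivity

lemma sym_meas (a s : ℝ) : Measurable (sym a s : V → ℂ) := by
  unfold sym
  fun_prop

lemma sym_bd (a s : ℝ) (ξ : V) : ‖sym a s ξ‖ ≤ 1 := by
  unfold sym
  rw [Complex.norm_exp]
  apply Real.exp_le_one_iff.2
  have h1 : (-bb a s * (‖ξ‖ : ℂ) ^ 2).re = -(4 * Real.pi ^ 2 * |a|) * ‖ξ‖ ^ 2 := by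
    rw [← Complex.ofReal_pow, Complex.re_mul_ofReal, Complex.neg_re, bb_re]
  rw [h1]
  have : 0 ≤ 4 * Real.pi ^ 2 * |a| * ‖ξ‖ ^ 2 := by positivity
  linarith

/-- Fourier transform as a continuous linear map -/
noncomputable def FL (V : Type*) [NormedAddCommGroup V] [InnerProductSpace ℝ V]
    [FiniteDimensional ℝ V] [MeasurableSpace V] [BorelSpace V] :
    Lp ℂ 2 (volume : Measure V) →L[ℂ] Lp ℂ 2 (volume : Measure V) :=
  ((Lp.fourierTransformₗᵢ V ℂ).toContinuousLinearEquiv :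
    Lp ℂ 2 (volume : Measure V) →L[ℂ] Lp ℂ 2 (volume : Measure V))

/-- inverse Fourier transform as a continuous linear map -/
noncomputable def FLi (V : Type*) [NormedAddCommGroup V] [InnerProductSpace ℝ V]
    [FiniteDimensional ℝ V] [MeasurableSpace V] [BorelSpace V] :
    Lp ℂ 2 (volume : Measure V) →L[ℂ] Lp ℂ 2 (volume : Measure V) :=
  ((Lp.fourierTransformₗᵢ V ℂ).symm.toContinuousLinearEquiv :
    Lp ℂ 2 (volume : Measure V) →L[ℂ] Lp ℂ 2 (volume : Measure V))

lemma FL_apply (f : Lp ℂ 2 (volume : Measure V)) : FL V f = 𝓕 f := rfl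

lemma FLi_apply (f : Lp ℂ 2 (volume : Measure V)) : FLi V f = 𝓕⁻ f := rfl

lemma FL_norm : ‖FL V‖ ≤ 1 := by
  apply ContinuousLinearMap.opNorm_le_bound _ zero_le_one
  intro f
  rw [one_mul]
  exact le_of_eq ((Lp.fourierTransformₗᵢ V ℂ).norm_map f)

lemma FLi_norm : ‖FLi V‖ ≤ 1 := by
  apply ContinuousLinearMap.opNorm_le_bound _ zero_le_one
  intro f
  rw [one_mul]
  exact le_of_eq ((Lp.fourierTransformₗᵢ V ℂ).symm.norm_map f)

lemma FL_adjoint : (FL V).adjoint = FLi V :=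
  LinearIsometryEquiv.adjoint_eq_symm (Lp.fourierTransformₗᵢ V ℂ)

lemma FLi_adjoint : (FLi V).adjoint = FL V := by
  rw [← FL_adjoint, ContinuousLinearMap.adjoint_adjoint]

lemma FL_FLi : FL V ∘L FLi V = ContinuousLinearMap.id ℂ _ := by
  ext1 f
  exact (Lp.fourierTransformₗᵢ V ℂ).apply_symm_apply f

/-- the regularised propagator -/
noncomputable def Us (V : Type*) [NormedAddCommGroup V] [InnerProductSpace ℝ V]
    [FiniteDimensional ℝ V] [MeasurableSpace V] [BorelSpace V] (a s : ℝ) :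
    Lp ℂ 2 (volume : Measure V) →L[ℂ] Lp ℂ 2 (volume : Measure V) :=
  FLi V ∘L (mulOp volume (sym a s) (sym_meas a s) (sym_bd a s) ∘L FL V)

lemma Us_norm (a s : ℝ) : ‖Us V a s‖ ≤ 1 := by
  unfold Us
  refine (ContinuousLinearMap.opNorm_comp_le _ _).trans ?_
  apply mul_le_one₀ FLi_norm (norm_nonneg _)
  refine (ContinuousLinearMap.opNorm_comp_le _ _).trans ?_
  exact mul_le_one₀ (mulOp_norm _ _ _) (norm_nonneg _) FL_norm

lemma Us_cont_time (a : ℝ) (f : Lp ℂ 2 (volume : Measure V)) :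
    Continuous (fun s => Us V a s f) := by
  unfold Us
  apply (FLi V).continuous.comp
  exact mulOp_cont (m := fun s => sym a s) (fun s => sym_meas a s) (fun s => sym_bd a s)
    (fun x => by unfold sym bb; fun_prop) _

lemma Us_cont_reg (s : ℝ) (f : Lp ℂ 2 (volume : Measure V)) :
    Continuous (fun a => Us V a s f) := by
  unfold Us
  apply (FLi V).continuous.comp
  exact mulOp_cont (m := fun a => sym a s) (fun a => sym_meas a s) (fun a => sym_bd a s)
    (fun x => by unfold sym bb; fun_prop) _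

lemma Us_adj (s t : ℝ) : Us V 0 s ∘L (Us V 0 t).adjoint = Us V 0 (s - t) := by
  unfold Us
  rw [ContinuousLinearMap.adjoint_comp, ContinuousLinearMap.adjoint_comp, FL_adjoint,
    FLi_adjoint]
  rw [mulOp_adjoint (sym 0 t) (sym 0 (-t)) (sym_meas _ _) (sym_bd _ _) (sym_meas _ _)
    (sym_bd _ _)]
  · have h1 : mulOp volume (sym 0 s) (sym_meas 0 s) (sym_bd 0 s) ∘L
        mulOp volume (sym 0 (-t)) (sym_meas 0 (-t)) (sym_bd 0 (-t)) =
        mulOp (volume : Measure V) (sym 0 (s - t)) (sym_meas 0 (s - t)) (sym_bd 0 (s - t)) := by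
      apply mulOp_comp
      intro x
      unfold sym
      rw [← Complex.exp_add]
      congr 1
      unfold bb
      simp only [abs_zero, Complex.ofReal_zero]
      push_cast
      ring
    rw [← h1]
    have h2 : ∀ (A B : Lp ℂ 2 (volume : Measure V) →L[ℂ] Lp ℂ 2 (volume : Measure V)),
        (FLi V ∘L (A ∘L FL V)) ∘L ((FLi V ∘L B) ∘L FL V) = FLi V ∘L ((A ∘L B) ∘L FL V) := by
      intro A B
      ext1 f
      simp only [ContinuousLinearMap.comp_apply]
      congr 2
      exact (Lp.fourierTransformₗᵢ V ℂ).apply_symm_apply _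
    exact h2 _ _
  · intro x
    unfold sym
    rw [← Complex.exp_conj]
    congr 1
    unfold bb
    simp [Complex.conj_ofReal, map_ofNat]

end Pool.Agent.L5helper79.Ons
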